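import Pool.Agent.SH.L.Stmts
import Pool.Agent.SH.S.StmtsA

/-!
LINK, module SHL_PHB: the slant product with a Moore boundary vanishes on reduced classes.
-/

namespace Pool.Agent.SHL

open Pool.Agent.SHS

namespace Bd

/-- a monotone map missing `i` factors through the `i`-th coface -/
theorem factor_at {r t : ℕ} (a : Mor r (t + 1)) (i : Fin (t + 2)) (hi : ∀ v, a v ≠ i) :
    ∃ b : Mor r t, a = (cof i).comp b := by
  rw [cof_eq_cofN]
  have hi2 := i.2
  refine ⟨⟨fun v => ⟨if (a v).1 < i.1 then (a v).1 else (a v).1 - 1, ?_⟩, ?_⟩, ?_⟩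
  · have := (a v).2
    have h2 : (a v).1 ≠ i.1 := fun hh => hi v (Fin.ext hh)
    split_ifs <;> omega
  · intro v w hvw
    have h1 : (a v).1 ≤ (a w).1 := a.monotone hvw
    show (if (a v).1 < i.1 then (a v).1 else (a v).1 - 1)
      ≤ (if (a w).1 < i.1 then (a w).1 else (a w).1 - 1)
    split_ifs <;> omega
  · apply mor_ext
    intro v
    have h2 : (a v).1 ≠ i.1 := fun hh => hi v (Fin.ext hh)
    rw [comp_val, cofN_val]
    show _ = if (if (a v).1 < i.1 then (a v).1 else (a v).1 - 1) < i.1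
      then (if (a v).1 < i.1 then (a v).1 else (a v).1 - 1)
      else (if (a v).1 < i.1 then (a v).1 else (a v).1 - 1) + 1
    split_ifs <;> omega

/-- `v ↦ 0` if `τ v = 0` and `v ↦ a v + 1` if `τ v = 1`. -/
def J {n t : ℕ} (τ : Mor n 1) (a : Mor n t) : Mor n (t + 1) where
  toFun v := ⟨if (τ v).1 = 0 then 0 else (a v).1 + 1, by
    have := (a v).2
    split_ifs <;> omega⟩
  monotone' := by
    intro v w hvw
    have h1 : (a v).1 ≤ (a w).1 := a.monotone hvw
    have h2 : (τ v).1 ≤ (τ w).1 := τ.monotone hvw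
    show (if (τ v).1 = 0 then 0 else (a v).1 + 1) ≤ (if (τ w).1 = 0 then 0 else (a w).1 + 1)
    split_ifs <;> omega

theorem J_val {n t : ℕ} (τ : Mor n 1) (a : Mor n t) (v : Fin (n + 1)) :
    ((J τ a) v : ℕ) = if (τ v).1 = 0 then 0 else (a v).1 + 1 := rfl

theorem J_comp {m n t : ℕ} (c : Mor m n) (τ : Mor n 1) (a : Mor n t) :
    J (τ.comp c) (a.comp c) = (J τ a).comp c := rfl

theorem J_one {n t : ℕ} (a : Mor n t) : J (cst 1) a = (cof 0).comp a := by
  apply mor_ext
  intro v
  rw [cof_eq_cofN, J_val, comp_val, cofN_val]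
  have h : ((cst 1 : Mor n 1) v).1 = 1 := rfl
  rw [h, if_neg (by omega), if_neg (by simp)]

variable {Y : SS} {V : SV} {t : ℕ}

theorem w_face {w : (MapS Y V).X (t + 1)}
    (hw : ∀ i : Fin (t + 2), i ≠ 0 → (MapS Y V).map (cof i) w = 0) {n : ℕ} (b : Mor n (t + 1))
    (i : Fin (t + 2)) (hi0 : i ≠ 0) (hi : ∀ v, b v ≠ i) (y : Y.X n) : w.1 n (b, y) = 0 := by
  obtain ⟨b', rfl⟩ := factor_at b i hi
  have h2 := congrArg (fun F : HV ((SS.simplex t).prod Y) V => F.1 n (b', y)) (hw i hi0)
  exact h2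

/-- the homotopy -/
def hf (w : (MapS Y V).X (t + 1)) (n : ℕ) (τ : Mor n 1) : ((Sph t).prod Y).X n → V.X n
  | (none, _) => 0
  | (some a, y) => w.1 n (J τ a.1, y)

theorem hf_nat {w : (MapS Y V).X (t + 1)}
    (hw : ∀ i : Fin (t + 2), i ≠ 0 → (MapS Y V).map (cof i) w = 0) {m n : ℕ} (c : Mor m n)
    (τ : Mor n 1) (x : ((Sph t).prod Y).X n) :
    hf w m (τ.comp c) (((Sph t).prod Y).map c x) = V.map c (hf w n τ x) := by
  obtain ⟨o, y⟩ := x
  cases o with
  | none => exact (map_zero (V.map c)).symm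
  | some b =>
    show hf w m (τ.comp c) ((PS.sphere t).map c b, Y.map c y) = V.map c (w.1 n (J τ b.1, y))
    rw [← HV.nat]
    by_cases h : Function.Surjective (b.1.comp c)
    · rw [sphere_map_pos c b h]
      rfl
    · rw [sphere_map_neg c b h]
      symm
      have h' : ∃ j : Fin (t + 1), ∀ v, (b.1.comp c) v ≠ j := by
        by_contra hc
        push Not at hc
        exact h hc
      obtain ⟨j, hj⟩ := h'
      refine w_face hw ((J τ b.1).comp c) j.succ (Fin.succ_ne_zero j) ?_ _
      intro v hv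
      apply hj v
      have h1 := congrArg Fin.val hv
      rw [comp_val, J_val, Fin.val_succ] at h1
      apply Fin.ext
      rw [comp_val]
      split_ifs at h1
      omega

end Bd

open Bd in
theorem PHB (hH : HTY_Stmt) (h0 : ZM0_Stmt) : PHB_Stmt := by
  intro t _ Y V z hz a ha
  obtain ⟨w, hw0, hw⟩ := hz
  have hval : ∀ (n : ℕ) (b : Mor n t) (y : Y.X n), z.1.1 n (b, y) = w.1 n ((cof 0).comp b, y) := by
    intro n b y
    have h2 := congrArg (fun F : HV ((SS.simplex t).prod Y) V => F.1 n (b, y)) hw0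
    exact h2.symm
  have hhom : SS.Homotopy (zmap ((Sph t).prod Y) V) (HV.hom (sph z)) :=
    { h := fun n τ x => hf w n τ x
      nat := fun c τ x => hf_nat hw c τ x
      zero := by
        rintro n ⟨o, y⟩
        cases o with
        | none => rfl
        | some b =>
          show w.1 n (J (cst 0) b.1, y) = 0
          refine w_face hw _ 1 (by
            intro h
            have := congrArg Fin.val h
            simp at this) ?_ _
          intro v hv
          have h1 := congrArg Fin.val hv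
          have h3 : ((cst 0 : Mor n 1) v).1 = 0 := rfl
          rw [J_val, if_pos h3] at h1
          simp at h1
      one := by
        rintro n ⟨o, y⟩
        cases o with
        | none => rfl
        | some b =>
          show w.1 n (J (cst 1) b.1, y) = z.1.1 n (b.1, y)
          rw [hval, J_one] }
  have h1 := hH _ _ _ _ ⟨hhom⟩ a
  have h2 : Ph z a = mulEinv t Y (H.map (HV.hom (sph z)) a) := rfl
  rw [h2, ← h1, h0 _ _ a ha, map_zero]

end Pool.Agent.SHL
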