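import Pool.Agent.SH.L.Stmts
import Pool.Agent.SH.S.Tools

/-!
# LINK, BEM: realisation of classes by Moore cycles of `Map(Y, EM (m + t))`
-/

set_option autoImplicit false

namespace Pool.Agent.SHL

open Pool.Agent.SHS

namespace Bem

open Coch

theorem consec {n q : ℕ} (s : Mor n q) (h : ¬ Function.Injective s) :
    ∃ (i : ℕ) (hi : i + 1 < n + 1), s ⟨i, by omega⟩ = s ⟨i + 1, hi⟩ := by
  by_contra hcon
  push Not at hcon
  apply h
  have hm : StrictMono (fun v => s v) := by
    apply Fin.strictMono_iff_lt_succ.2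
    intro i
    apply lt_of_le_of_ne
    · exact s.monotone (Fin.castSucc_lt_succ).le
    · exact hcon i.1 (by omega)
  exact hm.injective

theorem cod_val {n : ℕ} (i : Fin (n + 1)) (v : Fin (n + 2)) :
    ((cod i) v : ℕ) = if v.1 ≤ i.1 then v.1 else v.1 - 1 := by
  show ((Fin.predAbove i v : Fin (n + 1)) : ℕ) = _
  unfold Fin.predAbove
  by_cases h : i.castSucc < v
  · rw [dif_pos h, if_neg (by rw [Fin.lt_def] at h; simpa using h)]
    rfl
  · rw [dif_neg h, if_pos (by rw [Fin.lt_def] at h; simpa using h)]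
    rfl

theorem factor_cod {m q : ℕ} (s : Mor (m + 1) q) (h : ¬ Function.Injective s) :
    ∃ (i : Fin (m + 1)) (s' : Mor m q), s = s'.comp (cod i) := by
  obtain ⟨i, hi, hs⟩ := consec s h
  refine ⟨⟨i, by omega⟩, s.comp (cofN (i + 1) m), ?_⟩
  apply OrderHom.ext
  funext v
  show s v = s (cofN (i + 1) m (cod ⟨i, by omega⟩ v))
  by_cases hv : v.1 = i + 1
  · have e1 : v = ⟨i + 1, hi⟩ := Fin.ext hv
    have e2 : cofN (i + 1) m (cod ⟨i, by omega⟩ v) = ⟨i, by omega⟩ := by
      apply Fin.ext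
      rw [cofN_val, cod_val]
      show (if (if v.1 ≤ i then v.1 else v.1 - 1) < i + 1 then
        (if v.1 ≤ i then v.1 else v.1 - 1) else (if v.1 ≤ i then v.1 else v.1 - 1) + 1) = i
      split_ifs <;> omega
    rw [e2]
    exact (congrArg s e1).trans hs.symm
  · congr 1
    apply Fin.ext
    rw [cofN_val, cod_val]
    show v.1 = (if (if v.1 ≤ i then v.1 else v.1 - 1) < i + 1 then
      (if v.1 ≤ i then v.1 else v.1 - 1) else (if v.1 ≤ i then v.1 else v.1 - 1) + 1)
    split_ifs <;> omega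

theorem exists_norm (hN : NORM_Stmt) {X : SS} {m : ℕ} {c : H X} (hc : c ∈ Hn X m) :
    ∃ (γ : X.X m → k) (h : X.cm.delta m γ = 0), clsN m γ h = c ∧ NormC m γ := by
  obtain ⟨γ, h, rfl⟩ := exists_clsN hc
  cases m with
  | zero =>
    refine ⟨γ, h, rfl, fun q s hs => ?_⟩
    refine absurd (fun a b _ => ?_) hs
    apply Fin.ext
    have h1 := a.2
    have h2 := b.2
    omega
  | succ m =>
    obtain ⟨v, hv⟩ := hN X.cm m γ (fun i => by rw [h, map_zero])
    have h' : X.cm.delta (m + 1) (γ + X.cm.delta m v) = 0 := by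
      rw [map_add, h, zero_add]
      exact X.cm.delta_delta m v
    refine ⟨γ + X.cm.delta m v, h', ?_, ?_⟩
    · have e := clsN_add γ (X.cm.delta m v) h (X.cm.delta_delta m v)
      have e2 : clsN (m + 1) (X.cm.delta m v) (X.cm.delta_delta m v) = 0 :=
        (clsN_eq_zero _ _).2 ⟨v, rfl⟩
      exact e.trans ((congrArg (fun u => clsN (m + 1) γ h + u) e2).trans (add_zero _))
    · intro q s hs x
      obtain ⟨i, s', rfl⟩ := factor_cod s hs
      rw [X.map_comp]
      exact congrFun (hv i) (X.map s' x)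

/-- The product of the fundamental cochain of the sphere and of `γ`. -/
noncomputable def P (t m : ℕ) (Y : SS) (γ : Y.X m → k) : Coch ((Sph t).prod Y) :=
  pull (SS.fst (Sph t) Y) (single t (epsC t)) * pull (SS.snd (Sph t) Y) (single m γ)

theorem P_apply (t m : ℕ) (Y : SS) (γ : Y.X m → k) (x : ((Sph t).prod Y).X (m + t)) :
    P t m Y γ (m + t) x =
      epsC t ((Sph t).map (fr t (m + t)) x.1) * γ (Y.map (bk m (m + t)) x.2) := by
  unfold P
  rw [cmul_apply, Finset.sum_eq_single (t, m)]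
  · rw [pull_apply, pull_apply, single_self, single_self]
    rfl
  · rintro ⟨p, q⟩ hp hne
    simp only [Finset.HasAntidiagonal.mem_antidiagonal] at hp
    rw [pull_apply, pull_apply]
    by_cases h : p = t
    · have hq : q ≠ m := fun h2 => hne (by rw [h, h2])
      rw [single_ne hq, mul_zero]
    · rw [single_ne h, zero_mul]
  · intro h
    exact absurd (by simp [add_comm]) h

theorem P_mem (t m : ℕ) (Y : SS) (γ : Y.X m → k) :
    P t m Y γ ∈ CochD ((Sph t).prod Y) (m + t) := by
  rw [add_comm]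
  apply CochD_mul
  · intro l hl x
    rw [pull_apply, single_ne hl]
  · intro l hl x
    rw [pull_apply, single_ne hl]

/-- the components -/
noncomputable def f0 (t m : ℕ) (Y : SS) (γ : Y.X m → k) : ((Sph t).prod Y).X (m + t) → k :=
  P t m Y γ (m + t)

theorem P_eq (t m : ℕ) (Y : SS) (γ : Y.X m → k) : P t m Y γ = single (m + t) (f0 t m Y γ) :=
  eq_single (P_mem t m Y γ)

theorem dlt_single_zero {X : SS} (n : ℕ) (φ : X.X n → k) (h : X.cm.delta n φ = 0) :
    dlt (single n φ) = 0 := by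
  rw [dlt_single, h, single_zero]

theorem dlt_P {t m : ℕ} {Y : SS} {γ : Y.X m → k} (he : (Sph t).cm.delta t (epsC t) = 0)
    (h : Y.cm.delta m γ = 0) : dlt (P t m Y γ) = 0 := by
  unfold P
  rw [leibniz, dlt_pull, dlt_pull, dlt_single_zero _ _ he, dlt_single_zero _ _ h, map_zero,
    map_zero, zero_mul, mul_zero, add_zero]

theorem delta_f0 {t m : ℕ} {Y : SS} {γ : Y.X m → k} (he : (Sph t).cm.delta t (epsC t) = 0)
    (h : Y.cm.delta m γ = 0) : ((Sph t).prod Y).cm.delta (m + t) (f0 t m Y γ) = 0 := by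
  have h1 := dlt_P (Y := Y) he h
  rw [P_eq, dlt_single] at h1
  exact single_inj (h1.trans (single_zero _).symm)

theorem clsN_f0 {t m : ℕ} {Y : SS} {γ : Y.X m → k} (he : (Sph t).cm.delta t (epsC t) = 0)
    (h : Y.cm.delta m γ = 0) :
    clsN (m + t) (f0 t m Y γ) (delta_f0 he h) = mulE t Y (clsN m γ h) := by
  rw [mulE_apply]
  have e1 : eps t = clsN t (epsC t) he := dif_pos he
  rw [e1]
  unfold clsN
  rw [H.map_cls, H.map_cls, ← map_mul cls]
  congr 1
  apply Subtype.ext
  exact (P_eq t m Y γ).symm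

theorem f0_apply (t m : ℕ) (Y : SS) (γ : Y.X m → k) (x : ((Sph t).prod Y).X (m + t)) :
    f0 t m Y γ x = epsC t ((Sph t).map (fr t (m + t)) x.1) * γ (Y.map (bk m (m + t)) x.2) :=
  P_apply t m Y γ x

theorem epsC_map_zero {t q : ℕ} (s : Mor t q) (hs : ¬ Function.Injective s) (o : (Sph t).X q) :
    epsC t ((Sph t).map s o) = 0 := by
  cases o with
  | none => rfl
  | some a =>
    show epsC t ((PS.sphere t).map s a) = 0
    by_cases h : Function.Surjective (a.1.comp s)
    · exfalso
      apply hs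
      have h2 : Function.Injective (a.1.comp s) := Finite.injective_iff_surjective.2 h
      intro x y hxy
      apply h2
      show a.1 (s x) = a.1 (s y)
      rw [hxy]
    · rw [sphere_map_neg s a h]
      rfl

theorem norm_f0 {t m : ℕ} {Y : SS} {γ : Y.X m → k} (hγ : NormC m γ) :
    NormC (m + t) (f0 t m Y γ) := by
  intro q s hs x
  rw [f0_apply]
  show epsC t ((Sph t).map (fr t (m + t)) ((Sph t).map s x.1)) *
    γ (Y.map (bk m (m + t)) (Y.map s x.2)) = 0
  rw [← (Sph t).map_comp, ← Y.map_comp]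
  obtain ⟨i, hi, he⟩ := consec s hs
  by_cases hit : i < t
  · rw [epsC_map_zero, zero_mul]
    intro hinj
    have h1 : (s.comp (fr t (m + t))) ⟨i, by omega⟩ = (s.comp (fr t (m + t))) ⟨i + 1, by omega⟩ := by
      show s _ = s _
      have e1 : fr t (m + t) ⟨i, by omega⟩ = ⟨i, by omega⟩ := by
        apply Fin.ext
        rw [fr_val]
        show min i (m + t) = i
        omega
      have e2 : fr t (m + t) ⟨i + 1, by omega⟩ = ⟨i + 1, hi⟩ := by
        apply Fin.ext
        rw [fr_val]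
        show min (i + 1) (m + t) = i + 1
        omega
      rw [e1, e2]
      exact he
    have h2 := congrArg Fin.val (hinj h1)
    simp at h2
  · rw [hγ, mul_zero]
    intro hinj
    have h1 : (s.comp (bk m (m + t))) ⟨i - t, by omega⟩ =
        (s.comp (bk m (m + t))) ⟨i + 1 - t, by omega⟩ := by
      show s _ = s _
      have e1 : bk m (m + t) ⟨i - t, by omega⟩ = ⟨i, by omega⟩ := by
        apply Fin.ext
        rw [bk_val]
        show min (i - t + (m + t - m)) (m + t) = i
        omega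
      have e2 : bk m (m + t) ⟨i + 1 - t, by omega⟩ = ⟨i + 1, hi⟩ := by
        apply Fin.ext
        rw [bk_val]
        show min (i + 1 - t + (m + t - m)) (m + t) = i + 1
        omega
      rw [e1, e2]
      exact he
    have h2 := congrArg Fin.val (hinj h1)
    simp only at h2
    omega

theorem f0_none (t m : ℕ) (Y : SS) (γ : Y.X m → k) (y : Y.X (m + t)) :
    f0 t m Y γ (none, y) = 0 := by
  rw [f0_apply]
  show epsC t none * _ = 0
  exact zero_mul _

open Classical in
/-- The Moore cycle defined by a map on `S^t × Y`. -/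
noncomputable def zFun {t : ℕ} {Y : SS} {V : SV} (F : SS.Hom ((Sph t).prod Y) V.toSS) (q : ℕ) :
    ((SS.simplex t).prod Y).X q → V.X q :=
  fun x => if h : Function.Surjective x.1 then F.f q (some ⟨x.1, h⟩, x.2) else 0

theorem zFun_pos {t : ℕ} {Y : SS} {V : SV} (F : SS.Hom ((Sph t).prod Y) V.toSS) {q : ℕ}
    (a : Mor q t) (y : Y.X q) (h : Function.Surjective a) :
    zFun F q (a, y) = F.f q (some ⟨a, h⟩, y) := dif_pos h

theorem zFun_neg {t : ℕ} {Y : SS} {V : SV} (F : SS.Hom ((Sph t).prod Y) V.toSS) {q : ℕ}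
    (a : Mor q t) (y : Y.X q) (h : ¬ Function.Surjective a) : zFun F q (a, y) = 0 := dif_neg h

theorem not_surj_comp {t m n : ℕ} (a : Mor n t) (b : Mor m n) (h : ¬ Function.Surjective a) :
    ¬ Function.Surjective (a.comp b) := by
  intro hs
  apply h
  intro i
  obtain ⟨v, hv⟩ := hs i
  exact ⟨b v, hv⟩

theorem zFun_nat {t : ℕ} {Y : SS} {V : SV} (F : SS.Hom ((Sph t).prod Y) V.toSS)
    (hF : ∀ q y, F.f q (none, y) = 0) (m n : ℕ) (b : Mor m n)
    (x : ((SS.simplex t).prod Y).X n) :
    zFun F m (((SS.simplex t).prod Y).map b x) = V.map b (zFun F n x) := by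
  obtain ⟨a, y⟩ := x
  show zFun F m (a.comp b, Y.map b y) = V.map b (zFun F n (a, y))
  by_cases h : Function.Surjective a
  · rw [zFun_pos F a y h]
    have h1 := F.nat b (some ⟨a, h⟩, y)
    have h2 : V.map b (F.f n (some ⟨a, h⟩, y)) =
        F.f m ((PS.sphere t).map b ⟨a, h⟩, Y.map b y) := h1.symm
    rw [h2]
    by_cases h' : Function.Surjective (a.comp b)
    · rw [zFun_pos F _ _ h', sphere_map_pos b ⟨a, h⟩ h']
    · rw [zFun_neg F _ _ h', sphere_map_neg b ⟨a, h⟩ h', hF]
  · rw [zFun_neg F a y h, map_zero, zFun_neg F _ _ (not_surj_comp a b h)]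

/-- The Moore cycle defined by a map on `S^t × Y`. -/
noncomputable def zz {t : ℕ} {Y : SS} {V : SV} (F : SS.Hom ((Sph t).prod Y) V.toSS)
    (hF : ∀ q y, F.f q (none, y) = 0) : ZM (MapS Y V) t :=
  ⟨⟨zFun F, fun m n b x => zFun_nat F hF m n b x⟩, by
    intro r a ha
    apply HV.ext
    rintro n ⟨b, y⟩
    exact zFun_neg F _ _ (not_surj_comp a b ha)⟩

theorem sph_zz {t : ℕ} {Y : SS} {V : SV} (F : SS.Hom ((Sph t).prod Y) V.toSS)
    (hF : ∀ q y, F.f q (none, y) = 0) : HV.hom (sph (zz F hF)) = F := by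
  apply SS.Hom.ext'
  rintro n ⟨o, y⟩
  cases o with
  | none => exact (hF n y).symm
  | some a =>
    obtain ⟨a, ha⟩ := a
    exact zFun_pos F a y ha

theorem map_EMlift {X : SS} (n : ℕ) (f : X.X n → k) (hn' : NormC n f) (hc : X.cm.delta n f = 0) :
    H.map (EMlift n f hn' hc) (iota n) = clsN n f hc := by
  unfold iota
  rw [H.map_cls]
  unfold clsN
  congr 1
  apply Subtype.ext
  ext m x
  show iotaC n m ((EMlift n f hn' hc).f m x) = single n f m x
  unfold iotaC
  by_cases h : m = n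
  · subst h
    rw [single_self, single_self]
    show f (X.map OrderHom.id x) = f x
    rw [X.map_id]
  · rw [single_ne h, single_ne h]

end Bem

open Bem in
theorem BEM (hs : SKT_Stmt) (hN : NORM_Stmt) (he : EPS_Stmt) : BEM_Stmt := by
  intro t ht Y hY m c hc
  obtain ⟨γ, h, rfl, hγ⟩ := exists_norm hN hc
  have hF : ∀ q y, (EMlift (m + t) (f0 t m Y γ) (norm_f0 hγ) (delta_f0 (he t) h)).f q
      (none, y) = 0 := by
    intro q y
    apply Subtype.ext
    funext s
    exact f0_none t m Y γ (Y.map s y)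
  refine ⟨zz (EMlift (m + t) (f0 t m Y γ) (norm_f0 hγ) (delta_f0 (he t) h)) hF, ?_⟩
  show mulEinv t Y (H.map (HV.hom (sph _)) (iota (m + t))) = _
  rw [sph_zz, map_EMlift, clsN_f0 (he t) h]
  exact mulEinv_mulE (hs t ht Y hY).1 _

end Pool.Agent.SHL
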