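import Pool.Agent.SH.L.Kin

/-!
LINK: injectivity of `kap` modulo decomposables, the hypotheses of UALG, exactness on `ES`.
-/

namespace Pool.Agent.SHL

open Pool.Agent.SHS

variable {V W : SV} {d n : ℕ}

/-- values of `kap` on the generators -/
theorem Base.kap_gen (B : Base) (hV : V.LF) {j : ℕ} (X : SV.Hom V (EM j))
    {μ : Multiset ℕ → H (EM j).toSS} (hμ : MuFam j μ) (J : Multiset ℕ)
    (hJ : Multiset.card J = j) (h0 : 0 ∈ J) (b : XL V j) (hb : b.1 = H.map X.toSS (iota j)) :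
    ∃ f : ∀ d, SHU.Pl d →ₗ[ZMod 2] SHU.Pl d,
      f (j - 1) (SHU.Un (j - 1)) = msym (j - 1) (J.erase 0) ∧
      ∀ d (c : SHU.ES (XL V) 1 d), kap (H.map X.toSS (μ J)) d c = f d (c.1 j b) := by
  obtain ⟨J', rfl⟩ := Multiset.exists_cons_of_mem h0
  rw [Multiset.card_cons] at hJ
  subst hJ
  obtain ⟨f, hf, hfu⟩ := B.psi J'
  refine ⟨f, ?_, ?_⟩
  · rw [Multiset.erase_cons_head]
    exact hfu
  · intro d c
    exact (B.kap_psi hV b J' rfl hf hfu hμ X.toSS (fun q => map_zero (X.f q)) hb.symm).2 d c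

theorem Base.kap_inj (B : Base) (hP : POLY_Stmt) (hL : LBE_Stmt) (hSC : SC_Stmt) (hV : V.LF)
    (h0 : ∀ v : V.X 0, v = 0) {a : H V.toSS} (ha : a ∈ Hn V.toSS (n + 1))
    (h : ∀ (d : ℕ) (c : SHU.ES (XL V) 1 d), kap a d c = 0) : a ∈ Dec V.toSS := by
  classical
  obtain ⟨I, x, hx⟩ := hL V hV
  obtain ⟨μ, hμ⟩ : ∃ μ : ∀ n, Multiset ℕ → H (EM n).toSS, ∀ n, 1 ≤ n → MuFam n (μ n) := by
    have hmu : ∀ n, ∃ μ : Multiset ℕ → H (EM n).toSS, 1 ≤ n → MuFam n μ := by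
      intro n
      by_cases hn : 1 ≤ n
      · obtain ⟨μ, hμ⟩ := B.mu n hn
        exact ⟨μ, fun _ => hμ⟩
      · exact ⟨fun _ => 0, fun h => absurd h hn⟩
    choose μ hμ using hmu
    exact ⟨μ, hμ⟩
  have hPG := hP V hV h0 x hx μ hμ
  obtain ⟨c, hc, hd⟩ := poly_mod_dec hPG (show 1 ≤ n + 1 by omega) ha
  set g : (Σ j, I j × {J : Multiset ℕ // Multiset.card J = j ∧ 0 ∈ J}) → H V.toSS :=
    fun p => H.map (x p.1 p.2.1).toSS (μ p.1 p.2.2.1) with hg
  have hpos : ∀ p : (Σ j, I j × {J : Multiset ℕ // Multiset.card J = j ∧ 0 ∈ J}), 1 ≤ p.1 := by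
    rintro ⟨j, i, J, hJ, h0J⟩
    show 1 ≤ j
    rw [← hJ]
    exact Multiset.card_pos_iff_exists_mem.mpr ⟨0, h0J⟩
  have hgm : ∀ p ∈ c.support, g p ∈ Hn V.toSS (n + 1) := by
    intro p hp
    rw [← hc p hp]
    exact H.map_mem _ ((hμ p.1 (hpos p)).mem p.2.2.1 p.2.2.2.1)
  by_cases hc0 : c = 0
  · rw [hc0, Finsupp.sum_zero_index, add_zero] at hd
    exact hd
  exfalso
  obtain ⟨s0, hs0⟩ := Finsupp.support_nonempty_iff.mpr hc0
  -- the combination has zero `kap`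
  have hS : ∀ (d : ℕ) (c' : SHU.ES (XL V) 1 d), ∑ p ∈ c.support, c p • kap (g p) d c' = 0 := by
    intro d c'
    have hSm : (c.sum fun s r => r • g s) ∈ Hn V.toSS (n + 1) :=
      Submodule.sum_mem _ fun p hp => Submodule.smul_mem _ _ (hgm p hp)
    have h1 := B.kap_dec hV (Submodule.add_mem _ ha hSm) hd c'
    rw [B.kap_add hV ha hSm, h, zero_add, Finsupp.sum,
      B.kap_sum hV _ _ fun p hp => Submodule.smul_mem _ _ (hgm p hp)] at h1
    rw [← h1]
    apply Finset.sum_congr rfl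
    intro p hp
    rw [B.kap_smul hV (hgm p hp)]
  -- linear independence of the generators
  have hli : LinearIndependent k g := by
    have h1 := (MvPolynomial.linearIndependent_X
      (σ := (Σ j, I j × {J : Multiset ℕ // Multiset.card J = j ∧ 0 ∈ J})) (R := k))
    have h2 := h1.map' (MvPolynomial.aeval (R := k) g).toLinearMap
      (LinearMap.ker_eq_bot.mpr hPG.inj)
    have h3 : ((MvPolynomial.aeval (R := k) g).toLinearMap ∘ MvPolynomial.X) = g := by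
      funext p
      exact MvPolynomial.aeval_X g p
    rw [h3] at h2
    exact h2
  obtain ⟨j0, i0, J0, hJ0, h00⟩ := s0
  obtain ⟨m, rfl⟩ : ∃ m, j0 = m + 1 := ⟨j0 - 1, by
    have h5 : 1 ≤ j0 := hpos ⟨j0, i0, J0, hJ0, h00⟩
    omega⟩
  have hbm : ∀ (j : ℕ) (i : I j), H.map (x j i).toSS (iota j) ∈ LC V j :=
    fun j i => B.lcm.1 V (EM j) (x j i) j _ (B.lcm.2 j)
  have hli2 : LinearIndependent k (fun i : I (m + 1) => H.map (x (m + 1) i).toSS
      (iota (m + 1))) := by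
    have h1 := hli.comp (fun i : I (m + 1) => (⟨m + 1, i, Multiset.replicate (m + 1) 0,
      Multiset.card_replicate _ _, Multiset.mem_replicate.mpr ⟨by omega, rfl⟩⟩ :
      (Σ j, I j × {J : Multiset ℕ // Multiset.card J = j ∧ 0 ∈ J}))) (by
        intro i i' hii
        simp only [Sigma.mk.injEq, heq_eq_eq, Prod.mk.injEq, true_and, and_true] at hii
        exact hii)
    convert h1 using 1
    funext i
    show _ = H.map (x (m + 1) i).toSS (μ (m + 1) (Multiset.replicate (m + 1) 0))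
    rw [mu_iota (by omega) (hSC (m + 1) (by omega)) B.k1 (hμ (m + 1) (by omega))]
  obtain ⟨ξ', hξ1, hξ2⟩ := exists_dual hli2 i0
  set ξ : XL V (m + 1) →ₗ[ZMod 2] ZMod 2 := ξ'.comp (LC V (m + 1)).subtype with hξ
  have hJ0' : Multiset.card (J0.erase 0) = m := by
    rw [Multiset.card_erase_of_mem h00, hJ0]
    rfl
  obtain ⟨Φ, hΦ1, hΦ2⟩ := exists_dual (B.msi m) ⟨J0.erase 0, hJ0'⟩
  have hU : SHU.hcT 1 (m + 1) m (SHU.Un m) = SHU.Un m := by
    unfold SHU.hcT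
    rw [if_pos (by omega), Nat.add_sub_cancel]
    exact MvPolynomial.homogeneousComponent_eq_self (SHU.Un_hom m)
  have key := congrArg Φ (hS m (SHU.El 1 (m + 1) ξ m (SHU.Un m)))
  rw [map_zero, map_sum, Finset.sum_eq_single_of_mem _ hs0] at key
  · -- the value at `s0`
    obtain ⟨f, hfu, hfk⟩ := B.kap_gen hV (x (m + 1) i0) (hμ (m + 1) (by omega)) J0 hJ0 h00
      ⟨_, hbm (m + 1) i0⟩ rfl
    have h1 : kap (g ⟨m + 1, i0, J0, hJ0, h00⟩) m (SHU.El 1 (m + 1) ξ m (SHU.Un m)) =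
        msym m (J0.erase 0) := by
      have h2 := hfk m (SHU.El 1 (m + 1) ξ m (SHU.Un m))
      rw [SHU.El_same, hU] at h2
      have h3 : ξ ⟨_, hbm (m + 1) i0⟩ = 1 := hξ1
      rw [h3, one_smul] at h2
      exact h2.trans hfu
    rw [h1, map_smul, hΦ1, smul_eq_mul, mul_one] at key
    exact (Finsupp.mem_support_iff.mp hs0) key
  · rintro ⟨j, i, J, hJ, h0J⟩ _ hne
    rw [map_smul]
    have hj : 1 ≤ j := hpos ⟨j, i, J, hJ, h0J⟩
    obtain ⟨f, hfu, hfk⟩ := B.kap_gen hV (x j i) (hμ j hj) J hJ h0J ⟨_, hbm j i⟩ rfl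
    have h1 := hfk m (SHU.El 1 (m + 1) ξ m (SHU.Un m))
    have h2 : Φ (kap (g ⟨j, i, J, hJ, h0J⟩) m (SHU.El 1 (m + 1) ξ m (SHU.Un m))) = 0 := by
      show Φ (kap (H.map (x j i).toSS (μ j J)) m (SHU.El 1 (m + 1) ξ m (SHU.Un m))) = 0
      rw [h1]
      by_cases hjj : j = m + 1
      · subst hjj
        rw [SHU.El_same, hU]
        by_cases hii : i = i0
        · subst hii
          have h3 : ξ ⟨_, hbm (m + 1) i⟩ = 1 := hξ1
          have hfu' : f m (SHU.Un m) = msym m (J.erase 0) := hfu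
          rw [h3, one_smul, hfu']
          have hJm : Multiset.card (J.erase 0) = m := by
            rw [Multiset.card_erase_of_mem h0J, hJ]
            rfl
          apply hΦ2 ⟨J.erase 0, hJm⟩
          intro hE
          apply hne
          have h4 : J.erase 0 = J0.erase 0 := congrArg Subtype.val hE
          have h5 : J = J0 := by
            rw [← Multiset.cons_erase h0J, h4, Multiset.cons_erase h00]
          subst h5
          rfl
        · have h3 : ξ ⟨_, hbm (m + 1) i⟩ = 0 := hξ2 i hii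
          rw [h3, zero_smul, map_zero, map_zero]
      · rw [SHU.El_ne _ _ _ _ _ _ hjj, map_zero, map_zero]
    rw [h2, smul_zero]

/-- Exactness on the reduced part of `ES`. -/
theorem Base.exactES (B : Base) (hP : POLY_Stmt) (hL : LBE_Stmt) (hSC : SC_Stmt) (C : CSV)
    (hq : ∃ N, ∀ j ≥ N, C.QE j) : ∀ t, 1 ≤ t →
    (∀ z : SHU.ES (XL (C.V 0)) t 1, z.1 t = 0 → dlE C 0 t 1 z = 0 → z = 0) ∧
    ∀ s, ∀ z : SHU.ES (XL (C.V (s + 1))) t 1, z.1 t = 0 → dlE C (s + 1) t 1 z = 0 →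
      ∃ y : SHU.ES (XL (C.V s)) t 1, y.1 t = 0 ∧ dlE C s t 1 y = z := by
  have hfin : ∀ s j, Module.Finite (ZMod 2) (XL (C.V s) j) := fun s j => B.fin (C.lf s) j
  obtain ⟨N, hN⟩ := hq
  apply SHU.UALG (fun s j => XL (C.V s) j) (fun s t d => dlE C s t d)
  · exact fun s t ht => B.dlE_IsNT C s t ht
  · exact fun s t ht d c => B.dlE_dlE C s t ht d c
  · exact fun s t ht => B.dlE_Compat C s t ht
  · refine ⟨N, fun n hn p hp => ?_⟩
    obtain ⟨a, ha, hk⟩ := B.kap_surj (C.lf 0) hp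
    obtain ⟨b, hb, hd⟩ := (hN (n + 1) (by omega)).1 a ha
    refine ⟨kap b, B.kap_IsPN (C.lf 1) hb, fun d c => ?_⟩
    have h1 := B.kap_dec (C.lf 0) (Submodule.add_mem _ ha (C.dl_mem 0 hb)) hd c
    rw [B.kap_add (C.lf 0) ha (C.dl_mem 0 hb)] at h1
    rw [hk, B.kap_dlE C 0 hb]
    exact mod_two_eq h1
  · intro s
    refine ⟨N, fun n hn p hp hz => ?_⟩
    obtain ⟨a, ha, hk⟩ := B.kap_surj (C.lf (s + 1)) hp
    have hda : C.dl s a ∈ Dec (C.V s).toSS := by
      apply B.kap_inj hP hL hSC (C.lf s) (C.z0 s) (C.dl_mem s ha)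
      intro d c
      rw [← B.kap_dlE C s ha, ← hk]
      exact hz d c
    obtain ⟨b, hb, hd⟩ := (hN (n + 1) (by omega)).2 s a ha hda
    refine ⟨kap b, B.kap_IsPN (C.lf (s + 2)) hb, fun d c => ?_⟩
    have h1 := B.kap_dec (C.lf (s + 1)) (Submodule.add_mem _ ha (C.dl_mem (s + 1) hb)) hd c
    rw [B.kap_add (C.lf (s + 1)) ha (C.dl_mem (s + 1) hb)] at h1
    rw [hk, B.kap_dlE C (s + 1) hb]
    exact mod_two_eq h1

end Pool.Agent.SHL
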