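import Pool.Agent.SH.L.Defs
import Pool.Agent.SH.S.Hty

/-! Moore cycles and boundaries: basic lemmas. -/

namespace Pool.Agent.SHL

open Pool.Agent.SHS Pool.Agent.SHS.Hty

theorem not_surj_cof {r t i : ℕ} (hi : i ≤ t + 1) (a : Mor r t) :
    ¬ Function.Surjective ((cofN i t).comp a) := by
  intro h
  obtain ⟨v, hv⟩ := h ⟨i, by omega⟩
  have := congrArg Fin.val hv
  rw [comp_val, cofN_val] at this
  have h2 := (a v).2
  simp only at this
  split_ifs at this <;> omega

/-- a non surjective monotone map factors through a coface -/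
theorem factor_cof {r t : ℕ} (a : Mor r (t + 1)) (ha : ¬ Function.Surjective a) :
    ∃ (i : ℕ) (b : Mor r t), i ≤ t + 1 ∧ a = (cofN i t).comp b := by
  have h : ∃ i : Fin (t + 2), ∀ v, a v ≠ i := by
    by_contra hc
    push Not at hc
    exact ha hc
  obtain ⟨i, hi⟩ := h
  have hi2 := i.2
  refine ⟨i.1, ⟨fun v => ⟨if (a v).1 < i.1 then (a v).1 else (a v).1 - 1, ?_⟩, ?_⟩, by omega, ?_⟩
  · have := (a v).2
    have h2 : (a v).1 ≠ i.1 := fun hh => hi v (Fin.ext hh)
    split_ifs <;> omega
  · intro v w hvw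
    have h1 : (a v).1 ≤ (a w).1 := a.monotone hvw
    show (if (a v).1 < i.1 then (a v).1 else (a v).1 - 1)
      ≤ (if (a w).1 < i.1 then (a w).1 else (a w).1 - 1)
    split_ifs <;> omega
  · apply mor_ext
    intro v
    have h2 : (a v).1 ≠ i.1 := fun hh => hi v (Fin.ext hh)
    rw [comp_val, cofN_val]
    show _ = if (if (a v).1 < i.1 then (a v).1 else (a v).1 - 1) < i.1 then _ else _
    show _ = if (if (a v).1 < i.1 then (a v).1 else (a v).1 - 1) < i.1
      then (if (a v).1 < i.1 then (a v).1 else (a v).1 - 1)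
      else (if (a v).1 < i.1 then (a v).1 else (a v).1 - 1) + 1
    split_ifs <;> omega

/-- criterion for Moore cycles -/
theorem mem_ZM_iff {U : SV} {t : ℕ} (z : U.X (t + 1)) :
    z ∈ ZM U (t + 1) ↔ ∀ i ≤ t + 1, U.map (cofN i t) z = 0 := by
  constructor
  · intro h i hi
    apply h
    have := not_surj_cof hi (OrderHom.id : Mor t t)
    exact this
  · intro h r a ha
    obtain ⟨i, b, hi, rfl⟩ := factor_cof a ha
    rw [U.map_comp, h i hi, map_zero]

theorem cod_cof_nsurj {t i j : ℕ} (hj : j ≤ t) (hi : i ≤ t + 1) (h1 : i ≠ j) (h2 : i ≠ j + 1) :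
    ¬ Function.Surjective ((codN j t).comp (cofN i t)) := by
  intro h
  obtain ⟨v, hv⟩ := h ⟨if i ≤ j then i else i - 1, by split_ifs <;> omega⟩
  have := congrArg Fin.val hv
  rw [comp_val, codN_val, cofN_val] at this
  have h3 := v.2
  simp only at this
  split_ifs at this <;> omega

theorem face_deg {U : SV} {t i j : ℕ} (hj : j ≤ t) (hi : i ≤ t + 1) {z : U.X t}
    (hz : z ∈ ZM U t) :
    U.map (cofN i t) (U.map (codN j t) z) = if i = j ∨ i = j + 1 then z else 0 := by
  rw [← U.map_comp]
  split_ifs with h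
  · rcases h with h | h
    · subst h
      rw [cod_cof_self, U.map_id]
    · subst h
      rw [cod_cof_succ, U.map_id]
  · exact hz _ _ (cod_cof_nsurj hj hi (fun h' => h (Or.inl h')) (fun h' => h (Or.inr h')))

theorem mem_BM_iff {U : SV} {t : ℕ} (z : U.X t) : z ∈ BM U t ↔
    ∃ w : U.X (t + 1), U.map (cofN 0 t) w = z ∧ ∀ i, 0 < i → i ≤ t + 1 → U.map (cofN i t) w = 0 := by
  constructor
  · rintro ⟨w, h1, h2⟩
    refine ⟨w, ?_, ?_⟩
    · rw [← h1, cof_eq_cofN]; rfl
    · intro i hi hi'
      have := h2 ⟨i, by omega⟩ (fun h => by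
        have := congrArg Fin.val h
        simp only [Fin.val_zero] at this
        omega)
      rwa [cof_eq_cofN] at this
  · rintro ⟨w, h1, h2⟩
    refine ⟨w, ?_, ?_⟩
    · rw [← h1, cof_eq_cofN]; rfl
    · intro i hi
      rw [cof_eq_cofN]
      apply h2
      · rcases Nat.eq_zero_or_pos i.1 with h | h
        · exact absurd (Fin.ext h) hi
        · exact h
      · omega

/-- the sum of the faces of a simplex, all of whose faces are Moore cycles, is a Moore boundary -/
theorem BM_sum {U : SV} {t : ℕ} (w : U.X (t + 1))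
    (hw : ∀ i ≤ t + 1, U.map (cofN i t) w ∈ ZM U t) :
    ∑ i ∈ Finset.range (t + 2), U.map (cofN i t) w ∈ BM U t := by
  have key : ∀ m ≤ t + 1, ∃ w' : U.X (t + 1),
      (∀ i, t + 1 - m < i → i ≤ t + 1 → U.map (cofN i t) w' = 0) ∧
      (∀ i, i < t + 1 - m → U.map (cofN i t) w' = U.map (cofN i t) w) ∧
      U.map (cofN (t + 1 - m) t) w' =
        ∑ i ∈ Finset.Ico (t + 1 - m) (t + 2), U.map (cofN i t) w := by
    intro m
    induction m with
    | zero =>
      intro _
      refine ⟨w, ?_, ?_, ?_⟩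
      · intro i h1 h2; omega
      · intro i _; rfl
      · rw [Nat.sub_zero, Finset.sum_Ico_succ_top (by omega), Finset.Ico_self, Finset.sum_empty,
          zero_add]
    | succ m ih =>
      intro hm
      obtain ⟨w', h1, h2, h3⟩ := ih (by omega)
      set j := t + 1 - (m + 1) with hj
      have hj1 : t + 1 - m = j + 1 := by omega
      rw [hj1] at h1 h2 h3
      set b := ∑ i ∈ Finset.Ico (j + 1) (t + 2), U.map (cofN i t) w with hb
      have hbz : b ∈ ZM U t := by
        rw [hb]
        apply Submodule.sum_mem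
        intro i hi
        rw [Finset.mem_Ico] at hi
        exact hw i (by omega)
      refine ⟨w' + U.map (codN j t) b, ?_, ?_, ?_⟩
      · intro i hi hi'
        rw [map_add, face_deg (by omega) hi' hbz]
        by_cases hij : i = j + 1
        · subst hij
          rw [h3, if_pos (Or.inr rfl), mod_two]
        · rw [h1 i (by omega) hi', if_neg (by omega), add_zero]
      · intro i hi
        rw [map_add, face_deg (by omega) (by omega) hbz, if_neg (by omega), add_zero,
          h2 i (by omega)]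
      · rw [map_add, face_deg (by omega) (by omega) hbz, if_pos (Or.inl rfl), h2 j (by omega), hb,
          Finset.sum_eq_sum_Ico_succ_bot (show j < t + 2 by omega)]
  obtain ⟨w', h1, h2, h3⟩ := key (t + 1) (le_refl _)
  rw [Nat.sub_self] at h1 h2 h3
  rw [mem_BM_iff]
  refine ⟨w', ?_, h1⟩
  rw [h3, Finset.range_eq_Ico]

/-- pointed maps preserve Moore cycles -/
theorem ZM_app {U W : SV} (g : SS.Hom U.toSS W.toSS) (hg : ∀ n, g.f n 0 = 0) {t : ℕ} {z : U.X t}
    (hz : z ∈ ZM U t) : g.f t z ∈ ZM W t := by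
  intro r a ha
  have h1 : g.f r (U.map a z) = W.map a (g.f t z) := g.nat a z
  rw [← h1, hz r a ha, hg]

/-- pointed maps preserve Moore boundaries -/
theorem BM_app {U W : SV} (g : SS.Hom U.toSS W.toSS) (hg : ∀ n, g.f n 0 = 0) {t : ℕ} {z : U.X t}
    (hz : z ∈ BM U t) : g.f t z ∈ BM W t := by
  rw [mem_BM_iff] at hz ⊢
  obtain ⟨w, h1, h2⟩ := hz
  refine ⟨g.f (t + 1) w, ?_, ?_⟩
  · have h3 : g.f t (U.map (cofN 0 t) w) = W.map (cofN 0 t) (g.f (t + 1) w) := g.nat _ w
    rw [← h3, h1]
  · intro i hi hi'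
    have h3 : g.f t (U.map (cofN i t) w) = W.map (cofN i t) (g.f (t + 1) w) := g.nat _ w
    rw [← h3, h2 i hi hi', hg]

/-- additivity of pointed maps up to Moore boundaries, in positive dimensions -/
theorem app_add {U W : SV} (g : SS.Hom U.toSS W.toSS) (hg : ∀ n, g.f n 0 = 0) {t : ℕ}
    {z z' : U.X (t + 1)} (hz : z ∈ ZM U (t + 1)) (hz' : z' ∈ ZM U (t + 1)) :
    g.f (t + 1) (z + z') + g.f (t + 1) z + g.f (t + 1) z' ∈ BM W (t + 1) := by
  set w := U.map (codN 0 (t + 1)) z + U.map (codN 1 (t + 1)) z' with hw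
  have hf : ∀ i ≤ t + 2, U.map (cofN i (t + 1)) w =
      (if i = 0 ∨ i = 0 + 1 then z else 0) + (if i = 1 ∨ i = 1 + 1 then z' else 0) := by
    intro i hi
    rw [hw, map_add, face_deg (by omega) hi hz, face_deg (by omega) hi hz']
  have hgf : ∀ i ≤ t + 2, W.map (cofN i (t + 1)) (g.f (t + 2) w) =
      g.f (t + 1) ((if i = 0 ∨ i = 0 + 1 then z else 0) + (if i = 1 ∨ i = 1 + 1 then z' else 0)) := by
    intro i hi
    have h3 : g.f (t + 1) (U.map (cofN i (t + 1)) w) = W.map (cofN i (t + 1)) (g.f (t + 2) w) :=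
      g.nat _ w
    rw [← h3, hf i hi]
  have h1 := BM_sum (U := W) (g.f (t + 2) w) (by
    intro i hi
    rw [hgf i hi]
    apply ZM_app g hg
    apply Submodule.add_mem
    · split_ifs
      · exact hz
      · exact Submodule.zero_mem _
    · split_ifs
      · exact hz'
      · exact Submodule.zero_mem _)
  rw [Finset.sum_congr rfl (fun i hi => hgf i (by rw [Finset.mem_range] at hi; omega))] at h1
  rw [Finset.sum_range_succ', Finset.sum_range_succ', Finset.sum_range_succ'] at h1
  rw [Finset.sum_eq_zero] at h1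
  · simp only [zero_add, if_true, true_or, or_true, one_ne_zero,
      or_false, zero_ne_one] at h1
    norm_num at h1
    convert h1 using 1
    abel
  · intro i _
    rw [if_neg (by omega), if_neg (by omega), add_zero, hg]

/-! ### Linear homotopies -/

/-- `f` and `g` are linearly homotopic. -/
def LHty {V W : SV} (f g : SV.Hom V W) : Prop :=
  ∃ Ht : ∀ n : ℕ, Mor n 1 → V.X n →ₗ[k] W.X n,
    (∀ (m n : ℕ) (a : Mor m n) (τ : Mor n 1) (x : V.X n),
      Ht m (τ.comp a) (V.map a x) = W.map a (Ht n τ x)) ∧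
    (∀ n x, Ht n (cst 0) x = f.f n x) ∧ (∀ n x, Ht n (cst 1) x = g.f n x)

theorem LHty.BM {V W : SV} {f g : SV.Hom V W} (h : LHty f g) {t : ℕ} {z : V.X t}
    (hz : z ∈ ZM V t) : f.f t z + g.f t z ∈ BM W t := by
  obtain ⟨Ht, hn, h0, h1⟩ := h
  have hZ : ∀ τ : Mor t 1, Ht t τ z ∈ ZM W t := by
    intro τ r a ha
    rw [← hn, hz r a ha, map_zero]
  have step : ∀ i ≤ t, Ht t (tN i t) z + Ht t (tN (i + 1) t) z ∈ SHL.BM W t := by
    intro i hi
    set w := Ht (t + 1) (tN (i + 1) (t + 1)) (V.map (codN i t) z) with hw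
    have hf : ∀ j ≤ t + 1, W.map (cofN j t) w =
        if j = i ∨ j = i + 1 then Ht t (tN j t) z else 0 := by
      intro j hj
      rw [hw, ← hn, face_deg hi hj hz]
      split_ifs with hij
      · rcases hij with rfl | rfl
        · rw [t_cof_le (le_refl _)]
        · rw [t_cof_gt (Nat.lt_succ_self _)]
      · rw [map_zero]
    have h2 := BM_sum (U := W) w (by
      intro j hj
      rw [hf j hj]
      split_ifs
      · exact hZ _
      · exact Submodule.zero_mem _)
    rw [Finset.sum_congr rfl (fun j hj => hf j (by rw [Finset.mem_range] at hj; omega))] at h2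
    rw [← Finset.sum_filter] at h2
    have h3 : (Finset.range (t + 2)).filter (fun j => j = i ∨ j = i + 1) = {i, i + 1} := by
      ext j
      simp only [Finset.mem_filter, Finset.mem_range, Finset.mem_insert, Finset.mem_singleton]
      omega
    rw [h3, Finset.sum_pair (by omega)] at h2
    exact h2
  have tel : ∀ m ≤ t + 1, Ht t (tN 0 t) z + Ht t (tN m t) z ∈ SHL.BM W t := by
    intro m
    induction m with
    | zero =>
      intro _
      rw [mod_two]
      exact Submodule.zero_mem _
    | succ m ih =>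
      intro hm
      have h3 := Submodule.add_mem _ (ih (by omega)) (step m (by omega))
      have h4 : Ht t (tN 0 t) z + Ht t (tN m t) z + (Ht t (tN m t) z + Ht t (tN (m + 1) t) z)
          = Ht t (tN 0 t) z + Ht t (tN (m + 1) t) z + (Ht t (tN m t) z + Ht t (tN m t) z) := by
        abel
      rwa [h4, mod_two, add_zero] at h3
  have h5 := tel (t + 1) (le_refl _)
  rw [tN_zero, tN_last, h0, h1, add_comm] at h5
  exact h5

/-! ### Maps of mapping spaces -/

/-- composition with a simplicial map as a map of mapping spaces -/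
def mapApp (Y : SS) {V W : SV} (g : SS.Hom V.toSS W.toSS) :
    SS.Hom (MapS Y V).toSS (MapS Y W).toSS where
  f _ z := HV.app g z
  nat _ _ := rfl

/-- composition with a linear simplicial map as a linear map of mapping spaces -/
def mapPost (Y : SS) {V W : SV} (L : SV.Hom V W) : SV.Hom (MapS Y V) (MapS Y W) where
  f _ := HV.post L
  nat _ _ := rfl

theorem mapApp_zero (Y : SS) {V W : SV} (g : SS.Hom V.toSS W.toSS) (hg : ∀ n, g.f n 0 = 0)
    (n : ℕ) : (mapApp Y g).f n 0 = 0 := by
  apply HV.ext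
  intro r x
  exact hg r

theorem LHty.map (Y : SS) {V W : SV} {f g : SV.Hom V W} (h : LHty f g) :
    LHty (mapPost Y f) (mapPost Y g) := by
  obtain ⟨Ht, hn, h0, h1⟩ := h
  refine ⟨fun n τ =>
    { toFun := fun F => ⟨fun r x => Ht r (τ.comp x.1) (F.1 r x), ?_⟩
      map_add' := ?_
      map_smul' := ?_ }, ?_, ?_, ?_⟩
  · intro m n' a x
    show Ht m (τ.comp (x.1.comp a)) (F.1 m (((SS.simplex n).prod Y).map a x)) = _
    rw [HV.nat]
    exact hn _ _ a (τ.comp x.1) (F.1 n' x)
  · intro F G
    apply HV.ext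
    intro r x
    exact map_add (Ht r (τ.comp x.1)) _ _
  · intro c F
    apply HV.ext
    intro r x
    exact map_smul (Ht r (τ.comp x.1)) _ _
  · intro m n a τ F
    rfl
  · intro n F
    apply HV.ext
    intro r x
    exact h0 r _
  · intro n F
    apply HV.ext
    intro r x
    exact h1 r _

end Pool.Agent.SHL
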