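import Pool.Agent.SH.L.Ph
import Pool.Agent.SH.L.Moore
import Pool.Agent.SH.UA10

/-!
LINK: statements.
-/

namespace Pool.Agent.SHL

open Pool.Agent.SHS

/-! ### Spheres -/

/-- Levels of spheres are finite; `epsC` is a cocycle; for `t = 1` its class is `ee`. -/
def SPHF_Stmt : Prop := ∀ t : ℕ, (Sph t).LF
def EPS_Stmt : Prop := ∀ t : ℕ, (Sph t).cm.delta t (epsC t) = 0
def EPS1_Stmt : Prop := eps 1 = ee
/-- Homogeneous basis of the cohomology of the sphere. -/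
def EPSHB_Stmt : Prop := ∀ t : ℕ, 1 ≤ t →
  HB (Sph t) (fun b : Bool => if b then t else 0) (fun b => if b then eps t else 1)
/-- Kuenneth for `S^t × Y`. -/
def SKT_Stmt : Prop := ∀ t : ℕ, 1 ≤ t → ∀ Y : SS, Y.LF →
  Function.Injective (mulE t Y) ∧
  (∀ x : H ((Sph t).prod Y), H.map (bpt t Y) x = 0 → ∃ b, mulE t Y b = x) ∧
  (∀ (n : ℕ) (b : H Y), mulE t Y b ∈ Hn ((Sph t).prod Y) (n + t) → b ∈ Hn Y n) ∧
  (∀ (n : ℕ) (b : H Y), n < t → mulE t Y b ∈ Hn ((Sph t).prod Y) n → b = 0)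
/-- Finiteness of BB, powers, products. -/
def BBF_Stmt : Prop := ∀ d : ℕ, (BB.pow d).LF ∧ (S1.prod (BB.pow d)).LF

/-! ### Reduced classes and linear classes -/

def RCH_Stmt : Prop := ∀ V : SV, (∀ j, 1 ≤ j → Hn V.toSS j ≤ RC V) ∧ (∀ j, LC V j ≤ RC V) ∧
  (∀ j, LC V j ≤ Hn V.toSS j) ∧ (V.LF → ∀ j, Finite (LC V j))
/-- The zero map kills reduced classes. -/
def ZM0_Stmt : Prop := ∀ (Y : SS) (V : SV), ∀ a ∈ RC V, H.map (zmap Y V) a = 0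
/-- Linear classes are preserved by linear maps; `iota` is a linear class. -/
def LCM_Stmt : Prop := (∀ (V W : SV) (L : SV.Hom V W) (j : ℕ), ∀ a ∈ LC W j,
  H.map L.toSS a ∈ LC V j) ∧ ∀ n : ℕ, iota n ∈ LC (EM n) n
/-- Every class is the pull back of `iota` along a pointed map. -/
def EMR_Stmt : Prop := ∀ (V : SV) (n : ℕ), 1 ≤ n → ∀ a ∈ Hn V.toSS n,
  ∃ A : SS.Hom V.toSS (EM n).toSS, (∀ q, A.f q 0 = 0) ∧ H.map A (iota n) = a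

/-! ### The slant product -/

/-- Characterisation and degree. -/
def PH1_Stmt : Prop := ∀ t : ℕ, 1 ≤ t → ∀ Y : SS, Y.LF → ∀ (V : SV) (z : ZM (MapS Y V) t),
  (∀ a ∈ RC V, mulE t Y (Ph z a) = H.map (HV.hom (sph z)) a) ∧
  (∀ j, ∀ a ∈ Hn V.toSS j, a ∈ RC V → (j < t → Ph z a = 0) ∧ (t ≤ j → Ph z a ∈ Hn Y (j - t)))
/-- Naturality in `Y`. -/
def PHY_Stmt : Prop := ∀ t : ℕ, 1 ≤ t → ∀ Y Y' : SS, Y.LF → Y'.LF → ∀ (φ : SS.Hom Y' Y) (V : SV)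
  (z : ZM (MapS Y V) t), ∀ a ∈ RC V, Ph (preZ φ z) a = H.map φ (Ph z a)
/-- Naturality in `V`. -/
def PHV_Stmt : Prop := ∀ (t : ℕ) (Y : SS) (V W : SV) (g : SS.Hom V.toSS W.toSS)
  (hg : ∀ n, g.f n 0 = 0) (z : ZM (MapS Y V) t) (a : H W.toSS),
  Ph (appZ g hg z) a = Ph z (H.map g a)
/-- Additivity for linear classes. -/
def PHL_Stmt : Prop := ∀ (t : ℕ) (Y : SS) (V : SV) (z z' : ZM (MapS Y V) t) (j : ℕ),
  ∀ a ∈ LC V j, Ph (z + z') a = Ph z a + Ph z' a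
/-- Boundaries. -/
def PHB_Stmt : Prop := ∀ t : ℕ, 1 ≤ t → ∀ (Y : SS) (V : SV) (z : ZM (MapS Y V) t),
  z.1 ∈ BM (MapS Y V) t → ∀ a ∈ RC V, Ph z a = 0
/-- Additivity for all reduced classes. -/
def PHA_Stmt : Prop := ∀ t : ℕ, 1 ≤ t → ∀ Y : SS, Y.LF → ∀ (V : SV) (z z' : ZM (MapS Y V) t)
  (j : ℕ), 1 ≤ j → ∀ a ∈ Hn V.toSS j, Ph (z + z') a = Ph z a + Ph z' a
/-- Decomposables. -/
def PHD_Stmt : Prop := ∀ Y : SS, Y.LF → ∀ (V : SV) (z : ZM (MapS Y V) 1),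
  ∀ a ∈ Dec V.toSS, Ph z a = 0
/-- Comparison of `t + 1` and `t`. -/
def PHH_Stmt : Prop := ∀ t : ℕ, 1 ≤ t → ∀ Y : SS, Y.LF → ∀ (V : SV) (z : ZM (MapS Y V) (t + 1)),
  ∀ a ∈ RC V, Ph (hh z) a = mulE 1 Y (Ph z a)

/-! ### Completeness and realisation -/

def CEM_Stmt : Prop := ∀ t : ℕ, 1 ≤ t → ∀ Y : SS, Y.LF → ∀ (n : ℕ) (z : ZM (MapS Y (EM n)) t),
  Ph z (iota n) = 0 → z.1 ∈ BM (MapS Y (EM n)) t
def BEM_Stmt : Prop := ∀ t : ℕ, 1 ≤ t → ∀ Y : SS, Y.LF → ∀ (m : ℕ), ∀ c ∈ Hn Y m,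
  ∃ z : ZM (MapS Y (EM (m + t))) t, Ph z (iota (m + t)) = c
def CV_Stmt : Prop := ∀ V : SV, V.LF → ∀ t : ℕ, 1 ≤ t → ∀ Y : SS, Y.LF →
  ∀ z : ZM (MapS Y V) t, (∀ j, ∀ a ∈ LC V j, Ph z a = 0) → z.1 ∈ BM (MapS Y V) t
def BV_Stmt : Prop := ∀ V : SV, V.LF → ∀ t : ℕ, 1 ≤ t → ∀ Y : SS, Y.LF →
  ∀ c : ∀ j, LC V j →ₗ[k] H Y, (∀ j a, t ≤ j → c j a ∈ Hn Y (j - t)) →
  (∀ j a, j < t → c j a = 0) →
  ∃ z : ZM (MapS Y V) t, (∀ (j : ℕ) (a : LC V j), Ph z a.1 = c j a) ∧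
    ∀ N : ℕ, (∀ j ≤ N, c j = 0) → ∀ n ≤ N, ∀ x, z.1.1 n x = 0

/-! ### Polynomials -/

/-- `evB` and linear substitutions. -/
def E1_Stmt : Prop := ∀ (d' d : ℕ) (L : Fin d' → Fin d → ZMod 2) (p : MvPolynomial (Fin d') k),
  H.map (BL L) (evB d' p) = evB d (SHU.lin L p)
/-- Restriction of the first variable to the circle. -/
def E2_Stmt : Prop := ∀ (d : ℕ) (p : MvPolynomial (Fin (d + 1)) k),
  H.map (qB d) (evB (d + 1) p) = mulE 1 (BB.pow d) (evB d (SHU.co1 d p)) +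
    H.map (SS.snd S1 (BB.pow d)) (evB d (SHU.lin (SHU.Lzero d) p))
/-- The first coefficient of the symmetric sums. -/
def MSC_Stmt : Prop := ∀ (m : ℕ) (J : Multiset ℕ), Multiset.card J = m →
  SHU.co1 m (msym (m + 1) (0 ::ₘ J)) = msym m J ∧
  ∀ J' : Multiset ℕ, SHU.lin (SHU.Lzero m) (msym (m + 1) J') = 0
/-- Natural operations with given value on the universal product. -/
def PSI_Stmt : Prop := ∀ J : Multiset ℕ, ∃ f : ∀ d, SHU.Pl d →ₗ[ZMod 2] SHU.Pl d,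
  SHU.IsNP (Multiset.card J) (wgt J) f ∧
    f (Multiset.card J) (SHU.Un (Multiset.card J)) = msym (Multiset.card J) J
def NPJ_Stmt : Prop := ∀ (m n : ℕ) (f : ∀ d, SHU.Pl d →ₗ[ZMod 2] SHU.Pl d), SHU.IsNP m n f →
  f m (SHU.Un m) ∈ Submodule.span (ZMod 2) {p | ∃ J : Multiset ℕ, Multiset.card J = m ∧
    wgt J = n ∧ p = msym m J}

/-- Value of the slant product on the classes `μ (0 ::ₘ J)`. -/
def VAL_Stmt : Prop := ∀ (m : ℕ) (μ : Multiset ℕ → H (EM (m + 1)).toSS), MuFam (m + 1) μ →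
  ∀ J : Multiset ℕ, Multiset.card J = m → ∀ f : ∀ d, SHU.Pl d →ₗ[ZMod 2] SHU.Pl d,
  SHU.IsNP m (wgt J) f → f m (SHU.Un m) = msym m J →
  ∀ (d : ℕ) (z : ZM (MapS (BB.pow d) (EM (m + 1))) 1) (y : MvPolynomial (Fin d) k),
    y.IsHomogeneous m → Ph z (iota (m + 1)) = evB d y →
    Ph z (μ (0 ::ₘ J)) = evB d (f d y)

end Pool.Agent.SHL
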