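import Mathlib
import Pool.Agent.SH.L.Stmts

/-!
LINK: realisation of linear maps on the linear classes by Moore cycles.
-/

namespace Pool.Agent.SHL

open Pool.Agent.SHS

namespace Bv

/-- The zero map kills the fundamental class. -/
theorem Ph_zero_iota {Y : SS} {t : ℕ} (j : ℕ) : Ph (0 : ZM (MapS Y (EM j)) t) (iota j) = 0 := by
  have h1 : H.map (HV.hom (sph (0 : ZM (MapS Y (EM j)) t))) (iota j) = 0 := by
    rw [map_zero]
    unfold iota
    rw [H.map_cls]
    have h2 : Cocyc.pull (HV.hom (0 : HV ((Sph t).prod Y) (EM j)))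
        ⟨iotaC j, dlt_iotaC j⟩ = 0 := by
      apply Subtype.ext
      ext m x
      show iotaC j m 0 = 0
      unfold iotaC
      by_cases h : m = j
      · subst h
        rw [Coch.single_self]
        rfl
      · rw [Coch.single_ne h]
    rw [h2, map_zero]
  show mulEinv t Y (H.map (HV.hom (sph (0 : ZM (MapS Y (EM j)) t))) (iota j)) = 0
  rw [h1, map_zero]

/-- Levels of `EM j` below `j` vanish. -/
theorem EM_low {j n : ℕ} (h : n < j) (v : (EM j).X n) : v = 0 := by
  apply Subtype.ext
  funext s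
  refine v.2.1 s fun hs => ?_
  have h1 := Fintype.card_le_of_injective _ hs
  rw [Fintype.card_fin, Fintype.card_fin] at h1
  omega

/-- A family of Moore cycles gives a Moore cycle of the product. -/
def piZ {Y : SS} {A : Type} {W : A → SV} {t : ℕ} (z : ∀ a, ZM (MapS Y (W a)) t) :
    ZM (MapS Y (SV.pi W)) t :=
  ⟨⟨fun n x a => (z a).1.1 n x, fun m n b x => by
      funext a
      exact HV.nat (z a).1 b x⟩, by
    intro r b hb
    apply HV.ext
    intro n x
    funext a
    have h := (z a).2 r b hb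
    exact congrArg (fun F : HV ((SS.simplex r).prod Y) (W a) => F.1 n x) h⟩

end Bv

open Bv in
theorem BV (hL : LBE_Stmt) (hS : SPLIT_Stmt) (hA : LCS_Stmt) (hC : LCM_Stmt)
    (hV : PHV_Stmt) (hE : BEM_Stmt) : BV_Stmt := by
  classical
  intro V hVf t ht Y hY c hc1 hc2
  obtain ⟨I, x, hx⟩ := hL V hVf
  obtain ⟨Γ, hΓ, -⟩ := hS V hVf x hx
  have hmem : ∀ (j : ℕ) (i : I j), H.map (x j i).toSS (iota j) ∈ LC V j :=
    fun j i => hC.1 V (EM j) (x j i) j (iota j) (hC.2 j)
  -- the components
  have hz : ∀ p : (Σ j, I j), ∃ z : ZM (MapS Y (EM p.1)) t,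
      Ph z (iota p.1) = c p.1 ⟨H.map (x p.1 p.2).toSS (iota p.1), hmem p.1 p.2⟩ ∧
      (c p.1 ⟨H.map (x p.1 p.2).toSS (iota p.1), hmem p.1 p.2⟩ = 0 → z = 0) := by
    rintro ⟨j, i⟩
    by_cases h0 : c j ⟨H.map (x j i).toSS (iota j), hmem j i⟩ = 0
    · refine ⟨0, ?_, fun _ => rfl⟩
      show Ph (0 : ZM (MapS Y (EM j)) t) (iota j) = c j ⟨H.map (x j i).toSS (iota j), hmem j i⟩
      rw [h0]
      exact Ph_zero_iota j
    · have htj : t ≤ j := by
        by_contra h
        exact h0 (hc2 j _ (not_le.1 h))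
      have h1 := hc1 j ⟨H.map (x j i).toSS (iota j), hmem j i⟩ htj
      have h3 : ∃ z : ZM (MapS Y (EM j)) t,
          Ph z (iota j) = c j ⟨H.map (x j i).toSS (iota j), hmem j i⟩ := by
        generalize c j ⟨H.map (x j i).toSS (iota j), hmem j i⟩ = y at h1
        obtain ⟨m, rfl⟩ := Nat.exists_eq_add_of_le' htj
        rw [Nat.add_sub_cancel] at h1
        exact hE t ht Y hY m y h1
      obtain ⟨z, hz⟩ := h3
      exact ⟨z, hz, fun h => absurd h h0⟩
  choose zc hzc hz0 using hz
  refine ⟨postZ Γ (piZ zc), ?_, ?_⟩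
  · -- values on the basis
    have hval : ∀ (j : ℕ) (i : I j), Ph (postZ Γ (piZ zc)) (H.map (x j i).toSS (iota j)) =
        c j ⟨H.map (x j i).toSS (iota j), hmem j i⟩ := by
      intro j i
      have hg : ∀ n, (x j i).toSS.f n 0 = 0 := fun n => map_zero ((x j i).f n)
      rw [← hV t Y V (EM j) (x j i).toSS hg (postZ Γ (piZ zc)) (iota j), ← hzc ⟨j, i⟩]
      congr 2
      apply Subtype.ext
      apply HV.ext
      intro n y
      have h4 := hΓ n ((piZ zc).1.1 n y)
      exact congrFun h4 ⟨j, i⟩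
    intro j
    have hspan : Submodule.span k (Set.range fun i : I j =>
        (⟨H.map (x j i).toSS (iota j), hmem j i⟩ : LC V j)) = ⊤ := by
      rw [Submodule.eq_top_iff']
      rintro ⟨a, l, h, rfl⟩
      have h5 := hA V hVf x hx j l h
      have h6 : Submodule.span k (Set.range fun i : I j => H.map (x j i).toSS (iota j)) =
          (Submodule.span k (Set.range fun i : I j =>
            (⟨H.map (x j i).toSS (iota j), hmem j i⟩ : LC V j))).map (LC V j).subtype := by
        rw [Submodule.map_span, ← Set.range_comp]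
        rfl
      rw [h6] at h5
      obtain ⟨b, hb, hb2⟩ := h5
      have h7 : b = ⟨clsN j (fun x => l x) h, ⟨l, h, rfl⟩⟩ := Subtype.ext hb2
      rw [← h7]
      exact hb
    have hlin : (Ph (postZ Γ (piZ zc))).comp (LC V j).subtype = c j := by
      refine LinearMap.ext_on hspan ?_
      rintro _ ⟨i, rfl⟩
      exact hval j i
    intro a
    exact LinearMap.congr_fun hlin a
  · intro N hN n hn y
    show Γ.f n ((piZ zc).1.1 n y) = 0
    have h8 : (piZ zc).1.1 n y = 0 := by
      funext p
      show (zc p).1.1 n y = 0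
      by_cases hp : p.1 ≤ N
      · have h9 : zc p = 0 := hz0 p (by rw [hN p.1 hp]; rfl)
        rw [h9]
        rfl
      · exact EM_low (by omega) _
    rw [h8, map_zero]

end Pool.Agent.SHL
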