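import Pool.Agent.SH.L.Stmts
import Pool.Agent.SH.S.StmtsA
import Pool.Agent.SH.S.Norm
import Pool.Agent.SH.S.Tools

/-!
LINK: a Moore cycle of Map(Y, EM n) with vanishing class is a Moore boundary.
-/

namespace Pool.Agent.SHL.Cem

open Pool.Agent.SHS Pool.Agent.SHS.Norm

/-! ### Normalised elements -/

/-- a non injective monotone map factors through a codegeneracy -/
theorem factor_cd {m q : ℕ} (s : Mor (m + 1) q) (hs : ¬ Function.Injective s) :
    ∃ (j : ℕ) (s' : Mor m q), j ≤ m ∧ s = s'.comp (cd m j) := by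
  have h : ∃ a b : Fin (m + 2), a < b ∧ s a = s b := by
    by_contra hc
    push Not at hc
    apply hs
    intro a b hab
    rcases lt_trichotomy a b with h | h | h
    · exact absurd hab (hc a b h)
    · exact h
    · exact absurd hab.symm (hc b a h)
  obtain ⟨a, b, hab, he⟩ := h
  have hab' : a.1 < b.1 := hab
  have hb := b.2
  have h1 : s ⟨a.1 + 1, by omega⟩ = s a := by
    apply le_antisymm
    · rw [he]
      apply s.monotone
      show a.1 + 1 ≤ b.1
      omega
    · apply s.monotone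
      show a.1 ≤ a.1 + 1
      omega
  refine ⟨a.1, s.comp (cf m a.1), by omega, ?_⟩
  apply OrderHom.ext
  funext x
  show s x = s (cf m a.1 (cd m a.1 x))
  have hx := x.2
  by_cases hxa : x = a
  · subst hxa
    have e : cf m x.1 (cd m x.1 x) = ⟨x.1 + 1, by omega⟩ := by
      apply Fin.ext
      show (if (if x.1 ≤ x.1 then min x.1 m else x.1 - 1) < x.1
        then (if x.1 ≤ x.1 then min x.1 m else x.1 - 1)
        else (if x.1 ≤ x.1 then min x.1 m else x.1 - 1) + 1) = x.1 + 1
      split_ifs <;> omega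
    rw [e, h1]
  · have hxa' : x.1 ≠ a.1 := fun h => hxa (Fin.ext h)
    have e : cf m a.1 (cd m a.1 x) = x := by
      apply Fin.ext
      show (if (if x.1 ≤ a.1 then min x.1 m else x.1 - 1) < a.1
        then (if x.1 ≤ a.1 then min x.1 m else x.1 - 1)
        else (if x.1 ≤ a.1 then min x.1 m else x.1 - 1) + 1) = x.1
      split_ifs <;> omega
    rw [e]

/-- normalised elements -/
def Nd (M : CM) (m : ℕ) (x : M.X m) : Prop :=
  ∀ (q : ℕ) (s : Mor m q), ¬ Function.Injective s → M.map s x = 0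

theorem Nd_zero (M : CM) (x : M.X 0) : Nd M 0 x := by
  intro q s hs
  exact absurd (fun a b _ => Subsingleton.elim (α := Fin 1) a b) hs

theorem Nd_succ (M : CM) (m : ℕ) (x : M.X (m + 1))
    (h : ∀ j ≤ m, M.map (cd m j) x = 0) : Nd M (m + 1) x := by
  intro q s hs
  obtain ⟨j, s', hj, rfl⟩ := factor_cd s hs
  rw [M.map_comp, h j hj, map_zero]

theorem cd_not_inj {m j : ℕ} (hj : j ≤ m) : ¬ Function.Injective (cd m j) := by
  intro h
  have e : cd m j ⟨j, by omega⟩ = cd m j ⟨j + 1, by omega⟩ := by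
    apply Fin.ext
    show (if j ≤ j then min j m else j - 1) = (if j + 1 ≤ j then min (j + 1) m else j + 1 - 1)
    split_ifs <;> omega
  have := congrArg Fin.val (h e)
  simp at this

theorem cd_cf_not_inj {m i j : ℕ} (hj : j ≤ m) (hi : i ≤ m + 1) (h1 : i ≠ j) (h2 : i ≠ j + 1) :
    ¬ Function.Injective ((cd m j).comp (cf m i)) := by
  intro h
  rcases Nat.lt_or_ge i j with hij | hij
  · have e : (cd m j).comp (cf m i) ⟨j - 1, by omega⟩ = (cd m j).comp (cf m i) ⟨j, by omega⟩ := by
      apply Fin.ext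
      show (if (if j - 1 < i then j - 1 else j - 1 + 1) ≤ j
          then min (if j - 1 < i then j - 1 else j - 1 + 1) m
          else (if j - 1 < i then j - 1 else j - 1 + 1) - 1)
        = (if (if j < i then j else j + 1) ≤ j then min (if j < i then j else j + 1) m
          else (if j < i then j else j + 1) - 1)
      split_ifs <;> omega
    have := congrArg Fin.val (h e)
    simp only at this
    omega
  · have e : (cd m j).comp (cf m i) ⟨j, by omega⟩ = (cd m j).comp (cf m i) ⟨j + 1, by omega⟩ := by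
      apply Fin.ext
      show (if (if j < i then j else j + 1) ≤ j then min (if j < i then j else j + 1) m
          else (if j < i then j else j + 1) - 1)
        = (if (if j + 1 < i then j + 1 else j + 1 + 1) ≤ j
          then min (if j + 1 < i then j + 1 else j + 1 + 1) m
          else (if j + 1 < i then j + 1 else j + 1 + 1) - 1)
      split_ifs <;> omega
    have := congrArg Fin.val (h e)
    simp only at this
    omega

/-- the differential of a normalised element is normalised -/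
theorem Nd_delta (M : CM) (m : ℕ) (x : M.X m) (hx : Nd M m x) : Nd M (m + 1) (M.delta m x) := by
  apply Nd_succ
  intro j hj
  rw [delta_eq, map_sum, show m + 2 = j + 2 + (m - j) by omega, sum_mid]
  · refine Finset.sum_eq_zero fun i hi => ?_
    have hi' := Finset.mem_range.1 hi
    rw [← M.map_comp]
    exact hx _ _ (cd_cf_not_inj hj (by omega) (by omega) (by omega))
  · rw [m_eq M hj, m_eq' M hj]
  · intro i hi
    rw [← M.map_comp]
    exact hx _ _ (cd_cf_not_inj hj (by omega) (by omega) (by omega))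

/-- changing a primitive of a normalised element into a normalised one -/
theorem exists_Nd (hN : NORM_Stmt) (M : CM) (m : ℕ) (x : M.X m)
    (h : Nd M (m + 1) (M.delta m x)) : ∃ x' : M.X m, Nd M m x' ∧ M.delta m x' = M.delta m x := by
  cases m with
  | zero => exact ⟨x, Nd_zero M x, rfl⟩
  | succ m =>
    obtain ⟨v, hv⟩ := hN M m x (fun i => by
      rw [cod_eq]
      exact h _ _ (cd_not_inj (by omega)))
    refine ⟨x + M.delta m v, Nd_succ M m _ (fun j hj => ?_), ?_⟩
    · have := hv ⟨j, by omega⟩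
      rw [cod_eq] at this
      exact this
    · rw [map_add, M.delta_delta, add_zero]

/-! ### Functions on the sphere times Y vanishing on the base point -/

/-- cochains of `S^t ∧ Y_+` -/
abbrev Mc (t : ℕ) (Y : SS) : CM := ((PS.sphere t).smash Y.plus).cm

theorem mc_pos {t : ℕ} {Y : SS} {m n : ℕ} (a : Mor m n) (g : (Mc t Y).X m)
    (b : {b : Mor n t // Function.Surjective b}) (y : Y.X n)
    (h : Function.Surjective (b.1.comp a)) :
    (Mc t Y).map a g (b, y) = g (⟨b.1.comp a, h⟩, Y.map a y) := by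
  show (Option.map₂ Prod.mk ((PS.sphere t).map a b) (some (Y.map a y))).elim 0 g = _
  rw [sphere_map_pos a b h]
  rfl

theorem mc_neg {t : ℕ} {Y : SS} {m n : ℕ} (a : Mor m n) (g : (Mc t Y).X m)
    (b : {b : Mor n t // Function.Surjective b}) (y : Y.X n)
    (h : ¬ Function.Surjective (b.1.comp a)) :
    (Mc t Y).map a g (b, y) = 0 := by
  show (Option.map₂ Prod.mk ((PS.sphere t).map a b) (some (Y.map a y))).elim 0 g = _
  rw [sphere_map_neg a b h]
  rfl

/-- restriction to the relative cochains -/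
def R {t : ℕ} {Y : SS} (j : ℕ) (g : ((Sph t).prod Y).X j → k) : (Mc t Y).X j :=
  fun p => g (some p.1, p.2) + g (none, p.2)

theorem R_map {t : ℕ} {Y : SS} {m n : ℕ} (a : Mor m n) (g : ((Sph t).prod Y).X m → k) :
    R n (((Sph t).prod Y).cm.map a g) = (Mc t Y).map a (R m g) := by
  funext p
  obtain ⟨b, y⟩ := p
  show g ((PS.sphere t).map a b, Y.map a y) + g (none, Y.map a y) = _
  by_cases h : Function.Surjective (b.1.comp a)
  · rw [mc_pos a _ b y h, sphere_map_pos a b h]
    rfl
  · rw [mc_neg a _ b y h, sphere_map_neg a b h]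
    exact k_two _

theorem R_add {t : ℕ} {Y : SS} (j : ℕ) (g h : ((Sph t).prod Y).X j → k) :
    R j (g + h) = R j g + R j h := by
  funext p
  show (g (some p.1, p.2) + h (some p.1, p.2)) + (g (none, p.2) + h (none, p.2))
    = (g (some p.1, p.2) + g (none, p.2)) + (h (some p.1, p.2) + h (none, p.2))
  abel

/-- `R` as an additive map -/
def Ra {t : ℕ} {Y : SS} (j : ℕ) : (((Sph t).prod Y).X j → k) →+ (Mc t Y).X j where
  toFun := R j
  map_zero' := by
    funext p
    exact add_zero 0
  map_add' := R_add j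

theorem R_delta {t : ℕ} {Y : SS} (m : ℕ) (g : ((Sph t).prod Y).X m → k) :
    R (m + 1) (((Sph t).prod Y).cm.delta m g) = (Mc t Y).delta m (R m g) := by
  rw [CM.delta_apply, CM.delta_apply]
  show Ra (m + 1) _ = _
  rw [map_sum]
  refine Finset.sum_congr rfl fun i _ => ?_
  exact R_map (cof i) g

/-! ### Extension to the simplex -/

open Classical in
/-- the extension of relative cochains of `S^t × Y` to `Δ^(t+1) × Y`: supported on the 0-th face -/
noncomputable def E {t : ℕ} {Y : SS} (j : ℕ) (g : (Mc t Y).X j) :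
    ((SS.simplex (t + 1)).prod Y).X j → k :=
  fun x => if h : (∀ v, x.1 v ≠ 0) ∧ Function.Surjective ((cd t 0).comp x.1) then
    g (⟨(cd t 0).comp x.1, h.2⟩, x.2) else 0

theorem E_pos {t : ℕ} {Y : SS} (j : ℕ) (g : (Mc t Y).X j) (a : Mor j (t + 1)) (y : Y.X j)
    (h1 : ∀ v, a v ≠ 0) (h2 : Function.Surjective ((cd t 0).comp a)) :
    E j g (a, y) = g (⟨(cd t 0).comp a, h2⟩, y) := dif_pos ⟨h1, h2⟩

theorem E_neg {t : ℕ} {Y : SS} (j : ℕ) (g : (Mc t Y).X j) (a : Mor j (t + 1)) (y : Y.X j)
    (h : ¬ ((∀ v, a v ≠ 0) ∧ Function.Surjective ((cd t 0).comp a))) :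
    E j g (a, y) = 0 := dif_neg h

theorem cd_cof_zero {t j : ℕ} (b : Mor j t) : (cd t 0).comp ((cof 0).comp b) = b := by
  apply mext
  intro x
  have hx := (b x).2
  show (cd t 0 (cof 0 (b x))).1 = (b x).1
  rw [cof_eq]
  show (if (if (b x).1 < 0 then (b x).1 else (b x).1 + 1) ≤ 0
      then min (if (b x).1 < 0 then (b x).1 else (b x).1 + 1) t
      else (if (b x).1 < 0 then (b x).1 else (b x).1 + 1) - 1) = (b x).1
  split_ifs <;> omega

theorem E_face_pos {t : ℕ} {Y : SS} (j : ℕ) (g : (Mc t Y).X j) (b : Mor j t) (y : Y.X j)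
    (h : Function.Surjective b) :
    E j g ((cof 0).comp b, y) = g (⟨b, h⟩, y) := by
  have h2 : Function.Surjective ((cd t 0).comp ((cof 0).comp b)) := by
    rw [cd_cof_zero]
    exact h
  have e : (⟨(cd t 0).comp ((cof 0).comp b), h2⟩ : {b : Mor j t // Function.Surjective b}) =
      ⟨b, h⟩ := Subtype.ext (cd_cof_zero b)
  rw [E_pos j g _ y (fun v => Fin.succ_ne_zero (b v)) h2, e]

theorem E_face_neg {t : ℕ} {Y : SS} (j : ℕ) (g : (Mc t Y).X j) (b : Mor j t) (y : Y.X j)
    (h : ¬ Function.Surjective b) :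
    E j g ((cof 0).comp b, y) = 0 := by
  apply E_neg
  rintro ⟨_, h2⟩
  rw [cd_cof_zero] at h2
  exact h h2

theorem E_face_other {t : ℕ} {Y : SS} (j : ℕ) (g : (Mc t Y).X j) (i : Fin (t + 2)) (hi : i ≠ 0)
    (b : Mor j t) (y : Y.X j) : E j g ((cof i).comp b, y) = 0 := by
  apply E_neg
  rintro ⟨h1, h2⟩
  have hi1 : i.1 ≠ 0 := fun h => hi (Fin.ext h)
  have hi2 := i.2
  obtain ⟨v, hv⟩ := h2 ⟨i.1 - 1, by omega⟩
  have hv' := congrArg Fin.val hv
  have h1v : (cof i (b v)).1 ≠ 0 := fun h => h1 v (Fin.ext h)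
  change (cd t 0 (cof i (b v))).1 = i.1 - 1 at hv'
  rw [cof_eq] at hv' h1v
  change (if (if (b v).1 < i.1 then (b v).1 else (b v).1 + 1) ≤ 0
      then min (if (b v).1 < i.1 then (b v).1 else (b v).1 + 1) t
      else (if (b v).1 < i.1 then (b v).1 else (b v).1 + 1) - 1) = i.1 - 1 at hv'
  change (if (b v).1 < i.1 then (b v).1 else (b v).1 + 1) ≠ 0 at h1v
  split_ifs at hv' h1v <;> omega

theorem E_Nd {t : ℕ} {Y : SS} (m : ℕ) (g : (Mc t Y).X m) (hg : Nd (Mc t Y) m g) :
    Nd ((SS.simplex (t + 1)).prod Y).cm m (E m g) := by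
  cases m with
  | zero => exact Nd_zero _ _
  | succ m =>
    apply Nd_succ
    intro j hj
    funext x
    obtain ⟨a, y⟩ := x
    show E (m + 1) g (a.comp (cd m j), Y.map (cd m j) y) = 0
    by_cases h : (∀ v, (a.comp (cd m j)) v ≠ 0) ∧
        Function.Surjective ((cd t 0).comp (a.comp (cd m j)))
    · rw [E_pos _ g _ _ h.1 h.2]
      have hb : Function.Surjective ((cd t 0).comp a) := by
        intro i
        obtain ⟨v, hv⟩ := h.2 i
        exact ⟨cd m j v, hv⟩
      have h3 := congrFun (hg m (cd m j) (cd_not_inj hj)) (⟨(cd t 0).comp a, hb⟩, y)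
      rw [mc_pos (cd m j) g ⟨(cd t 0).comp a, hb⟩ y h.2] at h3
      exact h3
    · exact E_neg _ g _ _ h

theorem E_delta_pos {t : ℕ} {Y : SS} (m : ℕ) (g : (Mc t Y).X m) (b : Mor (m + 1) t)
    (y : Y.X (m + 1)) (h : Function.Surjective b) :
    ((SS.simplex (t + 1)).prod Y).cm.delta m (E m g) ((cof 0).comp b, y) =
      (Mc t Y).delta m g (⟨b, h⟩, y) := by
  rw [CM.delta_apply, CM.delta_apply, Finset.sum_apply, Finset.sum_apply]
  refine Finset.sum_congr rfl fun i _ => ?_
  show E m g ((cof 0).comp (b.comp (cof i)), Y.map (cof i) y) = _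
  by_cases h' : Function.Surjective (b.comp (cof i))
  · rw [E_face_pos m g _ _ h', mc_pos (cof i) g ⟨b, h⟩ y h']
  · rw [E_face_neg m g _ _ h', mc_neg (cof i) g ⟨b, h⟩ y h']

theorem E_delta_neg {t : ℕ} {Y : SS} (m : ℕ) (g : (Mc t Y).X m) (b : Mor (m + 1) t)
    (y : Y.X (m + 1)) (h : ¬ Function.Surjective b) :
    ((SS.simplex (t + 1)).prod Y).cm.delta m (E m g) ((cof 0).comp b, y) = 0 := by
  rw [CM.delta_apply, Finset.sum_apply]
  refine Finset.sum_eq_zero fun i _ => ?_
  show E m g ((cof 0).comp (b.comp (cof i)), Y.map (cof i) y) = 0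
  apply E_face_neg
  intro hs
  apply h
  intro v
  obtain ⟨u, hu⟩ := hs v
  exact ⟨cof i u, hu⟩

theorem E_delta_other {t : ℕ} {Y : SS} (m : ℕ) (g : (Mc t Y).X m) (i : Fin (t + 2)) (hi : i ≠ 0)
    (b : Mor (m + 1) t) (y : Y.X (m + 1)) :
    ((SS.simplex (t + 1)).prod Y).cm.delta m (E m g) ((cof i).comp b, y) = 0 := by
  rw [CM.delta_apply, Finset.sum_apply]
  refine Finset.sum_eq_zero fun l _ => ?_
  exact E_face_other m g i hi (b.comp (cof l)) (Y.map (cof l) y)

/-! ### Cocycles of the map defined by a Moore cycle -/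

/-- the value of a simplex of `Map(Y, EM n)` -/
def zf {Y : SS} {n t : ℕ} (z : (MapS Y (EM n)).X t) (b : Mor n t) (y : Y.X n) : k :=
  (z.1 n (b, y)).1 OrderHom.id

theorem zf_val {Y : SS} {n t : ℕ} (z : (MapS Y (EM n)).X t) {q : ℕ} (a : Mor q t) (y : Y.X q)
    (s : Mor n q) : (z.1 q (a, y)).1 s = zf z (a.comp s) (Y.map s y) := by
  have h := HV.nat z s (a, y)
  have h2 := congrArg (fun f : EMsub n n => f.1 OrderHom.id) h
  exact h2.symm

theorem zf_zero {Y : SS} {n t : ℕ} {z : (MapS Y (EM n)).X t} (hz : z ∈ ZM (MapS Y (EM n)) t)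
    (b : Mor n t) (hb : ¬ Function.Surjective b) (y : Y.X n) : zf z b y = 0 := by
  unfold zf
  rw [mem_ZM_val hz b hb y]
  rfl

theorem ext_zf {Y : SS} {n t : ℕ} {z w : (MapS Y (EM n)).X t}
    (h : ∀ b y, zf z b y = zf w b y) : z = w := by
  apply HV.ext
  rintro q ⟨a, y⟩
  apply Subtype.ext
  funext s
  rw [zf_val, zf_val, h]

/-- the cocycle of the map defined by a Moore cycle -/
def ph {Y : SS} {n t : ℕ} (z : ZM (MapS Y (EM n)) t) : ((Sph t).prod Y).X n → k :=
  fun x => ((sph z).1 n x).1 OrderHom.id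

theorem ph_some {Y : SS} {n t : ℕ} (z : ZM (MapS Y (EM n)) t)
    (b : {b : Mor n t // Function.Surjective b}) (y : Y.X n) :
    ph z (some b, y) = zf z.1 b.1 y := rfl

theorem ph_none {Y : SS} {n t : ℕ} (z : ZM (MapS Y (EM n)) t) (y : Y.X n) :
    ph z (none, y) = 0 := rfl

theorem ph_delta {Y : SS} {n t : ℕ} (z : ZM (MapS Y (EM n)) t) :
    ((Sph t).prod Y).cm.delta n (ph z) = 0 := by
  rw [CM.delta_apply]
  funext x
  rw [Finset.sum_apply]
  have h := ((sph z).1 (n + 1) x).2.2 OrderHom.id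
  refine Eq.trans (Finset.sum_congr rfl ?_) h
  intro i _
  show ((sph z).1 n (((Sph t).prod Y).map (cof i) x)).1 OrderHom.id = _
  rw [HV.nat]
  rfl

theorem ph_cls {Y : SS} {n t : ℕ} (z : ZM (MapS Y (EM n)) t) :
    H.map (HV.hom (sph z)) (iota n) = clsN n (ph z) (ph_delta z) := by
  unfold iota clsN
  rw [H.map_cls]
  congr 1
  apply Subtype.ext
  ext m x
  show iotaC n m ((sph z).1 m x) = Coch.single n (ph z) m x
  unfold iotaC
  by_cases h : m = n
  · subst h
    rw [Coch.single_self, Coch.single_self]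
    rfl
  · rw [Coch.single_ne h, Coch.single_ne h]

theorem main {Y : SS} {n t : ℕ} (hN : NORM_Stmt) (z : ZM (MapS Y (EM n)) t)
    (h : H.map (HV.hom (sph z)) (iota n) = 0) : z.1 ∈ BM (MapS Y (EM n)) t := by
  rw [ph_cls, clsN_eq_zero] at h
  cases n with
  | zero =>
    have h0 : ph z = 0 := h
    have hz : z.1 = 0 := by
      apply ext_zf
      intro b y
      by_cases hb : Function.Surjective b
      · have := congrFun h0 (some ⟨b, hb⟩, y)
        rw [ph_some] at this
        exact this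
      · rw [zf_zero z.2 b hb]
        rfl
    rw [hz]
    exact (BM (MapS Y (EM 0)) t).zero_mem
  | succ m =>
    obtain ⟨η, hη⟩ := h
    have hη : ((Sph t).prod Y).cm.delta m η = ph z := hη
    -- the relative cochain
    have hR : (Mc t Y).delta m (R m η) = R (m + 1) (ph z) := by
      rw [← R_delta, hη]
    have hnd : Nd (Mc t Y) (m + 1) (R (m + 1) (ph z)) := by
      apply Nd_succ
      intro j hj
      funext p
      obtain ⟨b, y⟩ := p
      have hs : Function.Surjective (b.1.comp (cd m j)) := by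
        intro i
        obtain ⟨v, hv⟩ := b.2 i
        refine ⟨cf m j v, ?_⟩
        have e : (cd m j) ((cf m j) v) = v := by
          have := congrArg (fun f : Mor m m => f v) (cd_cf_eq (n := m) hj)
          exact this
        show b.1 ((cd m j) ((cf m j) v)) = i
        rw [e, hv]
      rw [mc_pos (cd m j) _ b y hs]
      show zf z.1 (b.1.comp (cd m j)) (Y.map (cd m j) y) + 0 = 0
      rw [add_zero, ← zf_val]
      exact (z.1.1 m (b.1, y)).2.1 (cd m j) (cd_not_inj hj)
    rw [← hR] at hnd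
    obtain ⟨ζ, hζ1, hζ2⟩ := exists_Nd hN (Mc t Y) m (R m η) hnd
    rw [hR] at hζ2
    -- the simplex w
    have hω : Nd ((SS.simplex (t + 1)).prod Y).cm (m + 1)
        (((SS.simplex (t + 1)).prod Y).cm.delta m (E m ζ)) := Nd_delta _ _ _ (E_Nd m ζ hζ1)
    have hc : ((SS.simplex (t + 1)).prod Y).cm.delta (m + 1)
        (((SS.simplex (t + 1)).prod Y).cm.delta m (E m ζ)) = 0 := CM.delta_delta _ _ _
    let W := EMlift (m + 1) (((SS.simplex (t + 1)).prod Y).cm.delta m (E m ζ))
      (fun q s hs x => congrFun (hω q s hs) x) hc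
    have hW : ∀ (i : Fin (t + 2)) (b : Mor (m + 1) t) (y : Y.X (m + 1)),
        zf ((MapS Y (EM (m + 1))).map (cof i) (HV.of W)) b y =
          ((SS.simplex (t + 1)).prod Y).cm.delta m (E m ζ) ((cof i).comp b, y) := by
      intro i b y
      show ((SS.simplex (t + 1)).prod Y).cm.delta m (E m ζ)
        (((SS.simplex (t + 1)).prod Y).map OrderHom.id ((cof i).comp b, y)) = _
      rw [SS.map_id]
    refine ⟨HV.of W, ?_, ?_⟩
    · apply ext_zf
      intro b y
      rw [hW]
      by_cases hb : Function.Surjective b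
      · rw [E_delta_pos m ζ b y hb, hζ2]
        show zf z.1 b y + 0 = zf z.1 b y
        rw [add_zero]
      · rw [E_delta_neg m ζ b y hb, zf_zero z.2 b hb]
    · intro i hi
      apply ext_zf
      intro b y
      rw [hW, E_delta_other m ζ i hi b y]
      rfl

end Pool.Agent.SHL.Cem

namespace Pool.Agent.SHL

open Pool.Agent.SHS

theorem CEM (h1 : PH1_Stmt) (hN : NORM_Stmt) (hC : LCM_Stmt) (hR : RCH_Stmt) : CEM_Stmt := by
  intro t ht Y hY n z hz
  apply Cem.main hN z
  have h2 : iota n ∈ RC (EM n) := (hR (EM n)).2.1 n (hC.2 n)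
  rw [← (h1 t ht Y hY (EM n) z).1 (iota n) h2, hz, map_zero]

end Pool.Agent.SHL
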