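import Pool.Agent.SH.L.Stmts

/-!
LINK of MP_2d0b73_an: completeness of the slant product with linear classes for simplicial vector
spaces with finite levels.
-/

namespace Pool.Agent.SHL.Cv

open Pool.Agent.SHS

/-- assembling a family of simplices of mapping spaces -/
def asm {Y : SS} {A : Type} {W : A → SV} (r : ℕ) (w : ∀ p, (MapS Y (W p)).X r) :
    (MapS Y (SV.pi W)).X r :=
  ⟨fun n x p => (w p).1 n x, fun m n a x => by
    funext p
    exact (w p).2 m n a x⟩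

theorem pi_BM {Y : SS} {A : Type} {W : A → SV} {t : ℕ} (z : (MapS Y (SV.pi W)).X t)
    (h : ∀ p, (mapPost Y (SV.Hom.pr W p)).f t z ∈ BM (MapS Y (W p)) t) :
    z ∈ BM (MapS Y (SV.pi W)) t := by
  choose w hw0 hw using h
  refine ⟨asm (t + 1) w, ?_, ?_⟩
  · apply HV.ext
    intro n y
    funext p
    have h1 := congrArg (fun F : HV ((SS.simplex t).prod Y) (W p) => F.1 n y) (hw0 p)
    exact h1
  · intro i hi
    apply HV.ext
    intro n y
    funext p
    have h1 := congrArg (fun F : HV ((SS.simplex t).prod Y) (W p) => F.1 n y) (hw p i hi)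
    exact h1

theorem toLHty {V W : SV} {f g : SV.Hom V W} (h : SV.LHty f g) : SHL.LHty f g :=
  ⟨h.h, fun _ _ a τ x => h.nat a τ x, h.zero, h.one⟩

end Pool.Agent.SHL.Cv

namespace Pool.Agent.SHL

open Pool.Agent.SHS Pool.Agent.SHL.Cv

theorem CV (hL : LBE_Stmt) (hS : SPLIT_Stmt) (hC : LCM_Stmt) (hV : PHV_Stmt) (hE : CEM_Stmt) :
    CV_Stmt := by
  intro V hVf t ht Y hY z hz
  obtain ⟨I, x, hx⟩ := hL V hVf
  obtain ⟨Γ, _, ⟨hh⟩⟩ := hS V hVf x hx
  have hp : ∀ (j : ℕ) (i : I j) (n : ℕ), (x j i).toSS.f n 0 = 0 :=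
    fun j i n => map_zero ((x j i).f n)
  have h1 : ∀ p : (Σ j, I j), (appZ (x p.1 p.2).toSS (hp p.1 p.2) z).1 ∈
      BM (MapS Y (EM p.1)) t := by
    intro p
    apply hE t ht Y hY p.1
    rw [hV]
    apply hz p.1
    exact hC.1 _ _ (x p.1 p.2) _ _ (hC.2 p.1)
  have h2 : (mapPost Y (Lam x)).f t z.1 ∈ BM (MapS Y (EMpi I)) t := by
    apply pi_BM
    intro p
    exact h1 p
  have h3 : (mapApp Y Γ.toSS).f t ((mapPost Y (Lam x)).f t z.1) ∈ BM (MapS Y V) t :=
    BM_app (mapApp Y Γ.toSS) (mapApp_zero Y Γ.toSS (fun n => map_zero (Γ.f n))) h2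
  have h4 := LHty.BM (LHty.map Y (toLHty hh)) z.2
  have h5 := Submodule.add_mem _ h4 h3
  have h6 : (mapPost Y (SV.Hom.id V)).f t z.1 + (mapPost Y (Γ.comp (Lam x))).f t z.1 +
      (mapApp Y Γ.toSS).f t ((mapPost Y (Lam x)).f t z.1) = z.1 := by
    have e1 : (mapPost Y (SV.Hom.id V)).f t z.1 = z.1 := rfl
    have e2 : (mapPost Y (Γ.comp (Lam x))).f t z.1 =
      (mapApp Y Γ.toSS).f t ((mapPost Y (Lam x)).f t z.1) := rfl
    rw [e1, e2, add_assoc, mod_two, add_zero]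
  rw [h6] at h5
  exact h5

end Pool.Agent.SHL
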