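import Pool.Agent.SH.L.Stmts
import Pool.Agent.SH.S.Tools

/-! LINK: `evB` and linear substitutions (module SHL_E1). -/

namespace Pool.Agent.SHL

open Pool.Agent.SHS

namespace E1

theorem uC_add (n : ℕ) (x y : BB.X n) : uC n ((x : (SV.const k).bar.X n) + y) = uC n x + uC n y := by
  unfold uC
  by_cases h : n = 1
  · subst h
    rw [Coch.single_self, Coch.single_self, Coch.single_self]
    rfl
  · rw [Coch.single_ne h, Coch.single_ne h, Coch.single_ne h, add_zero]

theorem uC_smul (n : ℕ) (c : k) (x : BB.X n) : uC n (c • (x : (SV.const k).bar.X n)) = c * uC n x := by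
  unfold uC
  by_cases h : n = 1
  · subst h
    rw [Coch.single_self, Coch.single_self]
    rfl
  · rw [Coch.single_ne h, Coch.single_ne h, mul_zero]

theorem uC_zero (n : ℕ) : uC n (0 : (SV.const k).bar.X n) = 0 := by
  have h := uC_smul n 0 (0 : (SV.const k).bar.X n)
  rwa [zero_smul, zero_mul] at h

/-- The fundamental class is primitive for the addition of `BB`. -/
theorem uu_add {X : SS} (f g h : SS.Hom X BB)
    (e : ∀ n x, h.f n x = (f.f n x : (SV.const k).bar.X n) + g.f n x) :
    H.map h uu = H.map f uu + H.map g uu := by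
  unfold uu
  rw [H.map_cls, H.map_cls, H.map_cls, ← map_add]
  congr 1
  apply Subtype.ext
  ext n x
  show uC n (h.f n x) = uC n (f.f n x) + uC n (g.f n x)
  rw [e, uC_add]

theorem uu_smul {X : SS} (c : k) (f h : SS.Hom X BB)
    (e : ∀ n x, h.f n x = c • (f.f n x : (SV.const k).bar.X n)) :
    H.map h uu = c • H.map f uu := by
  unfold uu
  rw [H.map_cls, H.map_cls, ← map_smul]
  congr 1
  apply Subtype.ext
  ext n x
  show uC n (h.f n x) = c * uC n (f.f n x)
  rw [e, uC_smul]

theorem uu_zero {X : SS} (h : SS.Hom X BB)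
    (e : ∀ n x, h.f n x = (0 : (SV.const k).bar.X n)) : H.map h uu = 0 := by
  have h1 := uu_smul 0 h h (fun n x => by rw [e, zero_smul])
  rwa [zero_smul] at h1

/-- The partial sums of a row of the matrix. -/
def hs {d : ℕ} (l : Fin d → ZMod 2) (s : Finset (Fin d)) : SS.Hom (BB.pow d) BB where
  f n x := ∑ i ∈ s, l i • (x i : (SV.const k).bar.X n)
  nat {m n} a x := by
    show ∑ i ∈ s, l i • (SV.const k).bar.map a (x i) = (SV.const k).bar.map a (∑ i ∈ s, l i • x i)
    rw [map_sum]
    simp only [map_smul]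

/-- One term. -/
def h1 {d : ℕ} (l : Fin d → ZMod 2) (i : Fin d) : SS.Hom (BB.pow d) BB where
  f n x := l i • (x i : (SV.const k).bar.X n)
  nat {m n} a x := by
    show l i • (SV.const k).bar.map a (x i) = (SV.const k).bar.map a (l i • x i)
    rw [map_smul]

theorem map_hs {d : ℕ} (l : Fin d → ZMod 2) (s : Finset (Fin d)) :
    H.map (hs l s) uu = ∑ i ∈ s, l i • H.map (BB.proj d i) uu := by
  classical
  induction s using Finset.induction_on with
  | empty =>
    rw [Finset.sum_empty]
    apply uu_zero
    intro n x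
    show ∑ i ∈ (∅ : Finset (Fin d)), l i • (x i : (SV.const k).bar.X n) = 0
    rw [Finset.sum_empty]
  | insert i s hi ih =>
    rw [Finset.sum_insert hi, ← ih, uu_add (h1 l i) (hs l s) (hs l (insert i s))]
    · congr 1
      exact uu_smul (l i) (BB.proj d i) (h1 l i) (fun n x => rfl)
    · intro n x
      show ∑ i ∈ insert i s, l i • (x i : (SV.const k).bar.X n) = _
      rw [Finset.sum_insert hi]
      rfl

theorem evB_X' (d : ℕ) (j : Fin d) : evB d (MvPolynomial.X j) = H.map (BB.proj d j) uu := by
  unfold evB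
  rw [MvPolynomial.aeval_X]

end E1

/-- `evB` and linear substitutions. -/
theorem E1 : E1_Stmt := by
  intro d' d L p
  have h : (H.map (BL L)).comp (evB d') = (evB d).comp (SHU.lin L) := by
    apply MvPolynomial.algHom_ext
    intro j
    rw [AlgHom.comp_apply, AlgHom.comp_apply, E1.evB_X', SHU.lin_X, map_sum, ← H.map_comp]
    have h2 : (BB.proj d' j).comp (BL L) = E1.hs (L j) Finset.univ := rfl
    rw [h2, E1.map_hs]
    refine Finset.sum_congr rfl fun i _ => ?_
    rw [map_mul, E1.evB_X', ← MvPolynomial.algebraMap_eq, AlgHom.commutes, Algebra.smul_def]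
  exact DFunLike.congr_fun h p

end Pool.Agent.SHL
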