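import Pool.Agent.SH.L.Stmts
import Pool.Agent.SH.S.Tools

/-!
LINK: every class of positive degree is the pull back of the fundamental class along a pointed map.
-/

namespace Pool.Agent.SHL

open Pool.Agent.SHS Pool.Agent.SHS.Coch

namespace Emr

/-- A monotone map which is not injective factors through a codegeneracy. -/
theorem factor_cod {m q : ℕ} (s : Mor (m + 1) q) (hs : ¬ Function.Injective s) :
    ∃ (i : Fin (m + 1)) (s' : Mor m q), s = s'.comp (cod i) := by
  obtain ⟨i, θ', h⟩ := SimplexCategory.eq_σ_comp_of_not_injective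
    (SimplexCategory.mkHom s) hs
  exact ⟨i, θ'.toOrderHom, congrArg SimplexCategory.Hom.toOrderHom h⟩

/-- The cocycle condition is preserved when a coboundary is added. -/
theorem delta_add_delta {X : SS} (m : ℕ) (α : X.X (m + 1) → k) (h : X.cm.delta (m + 1) α = 0)
    (v : X.X m → k) : X.cm.delta (m + 1) (α + X.cm.delta m v) = 0 := by
  rw [map_add, h, zero_add]
  exact X.cm.delta_delta m v

theorem clsN_add_delta {X : SS} (m : ℕ) (α : X.X (m + 1) → k) (h : X.cm.delta (m + 1) α = 0)
    (v : X.X m → k) :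
    clsN (m + 1) (α + X.cm.delta m v) (delta_add_delta m α h v) = clsN (m + 1) α h := by
  have h1 : X.cm.delta (m + 1) (X.cm.delta m v) = 0 := X.cm.delta_delta m v
  have h2 := clsN_add α (X.cm.delta m v) h h1
  have h3 : clsN (m + 1) (X.cm.delta m v) h1 = 0 := by
    rw [clsN_eq_zero]
    exact ⟨v, rfl⟩
  rw [h3] at h2
  exact h2.trans (add_zero (clsN (m + 1) α h))

theorem map_EMlift {X : SS} (n : ℕ) (f : X.X n → k)
    (hn' : ∀ (m : ℕ) (s : Mor n m), ¬ Function.Injective s → ∀ x : X.X m, f (X.map s x) = 0)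
    (hc : X.cm.delta n f = 0) : H.map (EMlift n f hn' hc) (iota n) = clsN n f hc := by
  unfold iota clsN
  rw [H.map_cls]
  congr 1
  apply Subtype.ext
  ext q x
  show iotaC n q ((EMlift n f hn' hc).f q x) = single n f q x
  unfold iotaC
  by_cases h : q = n
  · subst h
    rw [single_self, single_self]
    show f (X.map OrderHom.id x) = f x
    rw [X.map_id]
  · rw [single_ne h, single_ne h]

end Emr

theorem EMR (hN : NORM_Stmt) : EMR_Stmt := by
  intro V n hn a ha
  obtain ⟨m, rfl⟩ : ∃ m, n = m + 1 := ⟨n - 1, by omega⟩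
  obtain ⟨α, hα, rfl⟩ := exists_clsN ha
  obtain ⟨v, hv⟩ := hN V.toSS.cm m α (fun i => by rw [hα, map_zero])
  have hβ := Emr.delta_add_delta m α hα v
  have hdeg : ∀ (i : Fin (m + 1)) (y : V.X m),
      (α + V.toSS.cm.delta m v) (V.map (cod i) y) = 0 := fun i y => congrFun (hv i) y
  have hn' : ∀ (q : ℕ) (s : Mor (m + 1) q), ¬ Function.Injective s → ∀ x : V.X q,
      (α + V.toSS.cm.delta m v) (V.toSS.map s x) = 0 := by
    intro q s hs x
    obtain ⟨i, s', rfl⟩ := Emr.factor_cod s hs
    rw [V.toSS.map_comp]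
    exact hdeg i _
  refine ⟨EMlift (m + 1) (α + V.toSS.cm.delta m v) hn' hβ, fun q => ?_, ?_⟩
  · apply Subtype.ext
    funext s
    show (α + V.toSS.cm.delta m v) (V.map s 0) = 0
    have h := hdeg 0 0
    rw [map_zero] at h
    rw [map_zero]
    exact h
  · rw [Emr.map_EMlift, Emr.clsN_add_delta m α hα v]

end Pool.Agent.SHL
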