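import Pool.Agent.SH.L.Stmts
import Pool.Agent.SH.S.StmtsA
import Pool.Agent.SH.S.Pow

/-!
LINK: the homogeneous basis of the cohomology of the spheres (EPSHB).
-/

namespace Pool.Agent.SHL

open Pool.Agent.SHS

namespace Epshb

theorem not_surj {n t : ℕ} (h : n < t) (a : Mor n t) : ¬ Function.Surjective a := by
  intro hs
  have h1 := Fintype.card_le_of_surjective a hs
  rw [Fintype.card_fin, Fintype.card_fin] at h1
  omega

theorem eq_none {n t : ℕ} (h : n < t) (x : (Sph t).X n) : x = none := by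
  cases x with
  | none => rfl
  | some a => exact absurd a.2 (not_surj h a.1)

/-- The fundamental simplex of the sphere. -/
def xt (t : ℕ) : (Sph t).X t := some ⟨OrderHom.id, fun y => ⟨y, rfl⟩⟩

theorem self_cases {t : ℕ} (x : (Sph t).X t) : x = none ∨ x = xt t := by
  cases x with
  | none => exact Or.inl rfl
  | some a =>
    right
    unfold xt
    congr 1
    apply Subtype.ext
    have hinj : Function.Injective a.1 := Finite.injective_iff_surjective.mpr a.2
    have hs : StrictMono a.1 := a.1.monotone.strictMono_of_injective hinj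
    have h1 : (a.1 : Fin (t + 1) → Fin (t + 1)) = id := by
      rw [← hs.range_inj strictMono_id, a.2.range_eq, Set.range_id]
    apply OrderHom.ext
    exact h1

/-- A monotone map which is not injective takes two consecutive equal values. -/
theorem consec {m t : ℕ} (a : Mor (m + 1) t) (h : ¬ Function.Injective a) :
    ∃ i : Fin (m + 1), a i.castSucc = a i.succ := by
  by_contra hc
  apply h
  have hs : StrictMono a := by
    rw [Fin.strictMono_iff_lt_succ]
    intro i
    refine lt_of_le_of_ne (a.monotone (Fin.castSucc_lt_succ).le) fun h1 => hc ⟨i, h1⟩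
  exact hs.injective

theorem degen {m t : ℕ} (h : t < m + 1) (x : (Sph t).X (m + 1)) :
    ∃ (i : Fin (m + 1)) (y : (Sph t).X m), (Sph t).map (cod i) y = x := by
  cases x with
  | none => exact ⟨0, none, rfl⟩
  | some a =>
    have hni : ¬ Function.Injective a.1 := by
      intro hi
      have h1 := Fintype.card_le_of_injective a.1 hi
      rw [Fintype.card_fin, Fintype.card_fin] at h1
      omega
    obtain ⟨i, hi⟩ := consec a.1 hni
    have h1 : (a.1.comp (cof i.castSucc)).comp (cod i) = a.1 := by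
      apply OrderHom.ext
      funext j
      show a.1 ((i.castSucc).succAbove (i.predAbove j)) = a.1 j
      by_cases h : j = i.castSucc
      · rw [h, Fin.predAbove_castSucc_self, Fin.succAbove_castSucc_self]
        exact hi.symm
      · rw [Fin.succAbove_predAbove h]
    have hs : Function.Surjective (a.1.comp (cof i.castSucc)) := by
      intro y
      obtain ⟨j, hj⟩ := a.2 y
      refine ⟨cod i j, ?_⟩
      have := congrArg (fun f : Mor (m + 1) t => f j) h1
      exact (this.trans hj)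
    refine ⟨i, some ⟨a.1.comp (cof i.castSucc), hs⟩, ?_⟩
    have h2 : Function.Surjective ((a.1.comp (cof i.castSucc)).comp (cod i)) := by
      rw [h1]
      exact a.2
    show (PS.sphere t).map (cod i) ⟨a.1.comp (cof i.castSucc), hs⟩ = some a
    rw [sphere_map_pos (cod i) ⟨a.1.comp (cof i.castSucc), hs⟩ h2]
    congr 1
    apply Subtype.ext
    exact h1

/-- `eps` as a class. -/
theorem eps_eq (he : EPS_Stmt) (t : ℕ) : eps t = clsN t (epsC t) (he t) := dif_pos (he t)

theorem eps_mem (he : EPS_Stmt) (t : ℕ) : eps t ∈ Hn (Sph t) t := by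
  rw [eps_eq he]
  exact clsN_mem _ _ _

theorem eps_ne (he : EPS_Stmt) {t : ℕ} (ht : 1 ≤ t) : eps t ≠ 0 := by
  intro h
  rw [eps_eq he, clsN_eq_zero] at h
  obtain ⟨s, rfl⟩ : ∃ s, t = s + 1 := ⟨t - 1, by omega⟩
  have h0 : epsC (s + 1) ∈ LinearMap.range ((Sph (s + 1)).cm.delta s) := h
  obtain ⟨v, hv⟩ := h0
  have h1 : ∀ x : (Sph (s + 1)).X (s + 1), epsC (s + 1) x = ∑ _i : Fin (s + 2), v none := by
    intro x
    rw [← hv, CM.delta_apply, Finset.sum_apply]
    refine Finset.sum_congr rfl fun i _ => ?_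
    show v ((Sph (s + 1)).map (cof i) x) = v none
    rw [eq_none (Nat.lt_succ_self s) ((Sph (s + 1)).map (cof i) x)]
  have h2 : epsC (s + 1) (xt (s + 1)) = epsC (s + 1) none := by
    rw [h1, h1]
  exact one_ne_zero h2

theorem deg_zero {t : ℕ} (ht : 1 ≤ t) {a : H (Sph t)} (ha : a ∈ Hn (Sph t) 0) :
    ∃ c : k, a = c • (1 : H (Sph t)) := by
  obtain ⟨φ, h, rfl⟩ := exists_clsN ha
  refine ⟨φ none, ?_⟩
  rw [← map_one cls, ← map_smul cls]
  unfold clsN
  congr 1
  apply Subtype.ext
  show Coch.single 0 φ = φ none • (1 : Coch (Sph t))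
  ext m x
  rw [Coch.csmul_apply, Coch.cone_apply]
  by_cases hm : m = 0
  · subst hm
    rw [Coch.single_self, if_pos rfl, mul_one, eq_none ht x]
  · rw [Coch.single_ne hm, if_neg hm, mul_zero]

/-- Normalised representatives. -/
theorem exists_rep (hN : NORM_Stmt) {X : SS} {m : ℕ} {a : H X} (ha : a ∈ Hn X (m + 1)) :
    ∃ (ψ : X.X (m + 1) → k) (h : X.cm.delta (m + 1) ψ = 0), clsN (m + 1) ψ h = a ∧
      ∀ (i : Fin (m + 1)) (y : X.X m), ψ (X.map (cod i) y) = 0 := by
  obtain ⟨φ, h, rfl⟩ := exists_clsN ha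
  obtain ⟨v, hv⟩ := hN X.cm m φ (fun i => by rw [h, map_zero])
  have hd : X.cm.delta (m + 1) (X.cm.delta m v) = 0 := X.cm.cc.dd m v
  refine ⟨φ + X.cm.delta m v, by rw [map_add, h, hd, add_zero], ?_, ?_⟩
  · rw [clsN_add φ (X.cm.delta m v) h hd]
    have h1 : clsN (m + 1) (X.cm.delta m v) hd = 0 := by
      rw [clsN_eq_zero]
      exact ⟨v, rfl⟩
    rw [h1, add_zero]
  · intro i y
    exact congrFun (hv i) y

theorem deg_ne (hN : NORM_Stmt) {t m : ℕ} (hm : m + 1 ≠ t) {a : H (Sph t)}
    (ha : a ∈ Hn (Sph t) (m + 1)) : a = 0 := by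
  obtain ⟨ψ, h, rfl, hψ⟩ := exists_rep hN ha
  have h0 : ψ = 0 := by
    funext x
    rcases lt_or_gt_of_ne hm with h1 | h1
    · rw [eq_none h1 x]
      exact hψ 0 none
    · obtain ⟨i, y, rfl⟩ := degen h1 x
      exact hψ i y
  subst h0
  rw [clsN_eq_zero]
  exact Submodule.zero_mem _

theorem deg_self (hN : NORM_Stmt) (he : EPS_Stmt) {t : ℕ} (ht : 1 ≤ t) {a : H (Sph t)}
    (ha : a ∈ Hn (Sph t) t) : ∃ c : k, a = c • eps t := by
  obtain ⟨m, rfl⟩ : ∃ m, t = m + 1 := ⟨t - 1, by omega⟩
  obtain ⟨ψ, h, rfl, hψ⟩ := exists_rep hN ha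
  refine ⟨ψ (xt (m + 1)), ?_⟩
  rw [eps_eq he, ← clsN_smul]
  have h1 : ψ = ψ (xt (m + 1)) • epsC (m + 1) := by
    funext x
    show ψ x = ψ (xt (m + 1)) * epsC (m + 1) x
    rcases self_cases x with hx | hx
    · subst hx
      have h2 : ψ none = 0 := hψ 0 none
      have h3 : epsC (m + 1) none = 0 := rfl
      rw [h2, h3, mul_zero]
    · subst hx
      have h3 : epsC (m + 1) (xt (m + 1)) = 1 := rfl
      rw [h3, mul_one]
  unfold clsN
  congr 1
  apply Subtype.ext
  show Coch.single (m + 1) ψ = Coch.single (m + 1) (ψ (xt (m + 1)) • epsC (m + 1))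
  rw [← h1]

end Epshb

theorem EPSHB (hN : NORM_Stmt) (he : EPS_Stmt) : EPSHB_Stmt := by
  intro t ht
  have hm1 : eps t ∈ Hn (Sph t) t := Epshb.eps_mem he t
  have hm0 : (1 : H (Sph t)) ∈ Hn (Sph t) 0 := Hn_one
  have h1 : (1 : H (Sph t)) ≠ 0 := Pow.one_ne (X := Sph t) none
  have h2 : eps t ≠ 0 := Epshb.eps_ne he ht
  have ht0 : t ≠ 0 := by omega
  refine ⟨?_, ?_, ?_⟩
  · intro b
    cases b with
    | false => exact hm0
    | true => exact hm1
  · rw [Fintype.linearIndependent_iff]
    intro g hg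
    rw [Fintype.sum_bool] at hg
    have h3 : g true • eps t + g false • (1 : H (Sph t)) = 0 := hg
    have h4 := congrArg (Hpr 0) h3
    have h5 := congrArg (Hpr t) h3
    rw [map_add, map_smul, map_smul, map_zero, Hpr_ne ht0 hm1, Hpr_eq hm0, smul_zero,
      zero_add] at h4
    rw [map_add, map_smul, map_smul, map_zero, Hpr_eq hm1, Hpr_ne (Ne.symm ht0) hm0, smul_zero,
      add_zero] at h5
    intro b
    cases b with
    | false => exact (smul_eq_zero.1 h4).resolve_right h1
    | true => exact (smul_eq_zero.1 h5).resolve_right h2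
  · intro n a ha
    cases n with
    | zero =>
      obtain ⟨c, rfl⟩ := Epshb.deg_zero ht ha
      exact Submodule.smul_mem _ _ (Submodule.subset_span ⟨false, rfl, rfl⟩)
    | succ m =>
      by_cases hmt : m + 1 = t
      · rw [hmt] at ha
        obtain ⟨c, rfl⟩ := Epshb.deg_self hN he ht ha
        exact Submodule.smul_mem _ _ (Submodule.subset_span ⟨true, hmt.symm, rfl⟩)
      · rw [Epshb.deg_ne hN hmt ha]
        exact Submodule.zero_mem _

end Pool.Agent.SHL
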