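import Pool.Agent.SH.L.Ind
import Pool.Agent.SH.S.Pow

/-!
LINK: from exactness of the polynomial valued complex to the final statement.
-/

namespace Pool.Agent.SHL

open Pool.Agent.SHS

/-- Precomposition on mapping spaces. -/
def pmap {Y Y' : SS} (φ : SS.Hom Y' Y) (V : SV) : SV.Hom (MapS Y V) (MapS Y' V) where
  f n := HV.pre (X := (SS.simplex n).prod Y') (Y := (SS.simplex n).prod Y)
    ⟨fun _ x => (x.1, φ.f _ x.2), fun a x => by
      show (x.1.comp a, φ.f _ (Y'.map a x.2)) = (x.1.comp a, Y.map a (φ.f _ x.2))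
      rw [φ.nat]⟩
  nat _ _ := rfl

theorem pmap_apply {Y Y' : SS} (φ : SS.Hom Y' Y) (V : SV) (t : ℕ) (F : (MapS Y V).X t) (n : ℕ)
    (a : Mor n t) (y : Y'.X n) : ((pmap φ V).f t F).1 n (a, y) = F.1 n (a, φ.f n y) := rfl

theorem preZ_val {Y Y' : SS} (φ : SS.Hom Y' Y) {V : SV} {t : ℕ} (z : ZM (MapS Y V) t) :
    (preZ φ z).1 = (pmap φ V).f t z.1 := rfl

/-- projection and its inverse -/
def rho : SS.Hom (BB.pow 1) BB := BB.proj 1 0

def sig : SS.Hom BB (BB.pow 1) := ⟨fun _ x => fun _ => x, fun _ _ => rfl⟩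

/-- the base point of `BB.pow 1` -/
def b0 : SS.Hom (SS.simplex 0) (BB.pow 1) := ⟨fun _ _ => fun _ => 0, fun {m n} a _ => by
  funext i
  exact (map_zero ((SV.const k).bar.map a)).symm⟩

/-- the map to the point -/
def ptm (Y : SS) : SS.Hom Y (SS.simplex 0) := ⟨fun _ _ => cst 0, fun _ _ => rfl⟩

/-- the constant map of `BB` -/
def kz0 : SS.Hom BB BB := ⟨fun _ _ => 0, fun {m n} a _ => (map_zero ((SV.const k).bar.map a)).symm⟩

theorem simplex_zero_sub (n : ℕ) : Subsingleton ((SS.simplex 0).X n) :=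
  ⟨fun a b => by
    apply mor_ext
    intro i
    have := (a i).2
    have := (b i).2
    omega⟩

theorem simplex_zero_ne (n : ℕ) : Nonempty ((SS.simplex 0).X n) := ⟨cst 0⟩

theorem simplex_zero_LF : (SS.simplex 0).LF := by
  intro n
  have := simplex_zero_sub n
  exact Finite.of_subsingleton

theorem PB_of_BM {V : SV} {t : ℕ} {z : (MapS BB V).X t} (hp : z ∈ PT V t)
    (hb : z ∈ BM (MapS BB V) t) : PB V t z := by
  obtain ⟨w, h1, h2⟩ := hb
  have hk : ∀ i : Fin (t + 2), (MapS BB V).map (cof i) ((pmap kz0 V).f (t + 1) w) =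
      (pmap kz0 V).f t ((MapS BB V).map (cof i) w) := fun i => rfl
  refine ⟨w + (pmap kz0 V).f (t + 1) w, ?_, ?_, ?_⟩
  · intro r a
    show w.1 r (a, 0) + w.1 r (a, 0) = 0
    exact mod_two _
  · rw [map_add, hk, h1]
    have h3 : (pmap kz0 V).f t z = 0 := by
      apply HV.ext
      rintro n ⟨a, g⟩
      exact hp n a
    rw [h3, add_zero]
  · intro i hi
    rw [map_add, hk, h2 i hi, map_zero, add_zero]

theorem cf_pmap (C : CSV) (s : ℕ) {Y Y' : SS} (φ : SS.Hom Y' Y) {t : ℕ}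
    (z : (MapS Y (C.V s)).X t) :
    C.cf s ((pmap φ (C.V s)).f t z) = (pmap φ (C.V (s + 1))).f t (C.cf s z) := by
  apply HV.ext
  rintro n ⟨a, y⟩
  unfold CSV.cf
  rw [HV.sum_apply]
  show _ = (∑ i : Fin (s + 2), HV.app (C.op (cof i)) z : HV ((SS.simplex t).prod Y) (C.V (s + 1))).1 n
    (a, φ.f n y)
  rw [HV.sum_apply]
  rfl

theorem cf_PT (C : CSV) (s : ℕ) {t : ℕ} {z : (MapS BB (C.V s)).X t} (hz : z ∈ PT (C.V s) t) :
    C.cf s z ∈ PT (C.V (s + 1)) t := by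
  intro r a
  unfold CSV.cf
  rw [HV.sum_apply]
  apply Finset.sum_eq_zero
  intro i _
  show (C.op (cof i)).f r (z.1 r (a, 0)) = 0
  rw [hz r a]
  exact C.op_zero (cof i) r

theorem BM_pmap {Y Y' : SS} (φ : SS.Hom Y' Y) {V : SV} {t : ℕ} {z : (MapS Y V).X t}
    (hz : z ∈ BM (MapS Y V) t) : (pmap φ V).f t z ∈ BM (MapS Y' V) t :=
  BM_app (pmap φ V).toSS (fun n => map_zero ((pmap φ V).f n)) hz

theorem Base.Ph_zero' (B : Base) {Y : SS} {V : SV} {t : ℕ} {j : ℕ} (x : XL V j) :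
    Ph (0 : ZM (MapS Y V) t) x.1 = 0 :=
  Ph_zero x.1 (B.zm0 _ V x.1 (B.lc_mem x).1)

/-- the coefficient of degree `t` of a pointed Moore cycle vanishes -/
theorem Base.PhE_top (B : Base) {V : SV} {t : ℕ} (ht : 1 ≤ t) (z : ZM (MapS (BB.pow 1) V) t)
    (hz : preZ b0 z = 0) : (PhE z).1 t = 0 := by
  apply LinearMap.ext
  intro x
  have h1 : ((PhE z).1 t x).IsHomogeneous 0 := by
    have := SHU.ES_hom (PhE z) (le_refl t) x
    rwa [Nat.sub_self] at this
  obtain ⟨r, hr⟩ : ∃ r : k, (PhE z).1 t x = MvPolynomial.C r := by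
    have h2 := (MvPolynomial.totalDegree_zero_iff_isHomogeneous _).2 h1
    rw [MvPolynomial.totalDegree_eq_zero_iff_eq_C] at h2
    exact ⟨_, h2⟩
  have h3 := B.phy t ht (BB.pow 1) (SS.simplex 0) (B.bbf 1).1 simplex_zero_LF b0 V z x.1
    (B.lc_mem x).1
  rw [hz, B.Ph_zero' x, ← B.evB_PhE ht z t x, hr] at h3
  have h4 : H.map b0 (evB 1 (MvPolynomial.C r)) = r • (1 : H (SS.simplex 0)) := by
    unfold evB
    rw [MvPolynomial.aeval_C, AlgHom.commutes, Algebra.algebraMap_eq_smul_one]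
  rw [h4] at h3
  have h5 : r = 0 := by
    by_contra hne
    rcases smul_eq_zero.1 h3.symm with h | h
    · exact hne h
    · exact Pow.one_ne (X := SS.simplex 0) (cst 0) h
  rw [hr, h5, map_zero]
  rfl

/-- converse direction -/
theorem Base.Ph_pt (B : Base) {V : SV} {t : ℕ} (ht : 1 ≤ t) (z : ZM (MapS (BB.pow 1) V) t)
    (hz : (PhE z).1 t = 0) {j : ℕ} (x : XL V j) : Ph (preZ b0 z) x.1 = 0 := by
  have h1 := B.Ph_deg ht simplex_zero_LF (preZ b0 z) x
  rcases Nat.lt_trichotomy j t with h | h | h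
  · exact h1.1 h
  · subst h
    rw [B.phy j ht (BB.pow 1) (SS.simplex 0) (B.bbf 1).1 simplex_zero_LF b0 V z x.1
      (B.lc_mem x).1, ← B.evB_PhE ht z j x, hz, LinearMap.zero_apply, map_zero, map_zero]
  · have h2 := h1.2 (le_of_lt h)
    rcases Pow.point simplex_zero_sub simplex_zero_ne (j - t) _ h2 with h3 | h3
    · omega
    · exact h3

theorem Base.final (B : Base) (C : CSV)
    (hx : ∀ t, 1 ≤ t →
      (∀ z : SHU.ES (XL (C.V 0)) t 1, z.1 t = 0 → dlE C 0 t 1 z = 0 → z = 0) ∧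
      ∀ s, ∀ z : SHU.ES (XL (C.V (s + 1))) t 1, z.1 t = 0 → dlE C (s + 1) t 1 z = 0 →
        ∃ y : SHU.ES (XL (C.V s)) t 1, y.1 t = 0 ∧ dlE C s t 1 y = z) : C.FINAL := by
  intro t ht
  -- common part
  have common : ∀ (s : ℕ) (z : (MapS BB (C.V s)).X t) (hz : z ∈ ZM (MapS BB (C.V s)) t),
      z ∈ PT (C.V s) t → PB (C.V (s + 1)) t (C.cf s z) →
      (PhE (preZ rho ⟨z, hz⟩)).1 t = 0 ∧ dlE C s t 1 (PhE (preZ rho ⟨z, hz⟩)) = 0 := by
    intro s z hz hp hb
    constructor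
    · apply B.PhE_top ht
      apply Subtype.ext
      apply HV.ext
      rintro n ⟨a, y⟩
      exact hp n a
    · rw [B.dlE_PhE C s t ht]
      apply B.PhE_zero ht
      rw [cfZ_val, preZ_val, cf_pmap]
      apply BM_pmap
      obtain ⟨w, _, h1, h2⟩ := hb
      exact ⟨w, h1, h2⟩
  have back : ∀ (V : SV), V.LF → ∀ (z1 : ZM (MapS (BB.pow 1) V) t), PhE z1 = 0 →
      (pmap sig V).f t z1.1 ∈ BM (MapS BB V) t := by
    intro V hV z1 h
    apply BM_pmap
    have h1 : PhE (0 : ZM (MapS (BB.pow 1) V) t) = 0 :=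
      B.PhE_zero ht 0 (Submodule.zero_mem _)
    have h2 := B.BM_of_PhE hV ht z1 0 (by rw [h, h1])
    have h3 : z1.1 + (0 : ZM (MapS (BB.pow 1) V) t).1 = z1.1 := add_zero _
    rwa [h3] at h2
  constructor
  · intro z hz hp hb
    obtain ⟨h1, h2⟩ := common 0 z hz hp hb
    have h3 := (hx t ht).1 _ h1 h2
    exact PB_of_BM hp (back (C.V 0) (C.lf 0) _ h3)
  · intro s z hz hp hb
    obtain ⟨h1, h2⟩ := common (s + 1) z hz hp hb
    obtain ⟨y, hy, hye⟩ := (hx t ht).2 s _ h1 h2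
    obtain ⟨w1, hw1, _⟩ := B.PhE_surj (C.lf s) ht y
    let w0 : ZM (MapS BB (C.V s)) t := preZ sig w1
    let w : ZM (MapS BB (C.V s)) t := w0 + preZ kz0 w0
    have hwP : w.1 ∈ PT (C.V s) t := by
      intro r a
      show w0.1.1 r (a, 0) + w0.1.1 r (a, 0) = 0
      exact mod_two _
    have hq : PhE (preZ (ptm (BB.pow 1)) (preZ b0 w1)) = 0 := by
      apply B.PhE_ext ht
      intro j x
      rw [B.phy t ht (SS.simplex 0) (BB.pow 1) simplex_zero_LF (B.bbf 1).1 (ptm _) (C.V s) _ x.1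
        (B.lc_mem x).1, B.Ph_pt ht w1 (by rw [hw1]; exact hy) x, map_zero]
      exact (map_zero (evB 1)).symm
    have hsplit : preZ rho w = w1 + preZ (ptm (BB.pow 1)) (preZ b0 w1) := by
      apply Subtype.ext
      apply HV.ext
      rintro n ⟨a, g⟩
      show w1.1.1 n (a, fun _ => g 0) + w1.1.1 n (a, fun _ => 0) =
        w1.1.1 n (a, g) + w1.1.1 n (a, fun _ => 0)
      have e : (fun _ => g 0 : Fin 1 → BB.X n) = g := by
        funext i
        rw [Subsingleton.elim i 0]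
      rw [e]
    have hPw : PhE (preZ rho w) = y := by
      rw [hsplit, B.PhE_add ht, hq, add_zero, hw1]
    refine ⟨w.1, w.2, hwP, ?_⟩
    have h3 : PhE (preZ rho ⟨z, hz⟩ + cfZ C s (preZ rho w)) = 0 := by
      rw [B.PhE_add ht, ← B.dlE_PhE C s t ht, hPw, hye]
      exact ES_two _
    have h4 := back (C.V (s + 1)) (C.lf (s + 1)) _ h3
    apply PB_of_BM
    · exact Submodule.add_mem _ hp (cf_PT C s hwP)
    · have h5 : (pmap sig (C.V (s + 1))).f t (preZ rho ⟨z, hz⟩ + cfZ C s (preZ rho w)).1 =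
          z + C.cf s w.1 := by
        have h6 : (preZ rho ⟨z, hz⟩ + cfZ C s (preZ rho w) : ZM (MapS (BB.pow 1) (C.V (s + 1))) t).1
            = (preZ rho ⟨z, hz⟩ : ZM (MapS (BB.pow 1) (C.V (s + 1))) t).1
              + (cfZ C s (preZ rho w)).1 := rfl
        rw [h6, map_add, cfZ_val, preZ_val, preZ_val, ← cf_pmap]
        rfl
      rw [h5] at h4
      exact h4

end Pool.Agent.SHL
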