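import Pool.Agent.SH.L.Stmts

/-!
LINK: the coefficient of `X_0^1` in the symmetric sums.
-/

namespace Pool.Agent.SHL.Msc

open MvPolynomial SHU Pool.Agent.SHS

/-- index set of `msym` -/
theorem mem_idx {d : ℕ} (J : Multiset ℕ) (i : Fin d → ℕ) :
    i ∈ (Fintype.piFinset (fun _ : Fin d => J.toFinset)).filter
      (fun i => Multiset.ofList (List.ofFn i) = J) ↔ Multiset.ofList (List.ofFn i) = J := by
  rw [Finset.mem_filter, and_iff_right_iff_imp]
  intro h
  rw [Fintype.mem_piFinset]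
  intro j
  rw [Multiset.mem_toFinset, ← h, Multiset.mem_coe, List.mem_ofFn]
  exact ⟨j, rfl⟩

theorem prod_succ {m : ℕ} (i : Fin (m + 1) → ℕ) :
    (∏ j, (X j : Pl (m + 1)) ^ (2 ^ (i j))) =
      X 0 ^ (2 ^ (i 0)) * rename Fin.succ (∏ j, (X j : Pl m) ^ (2 ^ (i j.succ))) := by
  rw [Fin.prod_univ_succ, map_prod]
  congr 1
  refine Finset.prod_congr rfl fun j _ => ?_
  rw [map_pow, rename_X]

theorem co1_pow_rename (m n : ℕ) (y : Pl m) :
    co1 m (X 0 ^ n * rename Fin.succ y) = if n = 1 then y else 0 := by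
  rw [co1_apply, map_mul, fse_rename_succ, map_pow, finSuccEquiv_X_zero, Polynomial.coeff_mul_C,
    Polynomial.coeff_X_pow]
  by_cases h : n = 1
  · rw [if_pos h.symm, if_pos h, one_mul]
  · rw [if_neg (fun h' => h h'.symm), if_neg h, zero_mul]

theorem co1_msym (m : ℕ) (J : Multiset ℕ) :
    co1 m (msym (m + 1) (0 ::ₘ J)) = msym m J := by
  rw [msym, map_sum]
  have h1 : ∀ i ∈ (Fintype.piFinset (fun _ : Fin (m + 1) => (0 ::ₘ J).toFinset)).filter
      (fun i => Multiset.ofList (List.ofFn i) = 0 ::ₘ J),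
      co1 m (∏ j, (X j : Pl (m + 1)) ^ (2 ^ (i j))) =
        if 2 ^ (i 0) = 1 then ∏ j, (X j : Pl m) ^ (2 ^ (i (Fin.succ j))) else 0 := by
    intro i _
    rw [prod_succ, co1_pow_rename]
  refine (Finset.sum_congr rfl h1).trans ?_
  rw [← Finset.sum_filter, msym]
  have h0 : ∀ n : ℕ, 2 ^ n = 1 → n = 0 := fun n hn => by
    rcases Nat.eq_zero_or_pos n with h | h
    · exact h
    · have := Nat.one_lt_two_pow (n := n) (by omega)
      omega
  refine Finset.sum_nbij' (fun i => Fin.tail i) (fun i => (Fin.cons 0 i : Fin (m + 1) → ℕ))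
    ?_ ?_ ?_ ?_ ?_
  · intro i hi
    rw [Finset.mem_filter, mem_idx] at hi
    obtain ⟨hi, hi0⟩ := hi
    have hi0 := h0 _ hi0
    rw [mem_idx]
    rw [List.ofFn_succ, ← Multiset.cons_coe, hi0, Multiset.cons_inj_right] at hi
    exact hi
  · intro i hi
    rw [mem_idx] at hi
    rw [Finset.mem_filter, mem_idx]
    refine ⟨?_, ?_⟩
    · rw [List.ofFn_succ, ← Multiset.cons_coe, Fin.cons_zero, Multiset.cons_inj_right]
      simpa using hi
    · simp
  · intro i hi
    rw [Finset.mem_filter, mem_idx] at hi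
    have hi0 := h0 _ hi.2
    have h := Fin.cons_self_tail i
    rw [hi0] at h
    exact h
  · intro i _
    exact Fin.tail_cons _ _
  · intro i _
    rfl

theorem lin_msym (m : ℕ) (J : Multiset ℕ) : lin (Lzero m) (msym (m + 1) J) = 0 := by
  rw [msym, map_sum]
  refine Finset.sum_eq_zero fun i _ => ?_
  rw [map_prod, Fin.prod_univ_succ, map_pow, lin_Lzero_zero, zero_pow (pow_ne_zero _ two_ne_zero),
    zero_mul]

end Pool.Agent.SHL.Msc

namespace Pool.Agent.SHL

theorem MSC : MSC_Stmt := fun m J _ => ⟨Msc.co1_msym m J, Msc.lin_msym m⟩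

end Pool.Agent.SHL
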