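import Pool.Agent.SH.L.Stmts

/-!
LINK: additivity of the slant product for all reduced classes, vanishing on decomposables.
-/

namespace Pool.Agent.SHL

open Pool.Agent.SHS

theorem PHA (h1 : PH1_Stmt) (hR : RCH_Stmt) (hE : EMR_Stmt) (hV : PHV_Stmt) (hL : PHL_Stmt)
    (hB : PHB_Stmt) (hC : LCM_Stmt) : PHA_Stmt := by
  have _ := h1
  intro t ht Y _hY V z z' j hj a ha
  obtain ⟨A, hA, rfl⟩ := hE V j hj a ha
  have hio : iota j ∈ LC (EM j) j := hC.2 j
  have hioR : iota j ∈ RC (EM j) := (hR (EM j)).2.1 j hio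
  rw [← hV t Y V (EM j) A hA (z + z'), ← hV t Y V (EM j) A hA z, ← hV t Y V (EM j) A hA z']
  set b : ZM (MapS Y (EM j)) t := appZ A hA (z + z') + appZ A hA z + appZ A hA z' with hb
  have hbB : b.1 ∈ BM (MapS Y (EM j)) t := by
    obtain ⟨t', rfl⟩ : ∃ t', t = t' + 1 := ⟨t - 1, by omega⟩
    exact app_add (U := MapS Y V) (W := MapS Y (EM j)) (mapApp Y A) (mapApp_zero Y A hA) z.2 z'.2
  have hsplit : appZ A hA (z + z') = appZ A hA z + appZ A hA z' + b := by
    have h1 := mod_two (appZ A hA z)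
    have h2 := mod_two (appZ A hA z')
    have h3 : appZ A hA z + appZ A hA z' + b =
        appZ A hA (z + z') + (appZ A hA z + appZ A hA z) + (appZ A hA z' + appZ A hA z') := by
      rw [hb]
      abel
    rw [h3, h1, h2, add_zero, add_zero]
  rw [hsplit, hL t Y (EM j) _ b j _ hio, hL t Y (EM j) _ _ j _ hio, hB t ht Y (EM j) b hbB _ hioR,
    add_zero]

theorem PHD (h1 : PH1_Stmt) (hR : RCH_Stmt) (hs : SKT_Stmt) (hk : SK_Stmt) (he : EPS1_Stmt) :
    PHD_Stmt := by
  intro Y hY V z a ha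
  have hRC : ∀ (j : ℕ) (x : H V.toSS), x ∈ Hn V.toSS (j + 1) → x ∈ RC V := fun j x hx =>
    (hR V).1 (j + 1) (by omega) hx
  have hmem : ∀ x : H V.toSS, x ∈ RC V ↔ H.map (zmap (SS.simplex 0) V) x = 0 := fun _ => Iff.rfl
  unfold Dec at ha
  induction ha using Submodule.span_induction with
  | zero => exact map_zero _
  | add x y _ _ hx hy => rw [map_add, hx, hy, add_zero]
  | smul c x _ hx => rw [map_smul, hx, smul_zero]
  | mem c hc =>
    obtain ⟨m, n, x, y, hx, hy, rfl⟩ := hc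
    have hxR := hRC m x hx
    have hyR := hRC n y hy
    have hxyR : x * y ∈ RC V := by
      rw [hmem] at hxR ⊢
      rw [map_mul, hxR, zero_mul]
    have e1 := (h1 1 le_rfl Y hY V z).1
    apply (hs 1 le_rfl Y hY).1
    rw [map_zero, e1 _ hxyR, map_mul, ← e1 x hxR, ← e1 y hyR, mulE_apply, mulE_apply]
    have h2 : H.map (SS.fst (Sph 1) Y) (eps 1) * H.map (SS.fst (Sph 1) Y) (eps 1) = 0 := by
      rw [← map_mul]
      have h3 : eps 1 * eps 1 = 0 := by
        rw [he]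
        exact hk.1
      rw [h3, map_zero]
    calc H.map (SS.fst (Sph 1) Y) (eps 1) * H.map (SS.snd (Sph 1) Y) (Ph z x) *
          (H.map (SS.fst (Sph 1) Y) (eps 1) * H.map (SS.snd (Sph 1) Y) (Ph z y))
        = H.map (SS.fst (Sph 1) Y) (eps 1) * H.map (SS.fst (Sph 1) Y) (eps 1) *
          (H.map (SS.snd (Sph 1) Y) (Ph z x) * H.map (SS.snd (Sph 1) Y) (Ph z y)) := by ring
      _ = 0 := by rw [h2, zero_mul]

end Pool.Agent.SHL
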