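import Pool.Agent.SH.L.Stmts

/-!
LINK: first properties of the slant product `Ph`.
-/

namespace Pool.Agent.SHL

open Pool.Agent.SHS

namespace Phb

open Coch

theorem hom_ext {X Y : SS} {f g : SS.Hom X Y} (h : ∀ n x, f.f n x = g.f n x) : f = g := by
  cases f
  cases g
  congr
  funext n x
  exact h n x

theorem hom_bpt {Y : SS} {V : SV} {t : ℕ} (z : ZM (MapS Y V) t) :
    (HV.hom (sph z)).comp (bpt t Y) = zmap Y V := rfl

/-- `id × φ`. -/
def idx {Y Y' : SS} (t : ℕ) (φ : SS.Hom Y' Y) : SS.Hom ((Sph t).prod Y') ((Sph t).prod Y) where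
  f n x := (x.1, φ.f n x.2)
  nat a x := Prod.ext rfl (φ.nat a x.2)

theorem mulE_nat {Y Y' : SS} (t : ℕ) (φ : SS.Hom Y' Y) (b : H Y) :
    mulE t Y' (H.map φ b) = H.map (idx t φ) (mulE t Y b) := by
  rw [mulE_apply, mulE_apply, map_mul, ← H.map_comp, ← H.map_comp, ← H.map_comp]
  rfl

theorem hom_preZ {Y Y' : SS} {V : SV} {t : ℕ} (φ : SS.Hom Y' Y) (z : ZM (MapS Y V) t) :
    HV.hom (sph (preZ φ z)) = (HV.hom (sph z)).comp (idx t φ) := by
  apply hom_ext
  rintro n ⟨o, y⟩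
  cases o with
  | none => rfl
  | some b => rfl

theorem hom_appZ {Y : SS} {V W : SV} {t : ℕ} (g : SS.Hom V.toSS W.toSS) (hg : ∀ n, g.f n 0 = 0)
    (z : ZM (MapS Y V) t) : HV.hom (sph (appZ g hg z)) = g.comp (HV.hom (sph z)) := by
  apply hom_ext
  rintro n ⟨o, y⟩
  cases o with
  | none => exact (hg n).symm
  | some b => rfl

theorem map_add_lin {X : SS} {V : SV} (F G : HV X V) (j : ℕ) (a : H V.toSS) (ha : a ∈ LC V j) :
    H.map (HV.hom (F + G)) a = H.map (HV.hom F) a + H.map (HV.hom G) a := by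
  obtain ⟨l, h, rfl⟩ := ha
  unfold clsN
  rw [H.map_cls, H.map_cls, H.map_cls, ← map_add cls]
  congr 1
  apply Subtype.ext
  show Coch.pull (HV.hom (F + G)) (single j fun x => l x) =
    Coch.pull (HV.hom F) (single j fun x => l x) + Coch.pull (HV.hom G) (single j fun x => l x)
  ext m x
  rw [cadd_apply, pull_apply, pull_apply, pull_apply]
  by_cases hm : m = j
  · subst hm
    rw [single_self, single_self, single_self]
    exact map_add l (F.1 m x) (G.1 m x)
  · rw [single_ne hm, single_ne hm, single_ne hm, add_zero]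

end Phb

theorem PH1 (hs : SKT_Stmt) (h0 : ZM0_Stmt) : PH1_Stmt := by
  intro t ht Y hY V z
  obtain ⟨hinj, hker, hdeg, hlow⟩ := hs t ht Y hY
  have key : ∀ a ∈ RC V, mulE t Y (Ph z a) = H.map (HV.hom (sph z)) a := by
    intro a ha
    have h1 : H.map (bpt t Y) (H.map (HV.hom (sph z)) a) = 0 := by
      rw [← H.map_comp, Phb.hom_bpt]
      exact h0 Y V a ha
    obtain ⟨b, hb⟩ := hker _ h1
    show mulE t Y (mulEinv t Y (H.map (HV.hom (sph z)) a)) = _
    rw [← hb, mulEinv_mulE hinj]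
  refine ⟨key, fun j a ha har => ⟨fun hj => ?_, fun hj => ?_⟩⟩
  · have h2 := H.map_mem (HV.hom (sph z)) ha
    rw [← key a har] at h2
    exact hlow j _ hj h2
  · have h2 := H.map_mem (HV.hom (sph z)) ha
    rw [← key a har] at h2
    apply hdeg
    rw [Nat.sub_add_cancel hj]
    exact h2

theorem PHY (h1 : PH1_Stmt) (hs : SKT_Stmt) : PHY_Stmt := by
  intro t ht Y Y' hY hY' φ V z a ha
  obtain ⟨hinj, -, -, -⟩ := hs t ht Y' hY'
  apply hinj
  rw [(h1 t ht Y' hY' V (preZ φ z)).1 a ha, Phb.mulE_nat, (h1 t ht Y hY V z).1 a ha,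
    ← H.map_comp, Phb.hom_preZ]

theorem PHV : PHV_Stmt := by
  intro t Y V W g hg z a
  show mulEinv t Y (H.map (HV.hom (sph (appZ g hg z))) a) =
    mulEinv t Y (H.map (HV.hom (sph z)) (H.map g a))
  rw [Phb.hom_appZ, H.map_comp]

theorem PHL : PHL_Stmt := by
  intro t Y V z z' j a ha
  show mulEinv t Y (H.map (HV.hom (sph (z + z'))) a) =
    mulEinv t Y (H.map (HV.hom (sph z)) a) + mulEinv t Y (H.map (HV.hom (sph z')) a)
  rw [← map_add (mulEinv t Y), map_add sph, Phb.map_add_lin (sph z) (sph z') j a ha]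

end Pool.Agent.SHL
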