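import Pool.Agent.SH.L.Stmts
import Pool.Agent.SH.S.Kun

/-!
LINK: comparison of the slant products in dimensions `t + 1` and `t`.
-/

namespace Pool.Agent.SHL

open Pool.Agent.SHS

namespace Phh

open Coch

/-- A surjective monotone map `[n] → [n]` is the identity. -/
theorem val_of_surj {n : ℕ} (f : Mor n n) (h : Function.Surjective f) (i : Fin (n + 1)) :
    (f i : ℕ) = i.1 := by
  have hinj : Function.Injective f := Finite.injective_iff_surjective.mpr h
  have hmono : StrictMono f := f.monotone.strictMono_of_injective hinj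
  let e : Fin (n + 1) ≃o Fin (n + 1) := StrictMono.orderIsoOfSurjective f hmono h
  have he : e = OrderIso.refl _ := Subsingleton.elim _ _
  have h1 : e i = i := by rw [he]; rfl
  have h2 : f i = i := h1
  rw [h2]

theorem joinF_val {n t : ℕ} (a : Mor n t) (e : Mor n 1) (v : Fin (n + 1)) :
    ((joinF a e) v : ℕ) = if (a v).1 < t then (a v).1 else t + (e v).1 := rfl

theorem joinF_surj_iff {t : ℕ} (a : Mor (t + 1) t) (e : Mor (t + 1) 1) :
    Function.Surjective (joinF a e) ↔
      Function.Surjective (a.comp (fr t (t + 1))) ∧ Function.Surjective (e.comp (bk 1 (t + 1))) := by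
  constructor
  · intro h
    have h1 := val_of_surj _ h
    have ha : ∀ v : Fin (t + 2), v.1 ≤ t → (a v).1 = v.1 := by
      intro v hv
      have h2 := h1 v
      rw [joinF_val] at h2
      have h3 := (a v).2
      have h4 := (e v).2
      split_ifs at h2 <;> omega
    have he : ∀ v : Fin (t + 2), t ≤ v.1 → t + (e v).1 = v.1 := by
      intro v hv
      have h2 := h1 v
      rw [joinF_val] at h2
      split_ifs at h2 <;> omega
    constructor
    · intro i
      refine ⟨i, Fin.ext ?_⟩
      have hi := i.2
      have h2 : ((fr t (t + 1)) i : ℕ) = i.1 := by rw [fr_val]; omega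
      show (a ((fr t (t + 1)) i)).1 = i.1
      rw [ha _ (by omega), h2]
    · intro i
      refine ⟨i, Fin.ext ?_⟩
      have hi := i.2
      have h2 : ((bk 1 (t + 1)) i : ℕ) = t + i.1 := by rw [bk_val]; omega
      show (e ((bk 1 (t + 1)) i)).1 = i.1
      have h3 := he ((bk 1 (t + 1)) i) (by omega)
      omega
  · rintro ⟨ha, he⟩
    have ha1 := val_of_surj _ ha
    have he1 := val_of_surj _ he
    have ha2 : ∀ v : Fin (t + 2), v.1 ≤ t → (a v).1 = v.1 := by
      intro v hv
      have h1 := ha1 ⟨v.1, by omega⟩
      rw [comp_val] at h1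
      have h2 : (fr t (t + 1)) ⟨v.1, by omega⟩ = v := Fin.ext (by rw [fr_val]; simp only; omega)
      rw [h2] at h1
      exact h1
    have he2 : ∀ v : Fin (t + 2), t ≤ v.1 → t + (e v).1 = v.1 := by
      intro v hv
      have hv2 := v.2
      have h1 := he1 ⟨v.1 - t, by omega⟩
      rw [comp_val] at h1
      have h2 : (bk 1 (t + 1)) ⟨v.1 - t, by omega⟩ = v := Fin.ext (by rw [bk_val]; simp only; omega)
      rw [h2] at h1
      simp only at h1
      omega
    intro i
    refine ⟨i, Fin.ext ?_⟩
    rw [joinF_val]
    have hi := i.2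
    by_cases h : i.1 ≤ t
    · have h1 := ha2 i h
      split_ifs with h2
      · exact h1
      · have h3 : i.1 = t := by omega
        exact he2 i (by omega)
    · have h0 : t ≤ (a i).1 := by
        have h1 := ha2 ⟨t, by omega⟩ (by simp)
        have h2 : (a ⟨t, by omega⟩).1 ≤ (a i).1 := a.monotone (by
          show t ≤ i.1
          omega)
        rw [h1] at h2
        exact h2
      rw [if_neg (by omega)]
      exact he2 i (by omega)

open Classical in
/-- The function underlying `kap0`. -/
noncomputable def kapFun (t n : ℕ) : Option {a : Mor n t // Function.Surjective a} →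
    Option {a : Mor n 1 // Function.Surjective a} →
    Option {a : Mor n (t + 1) // Function.Surjective a}
  | none, _ => none
  | some _, none => none
  | some a, some e =>
    if h : Function.Surjective (joinF a.1 e.1) then some ⟨joinF a.1 e.1, h⟩ else none

theorem kapFun_none_right (t n : ℕ) (o : Option {a : Mor n t // Function.Surjective a}) :
    kapFun t n o none = none := by
  cases o <;> rfl

theorem kapFun_pos {t n : ℕ} (a : {a : Mor n t // Function.Surjective a})
    (e : {a : Mor n 1 // Function.Surjective a}) (h : Function.Surjective (joinF a.1 e.1)) :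
    kapFun t n (some a) (some e) = some ⟨joinF a.1 e.1, h⟩ := dif_pos h

theorem kapFun_neg {t n : ℕ} (a : {a : Mor n t // Function.Surjective a})
    (e : {a : Mor n 1 // Function.Surjective a}) (h : ¬ Function.Surjective (joinF a.1 e.1)) :
    kapFun t n (some a) (some e) = none := dif_neg h

/-- `S^t × S^1 → S^(t+1)`. -/
noncomputable def kap0 (t : ℕ) : SS.Hom ((Sph t).prod S1) (Sph (t + 1)) where
  f n x := kapFun t n x.1 x.2
  nat {m n} c x := by
    obtain ⟨o, o'⟩ := x
    cases o with
    | none => rfl
    | some a =>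
      cases o' with
      | none => exact kapFun_none_right t m _
      | some e =>
        show kapFun t m ((PS.sphere t).map c a) ((PS.sphere 1).map c e) =
          (kapFun t n (some a) (some e)).bind ((PS.sphere (t + 1)).map c)
        by_cases h : Function.Surjective ((joinF a.1 e.1).comp c)
        · have h0 : Function.Surjective (joinF (a.1.comp c) (e.1.comp c)) := h
          have h1 : Function.Surjective (a.1.comp c) := joinF_left _ _ h0
          have h2 : Function.Surjective (e.1.comp c) := joinF_right _ _ h0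
          have h3 : Function.Surjective (joinF a.1 e.1) := by
            intro i
            obtain ⟨v, hv⟩ := h i
            exact ⟨c v, hv⟩
          rw [sphere_map_pos c a h1, sphere_map_pos c e h2, kapFun_pos _ _ h3]
          show _ = (PS.sphere (t + 1)).map c ⟨joinF a.1 e.1, h3⟩
          rw [sphere_map_pos c ⟨joinF a.1 e.1, h3⟩ h]
          exact kapFun_pos ⟨a.1.comp c, h1⟩ ⟨e.1.comp c, h2⟩ h
        · have hl : kapFun t m ((PS.sphere t).map c a) ((PS.sphere 1).map c e) = none := by
            by_cases h1 : Function.Surjective (a.1.comp c)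
            · by_cases h2 : Function.Surjective (e.1.comp c)
              · rw [sphere_map_pos c a h1, sphere_map_pos c e h2]
                exact kapFun_neg ⟨a.1.comp c, h1⟩ ⟨e.1.comp c, h2⟩ h
              · rw [sphere_map_neg c e h2]
                exact kapFun_none_right t m _
            · rw [sphere_map_neg c a h1]
              rfl
          rw [hl]
          by_cases h3 : Function.Surjective (joinF a.1 e.1)
          · rw [kapFun_pos _ _ h3]
            exact (sphere_map_neg c ⟨joinF a.1 e.1, h3⟩ h).symm
          · rw [kapFun_neg _ _ h3]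
            rfl

/-- `S^t × (S^1 × Y) → S^(t+1) × Y`. -/
noncomputable def kap (t : ℕ) (Y : SS) :
    SS.Hom ((Sph t).prod (S1.prod Y)) ((Sph (t + 1)).prod Y) :=
  ((kap0 t).comp ((SS.fst (Sph t) (S1.prod Y)).pair
    ((SS.fst S1 Y).comp (SS.snd (Sph t) (S1.prod Y))))).pair
    ((SS.snd S1 Y).comp (SS.snd (Sph t) (S1.prod Y)))

theorem hom_eq {Y : SS} {V : SV} {t : ℕ} (z : ZM (MapS Y V) (t + 1)) :
    HV.hom (sph (hh z)) = (HV.hom (sph z)).comp (kap t Y) := by
  have h : ∀ (n : ℕ) (x : ((Sph t).prod (S1.prod Y)).X n),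
      (HV.hom (sph (hh z))).f n x = ((HV.hom (sph z)).comp (kap t Y)).f n x := by
    rintro n ⟨o, o', y⟩
    cases o with
    | none => rfl
    | some a =>
      cases o' with
      | none => rfl
      | some e =>
        show z.1.1 n (joinF a.1 e.1, y) = sphFun z.1 n (kapFun t n (some a) (some e), y)
        by_cases hs : Function.Surjective (joinF a.1 e.1)
        · rw [kapFun_pos _ _ hs]
          rfl
        · rw [kapFun_neg _ _ hs]
          exact mem_ZM_val z.2 _ hs y
  have h' : (HV.hom (sph (hh z))).f = ((HV.hom (sph z)).comp (kap t Y)).f := by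
    funext n x
    exact h n x
  cases hA : HV.hom (sph (hh z))
  cases hB : (HV.hom (sph z)).comp (kap t Y)
  rw [hA, hB] at h'
  cases h'
  rfl

theorem eps_eq (he : EPS_Stmt) (t : ℕ) : eps t = clsN t (epsC t) (he t) := by
  unfold eps
  rw [dif_pos (he t)]

theorem epsC_kap (t : ℕ) (x : ((Sph t).prod S1).X (t + 1)) :
    epsC (t + 1) ((kap0 t).f (t + 1) x) =
      epsC t ((Sph t).map (fr t (t + 1)) x.1) * epsC 1 (S1.map (bk 1 (t + 1)) x.2) := by
  obtain ⟨o, o'⟩ := x
  cases o with
  | none => exact (zero_mul _).symm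
  | some a =>
    cases o' with
    | none => exact (mul_zero _).symm
    | some e =>
      show epsC (t + 1) (kapFun t (t + 1) (some a) (some e)) =
        epsC t ((PS.sphere t).map (fr t (t + 1)) a) * epsC 1 ((PS.sphere 1).map (bk 1 (t + 1)) e)
      by_cases h : Function.Surjective (joinF a.1 e.1)
      · obtain ⟨h1, h2⟩ := (joinF_surj_iff a.1 e.1).1 h
        rw [kapFun_pos _ _ h, sphere_map_pos _ a h1, sphere_map_pos _ e h2]
        exact (one_mul (1 : k)).symm
      · rw [kapFun_neg _ _ h]
        by_cases h1 : Function.Surjective (a.1.comp (fr t (t + 1)))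
        · have h2 : ¬ Function.Surjective (e.1.comp (bk 1 (t + 1))) :=
            fun h2 => h ((joinF_surj_iff a.1 e.1).2 ⟨h1, h2⟩)
          rw [sphere_map_neg _ e h2]
          exact (mul_zero _).symm
        · rw [sphere_map_neg _ a h1]
          exact (zero_mul _).symm

theorem map_kap0 (he : EPS_Stmt) (t : ℕ) :
    H.map (kap0 t) (eps (t + 1)) =
      H.map (SS.fst (Sph t) S1) (eps t) * H.map (SS.snd (Sph t) S1) (eps 1) := by
  rw [eps_eq he (t + 1), eps_eq he t, eps_eq he 1]
  unfold clsN
  rw [H.map_cls, H.map_cls, H.map_cls, ← map_mul]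
  congr 1
  apply Subtype.ext
  show Coch.pull (kap0 t) (single (t + 1) (epsC (t + 1))) =
    Coch.pull (SS.fst (Sph t) S1) (single t (epsC t)) *
      Coch.pull (SS.snd (Sph t) S1) (single 1 (epsC 1))
  rw [Kun.cross_single t 1 (t + 1) rfl]
  ext n x
  rw [pull_apply]
  by_cases hn : n = t + 1
  · subst hn
    rw [single_self, single_self]
    exact epsC_kap t x
  · rw [single_ne hn, single_ne hn]

end Phh

open Phh in
theorem PHH (h1 : PH1_Stmt) (hs : SKT_Stmt) (he : EPS_Stmt) (hf : SPHF_Stmt) : PHH_Stmt := by
  intro t ht Y hY V z a ha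
  have hSY : (S1.prod Y).LF := by
    intro n
    have i1 : Finite (S1.X n) := hf 1 n
    have i2 : Finite (Y.X n) := hY n
    show Finite (S1.X n × Y.X n)
    infer_instance
  apply (hs t ht (S1.prod Y) hSY).1
  rw [(h1 t ht (S1.prod Y) hSY V (hh z)).1 a ha, hom_eq, H.map_comp,
    ← (h1 (t + 1) (by omega) Y hY V z).1 a ha, mulE_apply, mulE_apply, mulE_apply, map_mul, map_mul,
    ← mul_assoc]
  have e1 : H.map (kap t Y) (H.map (SS.fst (Sph (t + 1)) Y) (eps (t + 1))) =
      H.map (SS.fst (Sph t) (S1.prod Y)) (eps t) *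
        H.map (SS.snd (Sph t) (S1.prod Y)) (H.map (SS.fst S1 Y) (eps 1)) := by
    have e2 : H.map (kap t Y) (H.map (SS.fst (Sph (t + 1)) Y) (eps (t + 1))) =
        H.map ((SS.fst (Sph t) (S1.prod Y)).pair
          ((SS.fst S1 Y).comp (SS.snd (Sph t) (S1.prod Y)))) (H.map (kap0 t) (eps (t + 1))) := by
      rw [← H.map_comp, ← H.map_comp]
      rfl
    rw [e2, map_kap0 he, map_mul, ← H.map_comp, ← H.map_comp, ← H.map_comp]
    rfl
  have e3 : H.map (kap t Y) (H.map (SS.snd (Sph (t + 1)) Y) (Ph z a)) =
      H.map (SS.snd (Sph t) (S1.prod Y)) (H.map (SS.snd S1 Y) (Ph z a)) := by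
    rw [← H.map_comp, ← H.map_comp]
    rfl
  rw [e1, e3]

end Pool.Agent.SHL
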