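import Pool.Agent.SH.L.Stmts
import Pool.Agent.SH.UA3

/-!
Block LINK: natural operations and symmetric sums.
-/

namespace Pool.Agent.SHL

open Pool.Agent.SHS MvPolynomial

namespace Psi

/-- The multiset of the values. -/
def gm {m : ℕ} (a : Fin m → ℕ) : Multiset ℕ := Multiset.ofList (List.ofFn a)

theorem gm_eq {m : ℕ} (a : Fin m → ℕ) : gm a = Finset.univ.val.map a :=
  (Fin.univ_val_map a).symm

theorem gm_card {m : ℕ} (a : Fin m → ℕ) : Multiset.card (gm a) = m := by
  rw [gm_eq, Multiset.card_map]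
  simp

theorem gm_mem {m : ℕ} (a : Fin m → ℕ) (i : Fin m) : a i ∈ gm a := by
  rw [gm_eq]
  exact Multiset.mem_map_of_mem a (Finset.mem_univ i)

theorem gm_wgt {m : ℕ} (a : Fin m → ℕ) : wgt (gm a) = ∑ i, 2 ^ (a i) := by
  unfold wgt
  rw [gm_eq, Multiset.map_map]
  rfl

theorem ty_eq {m : ℕ} (a : Fin m → ℕ) : SHU.ty a = Multiset.toFinsupp (gm a) := by
  have h : gm a = ∑ i, ({a i} : Multiset ℕ) := by
    rw [gm_eq]
    conv_lhs => rw [← Multiset.sum_map_singleton (Finset.univ.val.map a)]
    rw [Multiset.map_map]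
    rfl
  rw [h, map_sum, SHU.ty]
  apply Finset.sum_congr rfl
  intro i _
  rw [Multiset.toFinsupp_singleton]

theorem mono_eq {m : ℕ} (a : Fin m → ℕ) :
    (∏ j, X j ^ (2 ^ (a j)) : MvPolynomial (Fin m) k) = monomial (SHU.xp a) 1 := by
  rw [SHU.xp, monomial_sum_one]
  refine Finset.prod_congr rfl fun i _ => ?_
  rw [X_pow_eq_monomial]

theorem msym_eq (m : ℕ) (J : Multiset ℕ) (N : ℕ) (hN : ∀ x ∈ J, x < N) :
    msym m J = ∑ a ∈ (Fintype.piFinset (fun _ : Fin m => Finset.range N)).filter
      (fun a => gm a = J), monomial (SHU.xp a) (1 : ZMod 2) := by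
  unfold msym
  have hset : (Fintype.piFinset (fun _ : Fin m => J.toFinset)).filter
      (fun i => Multiset.ofList (List.ofFn i) = J)
      = (Fintype.piFinset (fun _ : Fin m => Finset.range N)).filter (fun a => gm a = J) := by
    ext a
    rw [Finset.mem_filter, Finset.mem_filter, Fintype.mem_piFinset, Fintype.mem_piFinset]
    constructor
    · rintro ⟨_, h2⟩
      refine ⟨fun i => ?_, h2⟩
      rw [Finset.mem_range]
      apply hN
      have h3 : gm a = J := h2
      rw [← h3]
      exact gm_mem a i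
    · rintro ⟨_, h2⟩
      refine ⟨fun i => ?_, h2⟩
      rw [Multiset.mem_toFinset, ← h2]
      exact gm_mem a i
  rw [hset]
  exact Finset.sum_congr rfl fun a _ => mono_eq a

end Psi

open Psi in
theorem PSI : PSI_Stmt := by
  classical
  intro J
  set q : (ℕ →₀ ℕ) → ZMod 2 := fun M => if M = Multiset.toFinsupp J then 1 else 0 with hq
  have hJ : ∀ {m : ℕ} (a : Fin m → ℕ), SHU.ty a = Multiset.toFinsupp J ↔ gm a = J := by
    intro m a
    rw [ty_eq]
    exact Multiset.toFinsupp.injective.eq_iff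
  refine ⟨SHU.op (J.sum + 1) (Multiset.card J) q, ?_, ?_⟩
  · apply SHU.op_IsNP
    intro a ha
    have h1 : SHU.ty a = Multiset.toFinsupp J := by
      by_contra hne
      apply ha
      rw [hq]
      exact if_neg hne
    rw [← gm_wgt, (hJ a).mp h1]
  · rw [SHU.op_Un, msym_eq (Multiset.card J) J (J.sum + 1) (fun x hx =>
      Nat.lt_succ_of_le (Multiset.le_sum_of_mem hx)), Finset.sum_filter]
    apply Finset.sum_congr rfl
    intro a _
    rw [hq]
    simp only [hJ]
    split_ifs
    · rw [one_smul]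
    · rw [zero_smul]

open Psi in
theorem NPJ : NPJ_Stmt := by
  classical
  intro m n f hf
  rw [hf.Un_eq n le_rfl]
  set S := Fintype.piFinset (fun _ : Fin m => Finset.range n) with hS
  rw [← Finset.sum_fiberwise_of_maps_to (s := S) (t := S.image gm) (g := gm)
    (fun a ha => Finset.mem_image_of_mem gm ha)]
  apply Submodule.sum_mem
  intro J hJ
  obtain ⟨b, hb, rfl⟩ := Finset.mem_image.mp hJ
  have h1 : ∑ a ∈ S.filter (fun a => gm a = gm b),
      SHU.mt m f (SHU.ty a) • monomial (SHU.xp a) (1 : ZMod 2)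
      = SHU.mt m f (SHU.ty b) • msym m (gm b) := by
    rw [msym_eq m (gm b) n, Finset.smul_sum]
    · apply Finset.sum_congr rfl
      intro a ha
      rw [Finset.mem_filter] at ha
      rw [ty_eq a, ty_eq b, ha.2]
    · intro x hx
      rw [gm_eq] at hx
      obtain ⟨i, _, rfl⟩ := Multiset.mem_map.mp hx
      rw [hS, Fintype.mem_piFinset] at hb
      exact Finset.mem_range.mp (hb i)
  rw [h1]
  by_cases h0 : SHU.mt m f (SHU.ty b) = 0
  · rw [h0, zero_smul]
    exact Submodule.zero_mem _
  · apply Submodule.smul_mem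
    apply Submodule.subset_span
    refine ⟨gm b, gm_card b, ?_, rfl⟩
    rw [gm_wgt]
    exact hf.mt_ty_sum b h0

end Pool.Agent.SHL
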