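import Pool.Agent.SH.L.Stmts
import Pool.Agent.SH.S.Pow

/-!
LINK: reduced classes and linear classes (module SHL_RCH).
-/

namespace Pool.Agent.SHL

open Pool.Agent.SHS Coch

namespace Rch

theorem sub0 (n : ℕ) : Subsingleton ((SS.simplex 0).X n) := by
  constructor
  intro a b
  apply OrderHom.ext
  funext i
  apply Fin.ext
  have h1 := (a i).2
  have h2 := (b i).2
  omega

theorem ne0 (n : ℕ) : Nonempty ((SS.simplex 0).X n) := ⟨cst 0⟩

/-- The map to the point. -/
def toPt (Y : SS) : SS.Hom Y (SS.simplex 0) where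
  f _ _ := cst 0
  nat {m _} _ _ := (sub0 m).elim _ _

theorem map_zmap_clsN {Y : SS} {V : SV} (j : ℕ) (l : V.X j →ₗ[k] k)
    (h : V.toSS.cm.delta j (fun x => l x) = 0) :
    H.map (zmap Y V) (clsN j (fun x => l x) h) = 0 := by
  unfold clsN
  rw [H.map_cls]
  rw [cls_eq_zero]
  refine ⟨0, ?_⟩
  rw [map_zero]
  ext m x
  show (0 : k) = single (X := V.toSS) j (fun x => l x) m (0 : V.X m)
  by_cases hm : m = j
  · subst hm
    rw [single_self]
    exact (map_zero l).symm
  · exact (single_ne hm _ _).symm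

theorem delta_pull {V W : SV} (L : SV.Hom V W) (j : ℕ) (l : W.X j →ₗ[k] k)
    (h : W.toSS.cm.delta j (fun x => l x) = 0) :
    V.toSS.cm.delta j (fun x => (l.comp (L.f j)) x) = 0 := by
  funext y
  have h1 := congrArg (fun F : W.X (j + 1) → k => F (L.f (j + 1) y)) h
  rw [CM.delta_apply] at h1 ⊢
  simp only [Finset.sum_apply] at h1 ⊢
  refine Eq.trans ?_ h1
  apply Finset.sum_congr rfl
  intro i _
  show l (L.f j (V.map (cof i) y)) = l (W.map (cof i) (L.f (j + 1) y))
  rw [L.nat]

end Rch

open Rch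

theorem RCH : RCH_Stmt := by
  intro V
  refine ⟨?_, ?_, ?_, ?_⟩
  · intro j hj a ha
    show H.map (zmap (SS.simplex 0) V) a = 0
    rcases Pow.point sub0 ne0 j _ (H.map_mem (zmap (SS.simplex 0) V) ha) with ⟨h, _⟩ | h
    · omega
    · exact h
  · rintro j a ⟨l, h, rfl⟩
    exact map_zmap_clsN j l h
  · rintro j a ⟨l, h, rfl⟩
    exact clsN_mem _ _ _
  · intro hV j
    haveI : Finite (V.X j) := hV j
    haveI : Finite (V.X j →ₗ[k] k) :=
      Finite.of_injective (fun l : V.X j →ₗ[k] k => (l : V.X j → k)) DFunLike.coe_injective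
    let f : {l : V.X j →ₗ[k] k // V.toSS.cm.delta j (fun x => l x) = 0} → LC V j :=
      fun l => ⟨clsN j (fun x => l.1 x) l.2, l.1, l.2, rfl⟩
    apply Finite.of_surjective f
    rintro ⟨a, l, h, rfl⟩
    exact ⟨⟨l, h⟩, rfl⟩

theorem ZM0 : ZM0_Stmt := by
  intro Y V a ha
  have e : zmap Y V = (zmap (SS.simplex 0) V).comp (toPt Y) := rfl
  rw [e, H.map_comp, show H.map (zmap (SS.simplex 0) V) a = 0 from ha, map_zero]

theorem LCM : LCM_Stmt := by
  refine ⟨?_, ?_⟩
  · rintro V W L j a ⟨l, h, rfl⟩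
    refine ⟨l.comp (L.f j), delta_pull L j l h, ?_⟩
    unfold clsN
    rw [H.map_cls]
    congr 1
    apply Subtype.ext
    ext m x
    by_cases hm : m = j
    · subst hm
      show single (X := V.toSS) m (fun x => (l.comp (L.f m)) x) m x =
        single (X := W.toSS) m (fun x => l x) m (L.f m x)
      rw [single_self, single_self]
      rfl
    · show single (X := V.toSS) j (fun x => (l.comp (L.f j)) x) m x =
        single (X := W.toSS) j (fun x => l x) m (L.f m x)
      rw [single_ne hm, single_ne hm]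
  · intro n
    let l : EMsub n n →ₗ[k] k :=
      { toFun := fun z => z.1 OrderHom.id
        map_add' := fun _ _ => rfl
        map_smul' := fun _ _ => rfl }
    have h : (EM n).toSS.cm.delta n (fun x => l x) = 0 := by
      have h1 := dlt_iotaC n
      unfold iotaC at h1
      rw [dlt_single] at h1
      exact single_inj (h1.trans (single_zero _).symm)
    exact ⟨l, h, rfl⟩

end Pool.Agent.SHL
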