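import Pool.Agent.SH.L.Stmts

/-!
LINK: the Kuenneth theorem for `S^t × Y`.
-/

namespace Pool.Agent.SHL

open Pool.Agent.SHS

namespace Skt

open Coch

/-- Components determine a class. -/
theorem sep {X : SS} (a : H X) (h : ∀ n, Hpr n a = 0) : a = 0 := by
  obtain ⟨f, rfl⟩ := cls_surjective a
  have h1 : ∀ n, ∃ g : Coch X, dlt g = prn n f.1 := by
    intro n
    have h2 := h n
    rw [Hpr_cls, cls_eq_zero] at h2
    exact h2
  choose g hg using h1
  rw [cls_eq_zero]
  refine ⟨⟨fun m x => g (m + 1) m x⟩, ?_⟩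
  ext m x
  cases m with
  | zero =>
    have h3 := congrArg (fun F : Coch X => F 0 x) (hg 0)
    simp only [dlt_zero, prn_apply, if_true] at h3
    rw [dlt_zero]
    exact h3
  | succ m =>
    have h3 := congrArg (fun F : Coch X => F (m + 1) x) (hg (m + 1))
    simp only [prn_apply, if_true] at h3
    rw [← h3, dlt_succ, dlt_succ]

theorem sep' {X : SS} (a b : H X) (h : ∀ n, Hpr n a = Hpr n b) : a = b := by
  apply sub_eq_zero.mp
  apply sep
  intro n
  rw [map_sub, h n, sub_self]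

/-- Homogeneous classes can be put together. -/
theorem glue {X : SS} (b : ℕ → H X) (hb : ∀ n, b n ∈ Hn X n) : ∃ a : H X, ∀ n, Hpr n a = b n := by
  have h1 : ∀ n, ∃ f : Cocyc X, f.1 ∈ CochD X n ∧ cls f = b n := fun n => mem_Hn.mp (hb n)
  choose f hf hfb using h1
  have hd : dlt (⟨fun m x => (f m).1 m x⟩ : Coch X) = 0 := by
    ext m x
    cases m with
    | zero => rfl
    | succ m =>
      have h2 : dlt (f m).1 = 0 := (f m).2
      have h3 := congrArg (fun F : Coch X => F (m + 1) x) h2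
      simp only [dlt_succ] at h3
      rw [dlt_succ]
      exact h3
  refine ⟨cls ⟨⟨fun m x => (f m).1 m x⟩, hd⟩, ?_⟩
  intro n
  rw [Hpr_cls, ← hfb n]
  congr 1
  apply Subtype.ext
  ext m x
  rw [prn_apply]
  split_ifs with h
  · subst h
    rfl
  · exact (hf n m h x).symm

/-- Multiplication with a cochain of degree `t` and components. -/
theorem prn_mul {X : SS} {t : ℕ} {E : Coch X} (hE : E ∈ CochD X t) (F : Coch X) (n : ℕ) :
    prn (n + t) (E * F) = E * prn n F := by
  ext m x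
  rw [prn_apply, cmul_apply, cmul_apply]
  split_ifs with h
  · apply Finset.sum_congr rfl
    rintro ⟨p, q⟩ hpq
    simp only [Finset.HasAntidiagonal.mem_antidiagonal] at hpq
    simp only
    by_cases hp : p = t
    · have hq : q = n := by omega
      rw [prn_apply, if_pos hq]
    · rw [hE p hp, zero_mul, zero_mul]
  · symm
    apply Finset.sum_eq_zero
    rintro ⟨p, q⟩ hpq
    simp only [Finset.HasAntidiagonal.mem_antidiagonal] at hpq
    simp only
    by_cases hp : p = t
    · have hq : q ≠ n := by omega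
      rw [prn_apply, if_neg hq, mul_zero]
    · rw [hE p hp, zero_mul]

theorem prn_mul_lt {X : SS} {t : ℕ} {E : Coch X} (hE : E ∈ CochD X t) (F : Coch X) {n : ℕ}
    (hn : n < t) : prn n (E * F) = 0 := by
  ext m x
  rw [prn_apply, cmul_apply]
  split_ifs with h
  · apply Finset.sum_eq_zero
    rintro ⟨p, q⟩ hpq
    simp only [Finset.HasAntidiagonal.mem_antidiagonal] at hpq
    simp only
    rw [hE p (by omega), zero_mul]
  · rfl

theorem Hpr_mul {X : SS} {t : ℕ} {e : H X} (he : e ∈ Hn X t) (b : H X) (n : ℕ) :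
    Hpr (n + t) (e * b) = e * Hpr n b := by
  obtain ⟨E, hE, rfl⟩ := mem_Hn.mp he
  obtain ⟨F, rfl⟩ := cls_surjective b
  rw [← map_mul, Hpr_cls, Hpr_cls, ← map_mul]
  congr 1
  apply Subtype.ext
  exact prn_mul hE F.1 n

theorem Hpr_mul_lt {X : SS} {t : ℕ} {e : H X} (he : e ∈ Hn X t) (b : H X) {n : ℕ} (hn : n < t) :
    Hpr n (e * b) = 0 := by
  obtain ⟨E, hE, rfl⟩ := mem_Hn.mp he
  obtain ⟨F, rfl⟩ := cls_surjective b
  rw [← map_mul, Hpr_cls, cls_eq_zero]
  refine ⟨0, ?_⟩
  rw [map_zero]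
  exact (prn_mul_lt hE F.1 hn).symm

theorem Hpr_mulE {t : ℕ} {Y : SS} (he : eps t ∈ Hn (Sph t) t) (b : H Y) (n : ℕ) :
    Hpr (n + t) (mulE t Y b) = mulE t Y (Hpr n b) := by
  rw [mulE_apply, mulE_apply, Hpr_mul (H.map_mem _ he), Hpr_map]

theorem Hpr_mulE_lt {t : ℕ} {Y : SS} (he : eps t ∈ Hn (Sph t) t) (b : H Y) {n : ℕ} (hn : n < t) :
    Hpr n (mulE t Y b) = 0 := by
  rw [mulE_apply, Hpr_mul_lt (H.map_mem _ he) _ hn]

/-- The fundamental class vanishes at the base point. -/
theorem bpt_eps (t : ℕ) (Y : SS) : H.map ((SS.fst (Sph t) Y).comp (bpt t Y)) (eps t) = 0 := by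
  unfold eps
  split_ifs with h
  · unfold clsN
    rw [H.map_cls, cls_eq_zero]
    refine ⟨0, ?_⟩
    rw [map_zero]
    ext m x
    show (0 : k) = single t (epsC t) m none
    by_cases hm : m = t
    · subst hm
      rw [single_self]
      rfl
    · rw [single_ne hm]
  · rw [map_zero]

theorem bpt_mulE (t : ℕ) (Y : SS) (b : H Y) : H.map (bpt t Y) (mulE t Y b) = 0 := by
  rw [mulE_apply, map_mul, ← H.map_comp, bpt_eps, zero_mul]

theorem bpt_snd (t : ℕ) (Y : SS) (b : H Y) :
    H.map (bpt t Y) (H.map (SS.snd (Sph t) Y) b) = b := by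
  rw [← H.map_comp]
  exact H.map_id b

/-- Every homogeneous class of `S^t × Y` is the sum of two terms. -/
theorem split {t : ℕ} {Y : SS} {J : Type} {dj : J → ℕ} {c : J → H Y}
    (hP : HB ((Sph t).prod Y) (fun p : Bool × J => (if p.1 then t else 0) + dj p.2)
      (fun p => H.map (SS.fst (Sph t) Y) (if p.1 then eps t else 1) *
        H.map (SS.snd (Sph t) Y) (c p.2))) {n : ℕ} {x : H ((Sph t).prod Y)}
    (hx : x ∈ Hn ((Sph t).prod Y) n) :
    ∃ u v : H Y, x = mulE t Y u + H.map (SS.snd (Sph t) Y) v := by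
  have h := hP.span n hx
  refine Submodule.span_induction (p := fun x _ => ∃ u v : H Y,
    x = mulE t Y u + H.map (SS.snd (Sph t) Y) v) ?_ ?_ ?_ ?_ h
  · rintro _ ⟨⟨i, j⟩, _, rfl⟩
    cases i with
    | true =>
      refine ⟨c j, 0, ?_⟩
      rw [map_zero, add_zero, mulE_apply]
      rfl
    | false =>
      refine ⟨0, c j, ?_⟩
      rw [map_zero, zero_add]
      show H.map (SS.fst (Sph t) Y) 1 * H.map (SS.snd (Sph t) Y) (c j) = _
      rw [map_one, one_mul]
  · exact ⟨0, 0, by rw [map_zero, map_zero, add_zero]⟩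
  · rintro x y _ _ ⟨u, v, rfl⟩ ⟨u', v', rfl⟩
    exact ⟨u + u', v + v', by rw [map_add, map_add]; abel⟩
  · rintro a x _ ⟨u, v, rfl⟩
    exact ⟨a • u, a • v, by rw [map_smul, map_smul, smul_add]⟩

theorem inj_hom {t : ℕ} {Y : SS} {J : Type} {dj : J → ℕ} {c : J → H Y} (hc : HB Y dj c)
    (hP : HB ((Sph t).prod Y) (fun p : Bool × J => (if p.1 then t else 0) + dj p.2)
      (fun p => H.map (SS.fst (Sph t) Y) (if p.1 then eps t else 1) *
        H.map (SS.snd (Sph t) Y) (c p.2))) {n : ℕ} {b : H Y} (hb : b ∈ Hn Y n)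
    (h0 : mulE t Y b = 0) : b = 0 := by
  have h1 : LinearIndependent k (fun j : J => mulE t Y (c j)) := by
    have h2 := hP.indep.comp (fun j : J => (true, j)) (fun a b h => (Prod.mk.inj h).2)
    exact h2
  have h3 : b ∈ Submodule.span k (Set.range c) :=
    Submodule.span_mono (Set.image_subset_range _ _) (hc.span n hb)
  obtain ⟨l, rfl⟩ := (Finsupp.mem_span_range_iff_exists_finsupp).1 h3
  have h4 : (l.sum fun i a => a • mulE t Y (c i)) = 0 := by
    rw [← h0, map_finsuppSum]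
    exact Finsupp.sum_congr fun i _ => (map_smul _ _ _).symm
  rw [linearIndependent_iff] at h1
  have h5 := h1 l (by rw [Finsupp.linearCombination_apply]; exact h4)
  rw [h5, Finsupp.sum_zero_index]

end Skt

open Skt in
theorem SKT (hk : KUN_Stmt) (hb : HBE_Stmt) (hf : SPHF_Stmt) (he : EPSHB_Stmt) : SKT_Stmt := by
  intro t ht Y hY
  obtain ⟨J, dj, c, hc⟩ := hb Y
  have hE := he t ht
  have hP := hk (Sph t) Y (hf t) hY _ _ _ _ hE hc
  have hm : eps t ∈ Hn (Sph t) t := hE.mem true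
  have hinj : ∀ b, mulE t Y b = 0 → b = 0 := by
    intro b h0
    apply sep
    intro n
    refine inj_hom hc hP (Hpr_mem n b) ?_
    rw [← Hpr_mulE hm, h0, map_zero]
  refine ⟨?_, ?_, ?_, ?_⟩
  · intro b b' h
    apply sub_eq_zero.mp
    apply hinj
    rw [map_sub, h, sub_self]
  · intro x hx
    have h1 : ∀ n, ∃ u, Hpr n x = mulE t Y u := by
      intro n
      obtain ⟨u, v, h2⟩ := split hP (Hpr_mem n x)
      have h3 : H.map (bpt t Y) (Hpr n x) = v := by
        rw [h2, map_add, bpt_mulE, bpt_snd, zero_add]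
      rw [← Hpr_map, hx, map_zero] at h3
      refine ⟨u, ?_⟩
      rw [h2, ← h3, map_zero, add_zero]
    choose u hu using h1
    obtain ⟨b, hb'⟩ := glue (fun m => Hpr m (u (m + t))) (fun m => Hpr_mem m _)
    refine ⟨b, ?_⟩
    apply sep'
    intro n
    by_cases hn : n < t
    · rw [Hpr_mulE_lt hm b hn]
      have h4 := Hpr_eq (Hpr_mem n x)
      rw [hu n, Hpr_mulE_lt hm _ hn] at h4
      rw [hu n]
      exact h4
    · obtain ⟨m, rfl⟩ : ∃ m, n = m + t := ⟨n - t, by omega⟩
      rw [Hpr_mulE hm, hb' m, ← Hpr_mulE hm, ← hu (m + t)]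
      exact Hpr_eq (Hpr_mem _ x)
  · intro n b h
    have h1 : ∀ m, m ≠ n → Hpr m b = 0 := by
      intro m hmn
      apply hinj
      rw [← Hpr_mulE hm]
      exact Hpr_ne (by omega) h
    have h2 : b = Hpr n b := by
      apply sep'
      intro m
      by_cases hmn : m = n
      · subst hmn
        exact (Hpr_eq (Hpr_mem m b)).symm
      · rw [h1 m hmn, Hpr_ne (fun h => hmn h.symm) (Hpr_mem n b)]
    rw [h2]
    exact Hpr_mem n b
  · intro n b hn h
    apply sep
    intro m
    apply hinj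
    rw [← Hpr_mulE hm]
    exact Hpr_ne (by omega) h

end Pool.Agent.SHL
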