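import Pool.Agent.SH.L.Stmts
import Pool.Agent.SH.L.Moore

/-!
LINK: spheres are locally finite, the fundamental cochain is a cocycle, the circle.
-/

namespace Pool.Agent.SHL

open Pool.Agent.SHS Pool.Agent.SHS.Hty

namespace Sphb

theorem fin_mor (m n : ℕ) : Finite (Mor m n) :=
  Finite.of_injective (fun f : Mor m n => (f : Fin (m + 1) → Fin (n + 1)))
    (fun _ _ h => OrderHom.ext _ _ h)

theorem fin_k : Finite k := inferInstanceAs (Finite (ZMod 2))

theorem sph_lf (t : ℕ) : (Sph t).LF := by
  intro n
  have h1 : Finite (Mor n t) := fin_mor n t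
  show Finite (Option {a : Mor n t // Function.Surjective a})
  infer_instance

theorem bb_lf (d : ℕ) : (BB.pow d).LF := by
  intro n
  have h2 : Finite k := fin_k
  have h3 : Finite (Nrm n k) := inferInstance
  show Finite (Fin d → Nrm n k)
  infer_instance

/-- a surjective monotone map [t+1] → [t] is a codegeneracy -/
theorem exists_cod {t : ℕ} (a : Mor (t + 1) t) (ha : Function.Surjective a) :
    ∃ j ≤ t, a = codN j t := by
  have h1 : ¬ StrictMono a := by
    intro h
    have h2 := Fintype.card_le_of_injective a h.injective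
    rw [Fintype.card_fin, Fintype.card_fin] at h2
    omega
  rw [Fin.strictMono_iff_lt_succ] at h1
  push Not at h1
  obtain ⟨i, hi⟩ := h1
  have hi2 := i.2
  have h3 : a i.castSucc = a i.succ :=
    le_antisymm (a.monotone (Fin.castSucc_lt_succ).le) hi
  refine ⟨i.1, by omega, ?_⟩
  have hv : ∀ (v w : Fin (t + 2)), v.1 = i.1 → w.1 = i.1 + 1 → a v = a w := by
    intro v w hv hw
    have e1 : v = i.castSucc := Fin.ext hv
    have e2 : w = i.succ := Fin.ext hw
    rw [e1, e2, h3]
  have hs : Function.Surjective (a.comp (cofN i.1 t)) := by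
    intro y
    obtain ⟨x, hx⟩ := ha y
    have hx2 := x.2
    by_cases h : x.1 = i.1
    · refine ⟨⟨i.1, by omega⟩, ?_⟩
      rw [← hx]
      refine (hv x _ h ?_).symm
      rw [cofN_val]
      show (if i.1 < i.1 then i.1 else i.1 + 1) = i.1 + 1
      rw [if_neg (lt_irrefl _)]
    · refine ⟨⟨if x.1 < i.1 then x.1 else x.1 - 1, by split_ifs <;> omega⟩, ?_⟩
      rw [← hx]
      show a _ = a x
      congr 1
      apply Fin.ext
      rw [cofN_val]
      show (if (if x.1 < i.1 then x.1 else x.1 - 1) < i.1 then
        (if x.1 < i.1 then x.1 else x.1 - 1) else (if x.1 < i.1 then x.1 else x.1 - 1) + 1) = x.1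
      split_ifs <;> omega
  have hinj : Function.Injective (a.comp (cofN i.1 t)) := Finite.injective_iff_surjective.2 hs
  have hid : ((a.comp (cofN i.1 t) : Mor t t) : Fin (t + 1) → Fin (t + 1)) = id := by
    have hsm := (a.comp (cofN i.1 t)).monotone.strictMono_of_injective hinj
    have e := Subsingleton.elim (hsm.orderIsoOfSurjective _ hs) (OrderIso.refl (Fin (t + 1)))
    funext v
    exact congrArg (fun o : Fin (t + 1) ≃o Fin (t + 1) => o v) e
  have hc : ∀ v : Fin (t + 1), a (cofN i.1 t v) = v := fun v => congrFun hid v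
  apply mor_ext
  intro v
  have hv2 := v.2
  rw [codN_val]
  by_cases h : v.1 < i.1
  · have e := congrArg Fin.val (hc ⟨v.1, by omega⟩)
    have e2 : cofN i.1 t ⟨v.1, by omega⟩ = v := by
      apply Fin.ext
      rw [cofN_val]
      show (if v.1 < i.1 then v.1 else v.1 + 1) = v.1
      rw [if_pos h]
    rw [e2] at e
    rw [e, if_pos h.le]
    show v.1 = min v.1 t
    omega
  · by_cases h' : v.1 = i.1
    · have e := congrArg Fin.val (hc ⟨i.1, by omega⟩)
      have e2 : a v = a (cofN i.1 t ⟨i.1, by omega⟩) := by
        refine hv v _ h' ?_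
        rw [cofN_val]
        show (if i.1 < i.1 then i.1 else i.1 + 1) = i.1 + 1
        rw [if_neg (lt_irrefl _)]
      rw [e2, e, if_pos h'.le]
      show i.1 = min v.1 t
      omega
    · have e := congrArg Fin.val (hc ⟨v.1 - 1, by omega⟩)
      have e2 : cofN i.1 t ⟨v.1 - 1, by omega⟩ = v := by
        apply Fin.ext
        rw [cofN_val]
        show (if v.1 - 1 < i.1 then v.1 - 1 else v.1 - 1 + 1) = v.1
        rw [if_neg (by omega)]
        omega
      rw [e2] at e
      rw [e, if_neg (by omega)]
      show v.1 - 1 = min (v.1 - 1) t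
      omega

theorem eps_face {t i j : ℕ} (hj : j ≤ t) (hi : i ≤ t + 1)
    (a : {a : Mor (t + 1) t // Function.Surjective a}) (ha : a.1 = codN j t) :
    epsC t ((Sph t).map (cofN i t) (some a)) = if i = j ∨ i = j + 1 then 1 else 0 := by
  show epsC t ((PS.sphere t).map (cofN i t) a) = _
  by_cases h : Function.Surjective (a.1.comp (cofN i t))
  · rw [sphere_map_pos _ a h]
    rw [if_pos]
    · rfl
    · by_contra hne
      push Not at hne
      rw [ha] at h
      exact cod_cof_nsurj hj hi hne.1 hne.2 h
  · rw [sphere_map_neg _ a h]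
    rw [if_neg]
    · rfl
    · intro hij
      apply h
      rw [ha]
      rcases hij with rfl | rfl
      · rw [cod_cof_self]
        exact Function.surjective_id
      · rw [cod_cof_succ]
        exact Function.surjective_id

end Sphb

open Sphb

theorem SPHF : SPHF_Stmt := sph_lf

theorem EPS : EPS_Stmt := by
  intro t
  funext x
  rw [CM.delta_apply, Finset.sum_apply]
  show ∑ i : Fin (t + 2), epsC t ((Sph t).map (cof i) x) = 0
  cases x with
  | none => exact Finset.sum_eq_zero fun i _ => rfl
  | some a =>
    obtain ⟨j, hj, ha⟩ := exists_cod a.1 a.2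
    rw [sum_cof (fun c => epsC t ((Sph t).map c (some a))),
      Finset.sum_congr rfl (fun i hi => eps_face hj (by rw [Finset.mem_range] at hi; omega) a ha),
      ← Finset.sum_filter]
    have h3 : (Finset.range (t + 2)).filter (fun i => i = j ∨ i = j + 1) = {j, j + 1} := by
      ext i
      simp only [Finset.mem_filter, Finset.mem_range, Finset.mem_insert, Finset.mem_singleton]
      omega
    rw [h3, Finset.sum_pair (by omega)]
    exact k_two 1

theorem EPS1 : EPS1_Stmt := by
  have h := EPS 1
  have e1 : eps 1 = clsN 1 (epsC 1) h := by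
    unfold eps
    rw [dif_pos h]
  show eps 1 = ee
  rw [e1]
  show cls _ = cls (Cocyc.pull s1 ⟨uC, dlt_uC⟩)
  congr 1
  apply Subtype.ext
  show Coch.single 1 (epsC 1) = Coch.pull s1 uC
  apply Coch.ext
  intro n x
  rw [Coch.pull_apply]
  unfold uC
  by_cases hn : n = 1
  · subst hn
    rw [Coch.single_self, Coch.single_self]
    cases x with
    | none => rfl
    | some a =>
      show (1 : k) = if a.1 1 = 0 then 0 else 1
      rw [if_neg]
      intro h0
      obtain ⟨v, hv⟩ := a.2 1
      have h1 : a.1 v ≤ a.1 1 := a.1.monotone (Fin.le_last v)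
      rw [hv, h0] at h1
      exact absurd h1 (by decide)
  · rw [Coch.single_ne hn, Coch.single_ne hn]

theorem BBF : BBF_Stmt := by
  intro d
  refine ⟨bb_lf d, ?_⟩
  intro n
  have h1 : Finite ((BB.pow d).X n) := bb_lf d n
  have h2 : Finite (S1.X n) := sph_lf 1 n
  show Finite (S1.X n × (BB.pow d).X n)
  infer_instance

end Pool.Agent.SHL
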