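import Pool.Agent.SH.L.Stmts

/-!
LINK: value of the slant product on the classes `μ (0 ::ₘ J)`.
-/

namespace Pool.Agent.SHL

open Pool.Agent.SHS

namespace Val

/-- `id × φ`. -/
def idx (t : ℕ) {Y Y' : SS} (φ : SS.Hom Y Y') : SS.Hom ((Sph t).prod Y) ((Sph t).prod Y') :=
  SS.Hom.pair (SS.fst (Sph t) Y) (φ.comp (SS.snd (Sph t) Y))

theorem mulE_map (t : ℕ) {Y Y' : SS} (φ : SS.Hom Y Y') (b : H Y') :
    mulE t Y (H.map φ b) = H.map (idx t φ) (mulE t Y' b) := by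
  rw [mulE_apply, mulE_apply, map_mul, ← H.map_comp, ← H.map_comp, ← H.map_comp]
  rfl

theorem wgt_pos (J : Multiset ℕ) : 1 ≤ wgt (0 ::ₘ J) := by
  unfold wgt
  rw [Multiset.map_cons, Multiset.sum_cons]
  omega

theorem core (hE2 : E2_Stmt) (hM : MSC_Stmt) (m : ℕ) (J : Multiset ℕ)
    (hJ : Multiset.card J = m) (T : NOp)
    (hT : T.f (BB.pow (m + 1)) (evB (m + 1) (∏ j, MvPolynomial.X j)) =
      evB (m + 1) (msym (m + 1) (0 ::ₘ J))) :
    T.f ((Sph 1).prod (BB.pow m)) (mulE 1 (BB.pow m) (evB m (SHU.Un m))) =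
      mulE 1 (BB.pow m) (evB m (msym m J)) := by
  have h1 := hE2 m (SHU.Un (m + 1))
  rw [SHU.lin_Lzero_Un, map_zero, map_zero, add_zero, SHU.Un_succ, SHU.co1_X_rename,
    ← SHU.Un_succ] at h1
  rw [← h1]
  have h2 := T.nat (qB m) (evB (m + 1) (SHU.Un (m + 1)))
  refine h2.trans ?_
  have h3 : T.f (BB.pow (m + 1)) (evB (m + 1) (SHU.Un (m + 1))) =
      evB (m + 1) (msym (m + 1) (0 ::ₘ J)) := hT
  rw [h3, hE2 m, (hM m J hJ).2, (hM m J hJ).1, map_zero, map_zero, add_zero]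

theorem claim (hE2 : E2_Stmt) (hM : MSC_Stmt) (m : ℕ) (J : Multiset ℕ)
    (hJ : Multiset.card J = m) (T : NOp)
    (hT : T.f (BB.pow (m + 1)) (evB (m + 1) (∏ j, MvPolynomial.X j)) =
      evB (m + 1) (msym (m + 1) (0 ::ₘ J)))
    (f : ∀ d, SHU.Pl d →ₗ[ZMod 2] SHU.Pl d) (hf : SHU.IsNP m (wgt J) f)
    (hfJ : f m (SHU.Un m) = msym m J) (d : ℕ) (y : MvPolynomial (Fin d) k)
    (hy : y.IsHomogeneous m) :
    T.f ((Sph 1).prod (BB.pow d)) (mulE 1 (BB.pow d) (evB d y)) =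
      mulE 1 (BB.pow d) (evB d (f d y)) := by
  have h0 : ∀ π : Fin m → Fin d,
      T.f ((Sph 1).prod (BB.pow d)) (mulE 1 (BB.pow d) (evB d (MvPolynomial.rename π (SHU.Un m)))) =
      mulE 1 (BB.pow d) (evB d (f d (MvPolynomial.rename π (SHU.Un m)))) := by
    intro π
    rw [hf.ren, hfJ, ← evB_reidx, ← evB_reidx, mulE_map, mulE_map, T.nat,
      core hE2 hM m J hJ T hT]
  rw [y.as_sum]
  simp only [map_sum]
  refine Finset.sum_congr rfl fun e he => ?_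
  have he' : e.degree = m := by
    have := hy (MvPolynomial.mem_support_iff.mp he)
    rw [Finsupp.degree_eq_weight_one]
    exact this
  obtain ⟨π, hπ⟩ := SHU.exists_pi m e he'
  have hmon : (MvPolynomial.monomial e (MvPolynomial.coeff e y) : MvPolynomial (Fin d) k) =
      (MvPolynomial.coeff e y) • MvPolynomial.rename π (SHU.Un m) := by
    rw [SHU.rename_Un, hπ, MvPolynomial.smul_monomial, smul_eq_mul, mul_one]
  rw [hmon]
  simp only [map_smul]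
  rw [h0]

end Val

theorem VAL (h1 : PH1_Stmt) (hR : RCH_Stmt) (hC : LCM_Stmt) (hs : SKT_Stmt) (hE2 : E2_Stmt)
    (hM : MSC_Stmt) (hB : BBF_Stmt) : VAL_Stmt := by
  intro m μ hμ J hJ f hf hfJ d z y hy hz
  have hcard : Multiset.card (0 ::ₘ J) = m + 1 := by rw [Multiset.card_cons, hJ]
  obtain ⟨T, -, hT2, hT3⟩ := hμ.op (0 ::ₘ J) hcard (Multiset.mem_cons_self 0 J)
  have hLF : (BB.pow d).LF := (hB d).1
  have hinj := (hs 1 le_rfl (BB.pow d) hLF).1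
  have hP := (h1 1 le_rfl (BB.pow d) hLF (EM (m + 1)) z).1
  have hi : iota (m + 1) ∈ RC (EM (m + 1)) := (hR (EM (m + 1))).2.1 _ (hC.2 (m + 1))
  have hmu : μ (0 ::ₘ J) ∈ RC (EM (m + 1)) :=
    (hR (EM (m + 1))).1 _ (Val.wgt_pos J) (hμ.mem _ hcard)
  apply hinj
  rw [hP _ hmu, hT3, ← T.nat, ← hP _ hi, hz]
  exact Val.claim hE2 hM m J hJ T hT2 f hf hfJ d y hy

end Pool.Agent.SHL
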