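import Pool.Agent.SH.S.AllV
import Pool.Agent.SH.L.Bnd
import Pool.Agent.SH.L.Fin
import Pool.Agent.SH.L.Sphb
import Pool.Agent.SH.L.Epshb
import Pool.Agent.SH.L.Skt
import Pool.Agent.SH.L.Rch
import Pool.Agent.SH.L.Emr
import Pool.Agent.SH.L.Phb
import Pool.Agent.SH.L.Bd
import Pool.Agent.SH.L.Pha
import Pool.Agent.SH.L.Phh
import Pool.Agent.SH.L.Cem
import Pool.Agent.SH.L.Bem
import Pool.Agent.SH.L.Cv
import Pool.Agent.SH.L.Bv
import Pool.Agent.SH.L.E1
import Pool.Agent.SH.L.E2l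
import Pool.Agent.SH.L.Msc
import Pool.Agent.SH.L.Psi
import Pool.Agent.SH.L.Val

/-!
LINK: all statements without hypotheses, and the theorem `link_all : LINK_Stmt`.
-/

namespace Pool.Agent.SHL.All

open Pool.Agent.SHS Pool.Agent.SHL

theorem epshb : EPSHB_Stmt := EPSHB SHS.All.norm EPS
theorem skt : SKT_Stmt := SKT SHS.All.kun SHS.All.hbe SPHF epshb
theorem ph1 : PH1_Stmt := PH1 skt ZM0
theorem phy : PHY_Stmt := PHY ph1 skt
theorem phb : PHB_Stmt := PHB SHS.All.hty ZM0
theorem emr : EMR_Stmt := EMR SHS.All.norm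
theorem pha : PHA_Stmt := PHA ph1 RCH emr PHV PHL phb LCM
theorem phd : PHD_Stmt := PHD ph1 RCH skt SHS.All.sk EPS1
theorem phh : PHH_Stmt := PHH ph1 skt EPS SPHF
theorem cem : CEM_Stmt := CEM ph1 SHS.All.norm LCM RCH
theorem bem : BEM_Stmt := BEM skt SHS.All.norm EPS
theorem cv : CV_Stmt := CV SHS.All.lbe SHS.All.split LCM PHV cem
theorem bv : BV_Stmt := BV SHS.All.lbe SHS.All.split SHS.All.lcs LCM PHV bem
theorem e2l : E2_Stmt := E2 SHS.All.sk EPS1
theorem val : VAL_Stmt := VAL ph1 RCH LCM skt e2l MSC BBF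

theorem base : Base where
  skt := skt
  bbf := BBF
  rch := RCH
  zm0 := ZM0
  lcm := LCM
  emr := emr
  ph1 := ph1
  phy := phy
  phv := PHV
  phl := PHL
  phb := phb
  pha := pha
  phd := phd
  phh := phh
  cv := cv
  bv := bv
  e1 := E1
  e2 := e2l
  psi := PSI
  npj := NPJ
  val := val
  k1 := SHS.All.k1
  mu := SHS.All.mu
  msi := SHS.All.msi

/-- Block LINK: exactness of the indecomposables in large degrees implies exactness of the
homotopy groups of the cosimplicial space `Map_*(BB,V)`. -/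
theorem link_all : LINK_Stmt := fun C hq =>
  base.final C (base.exactES SHS.All.poly SHS.All.lbe SHS.All.scAll C hq)

end Pool.Agent.SHL.All
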