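import Pool.Agent.SH.S.StmtsV
import Pool.Agent.SH.Q.Bridge

/-!
# MP_2d0b73_an, LINK: comparison of the two formulations of `polynomial cohomology`
-/

noncomputable section

namespace Pool.Agent.SHL

open Pool.Agent.SHS (H Hn HB)

theorem polyGen_conv {X : SHS.SS} {σ : Type} {w : σ → ℕ} {g : σ → H X}
    (h : SHS.PolyGen X w g) : SHQ.PolyGen X := by
  have hm : ∀ (d : σ →₀ ℕ), MvPolynomial.aeval (R := ZMod 2) g (MvPolynomial.monomial d 1) =
      d.prod fun i e => g i ^ e := by
    intro d
    rw [MvPolynomial.aeval_monomial, map_one, one_mul]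
  have hmem : ∀ (d : σ →₀ ℕ), (d.prod fun i e => g i ^ e) ∈ Hn X (Finsupp.weight w d) := by
    intro d
    rw [h.deg, ← hm d]
    exact ⟨MvPolynomial.monomial d 1, MvPolynomial.isWeightedHomogeneous_monomial w d 1 rfl, rfl⟩
  refine ⟨σ, w, g, h.pos, ?_, ?_, ?_, ?_⟩
  · intro s
    have h1 := hmem (Finsupp.single s 1)
    have h3 : ((Finsupp.single s 1 : σ →₀ ℕ).prod fun i e => g i ^ e) = g s := by
      rw [Finsupp.prod_single_index (h := fun i e => g i ^ e) (pow_zero _)]
      exact pow_one _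
    rw [h3] at h1
    have h2 : Finsupp.weight w (Finsupp.single s 1) = w s := by
      rw [Finsupp.weight_single, one_smul]
    rwa [h2] at h1
  · exact hmem
  · have h1 : LinearIndependent (ZMod 2) (fun d : σ →₀ ℕ =>
        (MvPolynomial.monomial d (1 : ZMod 2) : MvPolynomial σ (ZMod 2))) :=
      (MvPolynomial.basisMonomials σ (ZMod 2)).linearIndependent
    have h2 := h1.map' (MvPolynomial.aeval (R := ZMod 2) g).toLinearMap
      (LinearMap.ker_eq_bot.mpr h.inj)
    have h3 : (⇑(MvPolynomial.aeval (R := ZMod 2) g).toLinearMap ∘ fun d : σ →₀ ℕ =>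
        (MvPolynomial.monomial d (1 : ZMod 2) : MvPolynomial σ (ZMod 2))) =
        fun d => d.prod fun i e => g i ^ e := by
      funext d
      exact hm d
    rw [h3] at h2
    exact h2
  · intro n a ha
    rw [h.deg] at ha
    obtain ⟨f, hf, rfl⟩ := ha
    show MvPolynomial.aeval (R := ZMod 2) g f ∈ _
    rw [SHQ.Br.aeval_eq]
    refine Submodule.sum_mem _ fun d hd => Submodule.smul_mem _ _ (Submodule.subset_span ?_)
    exact ⟨d, hf (MvPolynomial.mem_support_iff.1 hd), rfl⟩

end Pool.Agent.SHL
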