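import Pool.Agent.SH.L.XCSV
import Pool.Agent.SH.StmtsV

/-!
# MP_2d0b73_an, LINK: translation of the final statement to `Stmt_EX`
-/

open CategoryTheory Opposite

noncomputable section

namespace Pool.Agent.SHL

open Pool.Agent.SH.TT (Dop bx dop Bdy BZ MapP MCyc MBd ExC XV XD RM reso Sph)
open Pool.Agent.SHS (Mor cof BB Nrm)

/-- From `BB` to `BZ`. -/
def toBZ {n : ℕ} (g : BB.X n) : BZ.obj (bx n) :=
  (⟨fun i j => g.1 i + g.1 j, fun i j l => by
    have := SHS.k_two (g.1 j)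
    linear_combination this⟩ :
    {c : Fin (n + 1) → Fin (n + 1) → ZMod 2 // ∀ i j l, c i j + c j l = c i l})

theorem BZ_diag {n : ℕ} (c : Fin (n + 1) → Fin (n + 1) → ZMod 2)
    (h : ∀ i j l, c i j + c j l = c i l) (i : Fin (n + 1)) : c i i = 0 := by
  have h1 := h i i i
  linear_combination h1

/-- From `BZ` to `BB`. -/
def toBB {k : Dop} (c : BZ.obj k) : BB.X k.unop.len :=
  (⟨fun i => c.1 0 i, BZ_diag c.1 c.2 0⟩ : Nrm k.unop.len SHS.k)

theorem toBZ_toBB {k : Dop} (c : BZ.obj k) : toBZ (toBB c) = c := by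
  apply Subtype.ext
  funext i j
  show c.1 0 i + c.1 0 j = c.1 i j
  have h := c.2 0 i j
  have h2 := SHS.k_two (c.1 0 i)
  linear_combination (-1 : ZMod 2) * h + h2

theorem toBB_toBZ {n : ℕ} (g : BB.X n) : toBB (toBZ g) = g := by
  apply Subtype.ext
  funext i
  show g.1 0 + g.1 i = g.1 i
  rw [show g.1 0 = 0 from g.2, zero_add]

theorem toBZ_map {m n : ℕ} (a : Mor m n) (g : BB.X n) :
    toBZ (BB.map a g) = BZ.map (toD a) (toBZ g) := by
  apply Subtype.ext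
  funext i j
  show (g.1 (a i) - g.1 (a 0)) + (g.1 (a j) - g.1 (a 0)) = g.1 (a i) + g.1 (a j)
  have := SHS.k_two (g.1 (a 0))
  linear_combination (-1 : ZMod 2) * this

theorem toBB_map {k l : Dop} (α : k ⟶ l) (c : BZ.obj k) :
    toBB (BZ.map α c) = BB.map (ofD α) (toBB c) := by
  apply Subtype.ext
  funext i
  show c.1 (α.unop.toOrderHom 0) (α.unop.toOrderHom i) =
    c.1 0 (α.unop.toOrderHom i) - c.1 0 (α.unop.toOrderHom 0)
  have h := c.2 0 (α.unop.toOrderHom 0) (α.unop.toOrderHom i)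
  rw [← h]
  ring

theorem toBZ_zero (n : ℕ) : (toBZ (0 : BB.X n)) ∈ BZ.b0.obj (bx n) := by
  show (fun i j => (0 : ZMod 2) + 0) = 0
  funext i j
  exact add_zero 0

theorem toBB_zero {k : Dop} (c : BZ.obj k) (h : c ∈ BZ.b0.obj k) : toBB c = 0 := by
  apply Subtype.ext
  have h' : c.1 = 0 := h
  funext i
  show c.1 0 i = 0
  rw [h']
  rfl

section tr
variable (V : SH.TT.SV)

/-- The translation of simplices of the mapping space. -/
def tr {t : ℕ} (z : (MapP BZ BZ.b0 V).obj (bx t)) : (MapS BB (svS V)).X t :=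
  ⟨fun n x => MapP.ev z (bx n) (toBZ x.2) (toD x.1), fun m n a x => by
    show MapP.ev z (bx m) (toBZ (BB.map a x.2)) (toD (x.1.comp a)) =
      V.map (toD a) (MapP.ev z (bx n) (toBZ x.2) (toD x.1))
    rw [toBZ_map, toD_comp, MapP.nat]⟩

theorem tr_apply {t : ℕ} (z : (MapP BZ BZ.b0 V).obj (bx t)) (n : ℕ)
    (x : ((SHS.SS.simplex t).prod BB).X n) :
    (tr V z).1 n x = MapP.ev z (bx n) (toBZ x.2) (toD x.1) := rfl

theorem tr_PT {t : ℕ} (z : (MapP BZ BZ.b0 V).obj (bx t)) : tr V z ∈ PT (svS V) t := by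
  intro r a
  exact MapP.van z _ _ (toBZ_zero r)

/-- The inverse translation. -/
def rt {t : ℕ} (f : (MapS BB (svS V)).X t) (hf : f ∈ PT (svS V) t) :
    (MapP BZ BZ.b0 V).obj (bx t) :=
  MapP.mk (fun k c σ => f.1 k.unop.len (ofD σ, toBB c))
    (fun {k l} α c σ => by
      have h := f.2 l.unop.len k.unop.len (ofD α) (ofD σ, toBB c)
      have h2 : toD (ofD α) = α := toD_ofD α
      show f.1 l.unop.len ((ofD σ).comp (ofD α), toBB (BZ.map α c)) = _
      rw [toBB_map]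
      refine h.trans ?_
      show V.map (toD (ofD α)) _ = _
      rw [h2])
    (fun k c σ h => by
      rw [toBB_zero c h]
      exact hf k.unop.len (ofD σ))

theorem tr_rt {t : ℕ} (f : (MapS BB (svS V)).X t) (hf : f ∈ PT (svS V) t) :
    tr V (rt V f hf) = f := by
  apply HV.ext
  intro n x
  show f.1 n (ofD (toD x.1), toBB (toBZ x.2)) = f.1 n x
  rw [toBB_toBZ]
  rfl

theorem tr_inj {t : ℕ} {z z' : (MapP BZ BZ.b0 V).obj (bx t)} (h : tr V z = tr V z') : z = z' := by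
  apply MapP.ext
  intro k c σ
  have h1 : (tr V z).1 k.unop.len (ofD σ, toBB c) = (tr V z').1 k.unop.len (ofD σ, toBB c) := by
    rw [h]
  rw [tr_apply, tr_apply] at h1
  simp only [toBZ_toBB] at h1
  have h2 : toD (ofD σ) = σ := toD_ofD σ
  rw [h2] at h1
  exact h1

theorem tr_add {t : ℕ} (z z' : (MapP BZ BZ.b0 V).obj (bx t)) : tr V (z + z') = tr V z + tr V z' := by
  apply HV.ext
  intro n x
  rfl

theorem tr_zero {t : ℕ} : tr V (0 : (MapP BZ BZ.b0 V).obj (bx t)) = 0 := by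
  apply HV.ext
  intro n x
  rfl

theorem tr_map {r t : ℕ} (a : Mor r t) (z : (MapP BZ BZ.b0 V).obj (bx t)) :
    tr V ((MapP BZ BZ.b0 V).map (toD a) z) = (MapS BB (svS V)).map a (tr V z) := by
  apply HV.ext
  intro n x
  show MapP.ev z (bx n) (toBZ x.2) (toD a ≫ toD x.1) =
    MapP.ev z (bx n) (toBZ x.2) (toD (a.comp x.1))
  rw [toD_comp]

theorem tr_ZM {t : ℕ} (z : (MapP BZ BZ.b0 V).obj (bx t)) :
    tr V z ∈ ZM (MapS BB (svS V)) t ↔ MCyc (MapP BZ BZ.b0 V) t z := by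
  constructor
  · intro h k α hα
    have h1 : (MapS BB (svS V)).map (ofD α) (tr V z) = 0 := h k.unop.len (ofD α) hα
    rw [← tr_map, ← tr_zero V] at h1
    have h2 := tr_inj V h1
    have h3 : toD (ofD α) = α := toD_ofD α
    rw [h3] at h2
    exact h2
  · intro h r a ha
    have h1 := h (bx r) (toD a) ha
    rw [← tr_map, h1, tr_zero]

theorem toD_cof {n : ℕ} (i : Fin (n + 2)) : toD (cof i : Mor n (n + 1)) = dop i := rfl

theorem tr_PB {t : ℕ} (z : (MapP BZ BZ.b0 V).obj (bx t)) :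
    PB (svS V) t (tr V z) ↔ MBd (MapP BZ BZ.b0 V) t z := by
  constructor
  · rintro ⟨w, hw, h0, hi⟩
    refine ⟨rt V w hw, ?_, fun i => ?_⟩
    · apply tr_inj V
      rw [← toD_cof, tr_map, tr_rt]
      exact h0
    · apply tr_inj V
      rw [← toD_cof, tr_map, tr_rt, tr_zero]
      exact hi i.succ (Fin.succ_ne_zero i)
  · rintro ⟨w, h0, hi⟩
    refine ⟨tr V w, tr_PT V w, ?_, fun i hi0 => ?_⟩
    · rw [← tr_map, toD_cof, h0]
    · obtain ⟨j, rfl⟩ := Fin.exists_succ_eq.2 hi0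
      rw [← tr_map, toD_cof, hi j, tr_zero]

end tr

theorem toS_cof {n : ℕ} (i : Fin (n + 2)) : toS (cof i : Mor n (n + 1)) = SimplexCategory.δ i := rfl

/-- The mapping object. -/
abbrev DM (m : ℕ) : SH.TT.CoV := (XD m).mp BZ BZ.b0

theorem tr_cof (m s : ℕ) {t : ℕ} (i : Fin (s + 2)) (z : ((DM m).V s).obj (bx t)) :
    tr (XV m (s + 1)) ((DM m).cof s i (bx t) z) = HV.app (XS.op m (cof i)) (tr (XV m s) z) := by
  apply HV.ext
  intro n x
  rfl

theorem tr_sum (V : SH.TT.SV) {t : ℕ} {ι : Type} (S : Finset ι)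
    (z : ι → (MapP BZ BZ.b0 V).obj (bx t)) : tr V (∑ i ∈ S, z i) = ∑ i ∈ S, tr V (z i) := by
  classical
  induction S using Finset.induction_on with
  | empty => exact tr_zero V
  | insert a S ha ih => rw [Finset.sum_insert ha, Finset.sum_insert ha, tr_add, ih]

theorem tr_dl (m s : ℕ) {t : ℕ} (z : (MapP BZ BZ.b0 (XV (m + 1) s)).obj (bx t)) :
    tr (XV (m + 1) (s + 1)) ((DM (m + 1)).dl s z) = (XSC m).cf s (tr (XV (m + 1) s) z) := by
  refine (tr_sum (XV (m + 1) (s + 1)) Finset.univ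
    (fun i : Fin (s + 2) => (DM (m + 1)).cof s i (bx t) z)).trans ?_
  refine Finset.sum_congr rfl fun i _ => ?_
  exact tr_cof (m + 1) s i z

theorem EX_of_FINAL (m : ℕ) (h : (XSC m).FINAL) : ExC ((XD (m + 1)).mp BZ BZ.b0) 1 := by
  intro t ht
  obtain ⟨h0, h1⟩ := h t ht
  refine ⟨fun z hz hb => ?_, fun s z hz hb => ?_⟩
  · refine (tr_PB (XV (m + 1) 0) z).1 ?_
    refine h0 (tr (XV (m + 1) 0) z) ((tr_ZM (XV (m + 1) 0) z).2 hz) (tr_PT (XV (m + 1) 0) z) ?_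
    exact Eq.subst (motive := fun q => PB (svS (XV (m + 1) 1)) t q) (tr_dl m 0 z)
      ((tr_PB (XV (m + 1) 1) _).2 hb)
  · have h2 := Eq.subst (motive := fun q => PB (svS (XV (m + 1) (s + 2))) t q)
      (tr_dl m (s + 1) z) ((tr_PB (XV (m + 1) (s + 2)) _).2 hb)
    obtain ⟨y, hy, hy', hyb⟩ := h1 s (tr (XV (m + 1) (s + 1)) z)
      ((tr_ZM (XV (m + 1) (s + 1)) z).2 hz) (tr_PT (XV (m + 1) (s + 1)) z) h2
    refine ⟨rt (XV (m + 1) s) y hy', ?_, ?_⟩
    · refine (tr_ZM (XV (m + 1) s) _).1 ?_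
      rw [tr_rt]
      exact hy
    · refine (tr_PB (XV (m + 1) (s + 1)) _).1 ?_
      have h3 : tr (XV (m + 1) (s + 1)) ((DM (m + 1)).dl s (rt (XV (m + 1) s) y hy')) =
          (XSC m).cf s y := by
        rw [tr_dl, tr_rt]
      have h4 := tr_add (XV (m + 1) (s + 1)) z ((DM (m + 1)).dl s (rt (XV (m + 1) s) y hy'))
      rw [h3] at h4
      refine Eq.subst (motive := fun q => PB (svS (XV (m + 1) (s + 1))) t q) h4.symm ?_
      exact hyb

/-- `Stmt_EX` from the final statement of block LINK. -/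
theorem stmt_EX (h : ∀ m : ℕ, 1 ≤ m → (XSC m).FINAL) : SH.TT.Stmt_EX := by
  intro m hm
  obtain ⟨n, rfl⟩ : ∃ n, m = n + 1 := ⟨m - 1, by omega⟩
  exact EX_of_FINAL n (h n (by omega))

/-- `Stmt_EX` from `LINK_Stmt`. -/
theorem stmt_EX_of_link (hL : LINK_Stmt)
    (hP : ∀ V : SHS.SV, V.LF → (∀ x : V.X 0, x = 0) → SHQ.PolyGen V.toSS)
    (hfin : SHQ.FIN_Stmt (ZMod 2)) : SH.TT.Stmt_EX :=
  stmt_EX fun m _ => hL (XSC m) ⟨2 * (m + 1) + 1, fun j hj => XSC_QE hP hfin m j (by omega)⟩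

end Pool.Agent.SHL
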