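import Pool.Agent.SH.L.Stmts

/-!
LINK: the slant product with values in polynomials (`PhE`), the linear maps `alpL g` and `al g t`
induced by a pointed simplicial map `g : V → W`.
-/

namespace Pool.Agent.SHL

open Pool.Agent.SHS

/-- All the facts which are used. -/
structure Base : Prop where
  skt : SKT_Stmt
  bbf : BBF_Stmt
  rch : RCH_Stmt
  zm0 : ZM0_Stmt
  lcm : LCM_Stmt
  emr : EMR_Stmt
  ph1 : PH1_Stmt
  phy : PHY_Stmt
  phv : PHV_Stmt
  phl : PHL_Stmt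
  phb : PHB_Stmt
  pha : PHA_Stmt
  phd : PHD_Stmt
  phh : PHH_Stmt
  cv : CV_Stmt
  bv : BV_Stmt
  e1 : E1_Stmt
  e2 : E2_Stmt
  psi : PSI_Stmt
  npj : NPJ_Stmt
  val : VAL_Stmt
  k1 : K1_Stmt
  mu : MU_Stmt
  msi : MSI_Stmt

/-- The linear classes of degree `j`. -/
abbrev XL (V : SV) (j : ℕ) : Type := ↥(LC V j)

open Classical in
/-- A left inverse of `evB`. -/
noncomputable def evBinv (d : ℕ) : H (BB.pow d) →ₗ[k] SHU.Pl d :=
  if h : Function.Injective (evB d).toLinearMap then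
    (LinearMap.exists_leftInverse_of_injective (evB d).toLinearMap
      (LinearMap.ker_eq_bot.mpr h)).choose
  else 0

variable {V W U : SV} {t d : ℕ}

theorem Base.evBinv_evB (B : Base) (d : ℕ) (p : SHU.Pl d) : evBinv d (evB d p) = p := by
  have h : Function.Injective (evB d).toLinearMap := (B.k1 d).1
  unfold evBinv
  rw [dif_pos h]
  have := (LinearMap.exists_leftInverse_of_injective (evB d).toLinearMap
      (LinearMap.ker_eq_bot.mpr h)).choose_spec
  exact LinearMap.congr_fun this p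

theorem Base.evB_inj (B : Base) {d : ℕ} {p q : SHU.Pl d} (h : evB d p = evB d q) : p = q :=
  (B.k1 d).1 h

/-- homogeneous classes are values of homogeneous polynomials, given by `evBinv` -/
theorem Base.evB_evBinv (B : Base) {d n : ℕ} {a : H (BB.pow d)} (ha : a ∈ Hn (BB.pow d) n) :
    evB d (evBinv d a) = a ∧ (evBinv d a).IsHomogeneous n := by
  obtain ⟨p, hp, rfl⟩ := (B.k1 d).2 n a ha
  rw [B.evBinv_evB]
  exact ⟨rfl, hp⟩

/-- The slant product, polynomial valued. -/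
noncomputable def PhF (z : ZM (MapS (BB.pow d) V) t) (j : ℕ) : XL V j →ₗ[k] SHU.Pl d :=
  (evBinv d).comp ((Ph z).comp (LC V j).subtype)

theorem PhF_apply (z : ZM (MapS (BB.pow d) V) t) (j : ℕ) (x : XL V j) :
    PhF z j x = evBinv d (Ph z x.1) := rfl

theorem Base.lc_mem (B : Base) {j : ℕ} (x : XL V j) : x.1 ∈ RC V ∧ x.1 ∈ Hn V.toSS j :=
  ⟨(B.rch V).2.1 j x.2, (B.rch V).2.2.1 j x.2⟩

theorem Base.Ph_deg (B : Base) (ht : 1 ≤ t) {Y : SS} (hY : Y.LF) (z : ZM (MapS Y V) t) {j : ℕ}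
    (x : XL V j) : (j < t → Ph z x.1 = 0) ∧ (t ≤ j → Ph z x.1 ∈ Hn Y (j - t)) :=
  (B.ph1 t ht Y hY V z).2 j x.1 (B.lc_mem x).2 (B.lc_mem x).1

theorem Base.evB_PhF (B : Base) (ht : 1 ≤ t) (z : ZM (MapS (BB.pow d) V) t) (j : ℕ)
    (x : XL V j) : evB d (PhF z j x) = Ph z x.1 ∧
      (t ≤ j → (PhF z j x).IsHomogeneous (j - t)) ∧ (j < t → PhF z j x = 0) := by
  have h := B.Ph_deg ht (B.bbf d).1 z x
  rw [PhF_apply]
  rcases Nat.lt_or_ge j t with hj | hj
  · rw [h.1 hj, map_zero, map_zero]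
    exact ⟨rfl, fun h' => absurd h' (by omega), fun _ => rfl⟩
  · have h2 := B.evB_evBinv (h.2 hj)
    exact ⟨h2.1, fun _ => h2.2, fun h' => absurd h' (by omega)⟩

theorem Base.PhF_mem (B : Base) (ht : 1 ≤ t) (z : ZM (MapS (BB.pow d) V) t) :
    PhF z ∈ SHU.ES (XL V) t d := by
  intro j x e he
  obtain ⟨_, h2, h3⟩ := B.evB_PhF ht z j x
  rcases Nat.lt_or_ge j t with hj | hj
  · rw [h3 hj] at he
    exact absurd (MvPolynomial.coeff_zero e) he
  · have := (SHU.isHom_iff _).mp (h2 hj) e he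
    omega

open Classical in
/-- The slant product with values in `ES`. -/
noncomputable def PhE (z : ZM (MapS (BB.pow d) V) t) : SHU.ES (XL V) t d :=
  if h : PhF z ∈ SHU.ES (XL V) t d then ⟨PhF z, h⟩ else 0

theorem Base.PhE_val (B : Base) (ht : 1 ≤ t) (z : ZM (MapS (BB.pow d) V) t) :
    (PhE z).1 = PhF z := by
  unfold PhE
  rw [dif_pos (B.PhF_mem ht z)]

theorem Base.evB_PhE (B : Base) (ht : 1 ≤ t) (z : ZM (MapS (BB.pow d) V) t) (j : ℕ)
    (x : XL V j) : evB d ((PhE z).1 j x) = Ph z x.1 := by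
  rw [B.PhE_val ht]
  exact (B.evB_PhF ht z j x).1

theorem Base.PhE_ext (B : Base) (ht : 1 ≤ t) {z : ZM (MapS (BB.pow d) V) t}
    {c : SHU.ES (XL V) t d} (h : ∀ (j : ℕ) (x : XL V j), Ph z x.1 = evB d (c.1 j x)) :
    PhE z = c := by
  apply SHU.ES_ext
  intro j x
  apply B.evB_inj
  rw [B.evB_PhE ht, h]

theorem Base.PhE_add (B : Base) (ht : 1 ≤ t) (z z' : ZM (MapS (BB.pow d) V) t) :
    PhE (z + z') = PhE z + PhE z' := by
  apply B.PhE_ext ht
  intro j x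
  rw [B.phl t (BB.pow d) V z z' j x.1 x.2]
  show _ = evB d ((PhE z).1 j x + (PhE z').1 j x)
  rw [map_add, B.evB_PhE ht, B.evB_PhE ht]

theorem Base.PhE_zero (B : Base) (ht : 1 ≤ t) (z : ZM (MapS (BB.pow d) V) t)
    (hz : z.1 ∈ BM (MapS (BB.pow d) V) t) : PhE z = 0 := by
  apply B.PhE_ext ht
  intro j x
  rw [B.phb t ht (BB.pow d) V z hz x.1 (B.lc_mem x).1]
  exact (map_zero (evB d)).symm

/-- Moore cycles which differ by a boundary -/
theorem Base.BM_of_PhE (B : Base) (hV : V.LF) (ht : 1 ≤ t) (z z' : ZM (MapS (BB.pow d) V) t)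
    (h : PhE z = PhE z') : z.1 + z'.1 ∈ BM (MapS (BB.pow d) V) t := by
  apply B.cv V hV t ht (BB.pow d) (B.bbf d).1 (z + z')
  intro j a ha
  rw [B.phl t (BB.pow d) V z z' j a ha]
  have h1 := B.evB_PhE ht z j ⟨a, ha⟩
  have h2 := B.evB_PhE ht z' j ⟨a, ha⟩
  rw [h] at h1
  rw [← h1, ← h2, mod_two]

theorem Base.PhE_surj (B : Base) (hV : V.LF) (ht : 1 ≤ t) (c : SHU.ES (XL V) t d) :
    ∃ z : ZM (MapS (BB.pow d) V) t, PhE z = c ∧
      ∀ N : ℕ, (∀ j ≤ N, c.1 j = 0) → ∀ n ≤ N, ∀ x, z.1.1 n x = 0 := by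
  obtain ⟨z, h1, h2⟩ := B.bv V hV t ht (BB.pow d) (B.bbf d).1
    (fun j => (evB d).toLinearMap.comp (c.1 j)) (by
      intro j a hj
      exact evB_mem d _ _ (SHU.ES_hom c hj a)) (by
      intro j a hj
      show evB d (c.1 j a) = 0
      rw [SHU.ES_zero c hj, map_zero])
  refine ⟨z, B.PhE_ext ht fun j x => h1 j x, fun N hN n hn x => ?_⟩
  apply h2 N _ n hn x
  intro j hj
  rw [hN j hj, LinearMap.comp_zero]

theorem Base.PhE_pre (B : Base) (ht : 1 ≤ t) {d' : ℕ} (L : Fin d' → Fin d → ZMod 2)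
    (z : ZM (MapS (BB.pow d') V) t) : PhE (preZ (BL L) z) = SHU.subs L (PhE z) := by
  apply B.PhE_ext ht
  intro j x
  rw [B.phy t ht (BB.pow d') (BB.pow d) (B.bbf d').1 (B.bbf d).1 (BL L) V z x.1 (B.lc_mem x).1,
    SHU.subs_apply, ← B.e1, B.evB_PhE ht]

/-- congruence for composition with a pointed map -/
theorem app_congr {Y : SS} (ht : 1 ≤ t) (g : SS.Hom V.toSS W.toSS) (hg : ∀ n, g.f n 0 = 0)
    (z z' : ZM (MapS Y V) t) (h : z.1 + z'.1 ∈ BM (MapS Y V) t) :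
    (appZ g hg z).1 + (appZ g hg z').1 ∈ BM (MapS Y W) t := by
  obtain ⟨t, rfl⟩ : ∃ t', t = t' + 1 := ⟨t - 1, by omega⟩
  have h1 := app_add (mapApp Y g) (mapApp_zero Y g hg) z.2 z'.2
  have h2 := BM_app (mapApp Y g) (mapApp_zero Y g hg) h
  have h3 := Submodule.add_mem _ h1 h2
  have h4 : (mapApp Y g).f (t + 1) (z.1 + z'.1) + (mapApp Y g).f (t + 1) z.1 +
      (mapApp Y g).f (t + 1) z'.1 + (mapApp Y g).f (t + 1) (z.1 + z'.1) =
      (mapApp Y g).f (t + 1) z.1 + (mapApp Y g).f (t + 1) z'.1 +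
      ((mapApp Y g).f (t + 1) (z.1 + z'.1) + (mapApp Y g).f (t + 1) (z.1 + z'.1)) := by abel
  rw [h4, mod_two, add_zero] at h3
  exact h3

theorem app_add' {Y : SS} (ht : 1 ≤ t) (g : SS.Hom V.toSS W.toSS) (hg : ∀ n, g.f n 0 = 0)
    (z z' : ZM (MapS Y V) t) :
    (appZ g hg (z + z') + (appZ g hg z + appZ g hg z')).1 ∈ BM (MapS Y W) t := by
  obtain ⟨t, rfl⟩ : ∃ t', t = t' + 1 := ⟨t - 1, by omega⟩
  have h1 := app_add (mapApp Y g) (mapApp_zero Y g hg) z.2 z'.2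
  rw [add_assoc] at h1
  exact h1

/-- if two Moore cycles are equal up to a boundary then `PhE` agree -/
theorem Base.PhE_congr (B : Base) (ht : 1 ≤ t) (z z' : ZM (MapS (BB.pow d) V) t)
    (h : z.1 + z'.1 ∈ BM (MapS (BB.pow d) V) t) : PhE z = PhE z' := by
  have h1 := B.PhE_zero ht (z + z') h
  rw [B.PhE_add ht] at h1
  exact mod_two_eq h1

open Classical in
/-- A lift of an element of `ES` to a Moore cycle. -/
noncomputable def lift (t d : ℕ) (c : SHU.ES (XL V) t d) : ZM (MapS (BB.pow d) V) t :=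
  if h : ∃ z : ZM (MapS (BB.pow d) V) t, PhE z = c ∧
      ∀ N : ℕ, (∀ j ≤ N, c.1 j = 0) → ∀ n ≤ N, ∀ x, z.1.1 n x = 0 then h.choose else 0

theorem Base.lift_spec (B : Base) (hV : V.LF) (ht : 1 ≤ t) (c : SHU.ES (XL V) t d) :
    PhE (lift t d c) = c ∧
      ∀ N : ℕ, (∀ j ≤ N, c.1 j = 0) → ∀ n ≤ N, ∀ x, (lift t d c).1.1 n x = 0 := by
  unfold lift
  rw [dif_pos (B.PhE_surj hV ht c)]
  exact (B.PhE_surj hV ht c).choose_spec

/-- The map induced by a pointed simplicial map, as a function. -/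
noncomputable def alpF (g : SS.Hom V.toSS W.toSS) (hg : ∀ n, g.f n 0 = 0) (t d : ℕ)
    (c : SHU.ES (XL V) t d) : SHU.ES (XL W) t d := PhE (appZ g hg (lift t d c))

theorem Base.alpF_PhE (B : Base) (hV : V.LF) (ht : 1 ≤ t) (g : SS.Hom V.toSS W.toSS)
    (hg : ∀ n, g.f n 0 = 0) (z : ZM (MapS (BB.pow d) V) t) :
    alpF g hg t d (PhE z) = PhE (appZ g hg z) := by
  unfold alpF
  apply B.PhE_congr ht
  apply app_congr ht
  exact B.BM_of_PhE hV ht _ _ (B.lift_spec hV ht _).1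

theorem Base.alpF_add (B : Base) (hV : V.LF) (ht : 1 ≤ t) (g : SS.Hom V.toSS W.toSS)
    (hg : ∀ n, g.f n 0 = 0) (c c' : SHU.ES (XL V) t d) :
    alpF g hg t d (c + c') = alpF g hg t d c + alpF g hg t d c' := by
  obtain ⟨z, rfl, _⟩ := B.PhE_surj hV ht c
  obtain ⟨z', rfl, _⟩ := B.PhE_surj hV ht c'
  rw [← B.PhE_add ht, B.alpF_PhE hV ht, B.alpF_PhE hV ht, B.alpF_PhE hV ht, ← B.PhE_add ht]
  apply B.PhE_congr ht
  exact app_add' ht g hg z z'

open Classical in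
/-- The linear map induced by a pointed simplicial map for `t = 1`. -/
noncomputable def alpL (g : SS.Hom V.toSS W.toSS) (hg : ∀ n, g.f n 0 = 0) (d : ℕ) :
    SHU.ES (XL V) 1 d →ₗ[ZMod 2] SHU.ES (XL W) 1 d :=
  if h : ∀ c c', alpF g hg 1 d (c + c') = alpF g hg 1 d c + alpF g hg 1 d c' then
    (AddMonoidHom.mk' (alpF g hg 1 d) h).toZModLinearMap 2
  else 0

theorem Base.alpL_PhE (B : Base) (hV : V.LF) (g : SS.Hom V.toSS W.toSS)
    (hg : ∀ n, g.f n 0 = 0) (z : ZM (MapS (BB.pow d) V) 1) :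
    alpL g hg d (PhE z) = PhE (appZ g hg z) := by
  unfold alpL
  rw [dif_pos (B.alpF_add hV (le_refl 1) g hg)]
  exact B.alpF_PhE hV (le_refl 1) g hg z

/-- classes of degree `j` only depend on the level `j` of a map -/
theorem map_congr_level {X Y : SS} (F F' : SS.Hom X Y) {j : ℕ} (h : ∀ x, F.f j x = F'.f j x)
    {a : H Y} (ha : a ∈ Hn Y j) : H.map F a = H.map F' a := by
  obtain ⟨f, hf, rfl⟩ := mem_Hn.mp ha
  rw [H.map_cls, H.map_cls]
  congr 1
  apply Subtype.ext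
  apply Coch.ext
  intro n x
  show f.1 n (F.f n x) = f.1 n (F'.f n x)
  by_cases hn : n = j
  · subst hn
    rw [h]
  · rw [hf n hn, hf n hn]

/-- a Moore cycle which vanishes in level `j` has zero slant product with reduced classes of
degree `j` -/
theorem Base.Ph_level (B : Base) {Y : SS} (z : ZM (MapS Y V) t) {j : ℕ}
    (hz : ∀ x, z.1.1 j x = 0) {a : H V.toSS} (ha : a ∈ Hn V.toSS j) (hr : a ∈ RC V) :
    Ph z a = 0 := by
  have h1 : H.map (HV.hom (sph z)) a = H.map (zmap ((Sph t).prod Y) V) a := by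
    apply map_congr_level _ _ _ ha
    rintro ⟨o, y⟩
    cases o with
    | none => rfl
    | some b => exact hz (b.1, y)
  show mulEinv t Y (H.map (HV.hom (sph z)) a) = 0
  rw [h1, B.zm0 _ _ a hr, map_zero]

theorem Base.alpL_IsNT (B : Base) (hV : V.LF) (g : SS.Hom V.toSS W.toSS)
    (hg : ∀ n, g.f n 0 = 0) : SHU.IsNT 1 (alpL g hg) where
  nat := by
    intro d' d L c
    obtain ⟨z, rfl, _⟩ := B.PhE_surj hV (le_refl 1) c
    rw [← B.PhE_pre (le_refl 1), B.alpL_PhE hV, B.alpL_PhE hV, ← B.PhE_pre (le_refl 1)]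
    rfl
  cont := by
    intro d c N hc j hj
    obtain ⟨z, rfl, hz⟩ := B.PhE_surj hV (le_refl 1) c
    rw [B.alpL_PhE hV]
    apply LinearMap.ext
    intro x
    apply B.evB_inj
    rw [B.evB_PhE (le_refl 1), LinearMap.zero_apply, map_zero]
    apply B.Ph_level _ _ (B.lc_mem x).2 (B.lc_mem x).1
    intro y
    show g.f j (z.1.1 j y) = 0
    rw [hz N hc j hj, hg]

/-- The linear maps induced by a pointed simplicial map, for all `t ≥ 1`. -/
noncomputable def al (g : SS.Hom V.toSS W.toSS) (hg : ∀ n, g.f n 0 = 0) :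
    ∀ t d : ℕ, SHU.ES (XL V) t d →ₗ[ZMod 2] SHU.ES (XL W) t d
  | 0, _ => 0
  | 1, d => alpL g hg d
  | t + 2, d => (SHU.DD (t + 1) d).comp ((al g hg (t + 1) (d + 1)).comp (SHU.iota (t + 1) d))

theorem al_one (g : SS.Hom V.toSS W.toSS) (hg : ∀ n, g.f n 0 = 0) (d : ℕ) :
    al g hg 1 d = alpL g hg d := rfl

theorem al_succ (g : SS.Hom V.toSS W.toSS) (hg : ∀ n, g.f n 0 = 0) (ht : 1 ≤ t) (d : ℕ)
    (c : SHU.ES (XL V) (t + 1) d) :
    al g hg (t + 1) d c = SHU.DD t d (al g hg t (d + 1) (SHU.iota t d c)) := by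
  obtain ⟨t, rfl⟩ : ∃ t', t = t' + 1 := ⟨t - 1, by omega⟩
  rfl

theorem ES_two {X : ℕ → Type} [∀ j, AddCommGroup (X j)] [∀ j, Module (ZMod 2) (X j)]
    (c : SHU.ES X t d) : c + c = 0 := mod_two c

theorem DD_subs {X : ℕ → Type} [∀ j, AddCommGroup (X j)] [∀ j, Module (ZMod 2) (X j)]
    {d' : ℕ} (L : Fin d' → Fin d → ZMod 2) (c : SHU.ES X t (d' + 1)) :
    SHU.DD t d (SHU.subs (SHU.L1 L) c) = SHU.subs L (SHU.DD t d' c) := by
  apply SHU.ES_ext
  intro j x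
  rw [SHU.DD_apply, SHU.subs_apply, SHU.subs_apply, SHU.DD_apply, SHU.co1_lin]

theorem Base.al_IsNT (B : Base) (hV : V.LF) (g : SS.Hom V.toSS W.toSS)
    (hg : ∀ n, g.f n 0 = 0) (ht : 1 ≤ t) : SHU.IsNT t (al g hg t) := by
  induction t, ht using Nat.le_induction with
  | base => exact B.alpL_IsNT hV g hg
  | succ t ht ih =>
    constructor
    · intro d' d L c
      rw [al_succ g hg ht, al_succ g hg ht, SHU.iota_subs, ih.nat, DD_subs]
    · intro d c N hc j hj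
      rw [al_succ g hg ht]
      have h1 := ih.cont (d + 1) (SHU.iota t d c) N (by
        intro j hj
        apply LinearMap.ext
        intro x
        rw [SHU.iota_apply, hc j hj, LinearMap.zero_apply, map_zero, mul_zero]
        rfl) j hj
      apply LinearMap.ext
      intro x
      rw [SHU.DD_apply, h1, LinearMap.zero_apply, LinearMap.zero_apply, map_zero]

/-- finiteness of the spaces of linear classes -/
theorem Base.fin (B : Base) (hV : V.LF) (j : ℕ) : Module.Finite (ZMod 2) (XL V j) := by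
  have h : Finite (XL V j) := (B.rch V).2.2.2 hV j
  exact Module.Finite.of_finite

theorem Base.al_Compat (B : Base) (hV : V.LF) (hW : W.LF) (g : SS.Hom V.toSS W.toSS)
    (hg : ∀ n, g.f n 0 = 0) (ht : 1 ≤ t) : SHU.Compat t (al g hg t) (al g hg (t + 1)) := by
  have hf : ∀ j, Module.Finite (ZMod 2) (XL V j) := B.fin hV
  intro d c
  rw [al_succ g hg ht]
  apply mod_two_eq
  set h := SHU.iota t d (SHU.DD t d c) + c with hh
  have hd : SHU.DD t d (al g hg t (d + 1) (SHU.iota t d (SHU.DD t d c))) +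
      SHU.DD t d (al g hg t (d + 1) c) = SHU.DD t d (al g hg t (d + 1) h) := by
    rw [hh, LinearMap.map_add, LinearMap.map_add]
  rw [hd]
  have h0 : SHU.DD t d h = 0 := by
    rw [hh, LinearMap.map_add, SHU.DD_iota]
    exact ES_two _
  apply SHU.ES_ext
  intro j x
  rw [SHU.DD_apply]
  show SHU.co1 d ((al g hg t (d + 1) h).1 j x) = 0
  rcases Nat.lt_or_ge j t with hj | hj
  · rw [SHU.ES_zero _ hj, map_zero]
  · have h1 := ((SHU.pr_IsPN (show j - t + t = j by omega) x).comp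
      (B.al_IsNT hV g hg ht)).co1_zero d h h0
    exact h1

theorem appZ_comp {Y : SS} (g : SS.Hom V.toSS W.toSS) (hg : ∀ n, g.f n 0 = 0)
    (g' : SS.Hom W.toSS U.toSS) (hg' : ∀ n, g'.f n 0 = 0)
    (gg : SS.Hom V.toSS U.toSS) (hgg : ∀ n, gg.f n 0 = 0)
    (he : ∀ n x, gg.f n x = g'.f n (g.f n x)) (z : ZM (MapS Y V) t) :
    appZ gg hgg z = appZ g' hg' (appZ g hg z) := by
  apply Subtype.ext
  apply HV.ext
  intro n x
  exact he n _

theorem Base.al_comp (B : Base) (hV : V.LF) (hW : W.LF) (hU : U.LF)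
    (g : SS.Hom V.toSS W.toSS) (hg : ∀ n, g.f n 0 = 0)
    (g' : SS.Hom W.toSS U.toSS) (hg' : ∀ n, g'.f n 0 = 0)
    (gg : SS.Hom V.toSS U.toSS) (hgg : ∀ n, gg.f n 0 = 0)
    (he : ∀ n x, gg.f n x = g'.f n (g.f n x)) (ht : 1 ≤ t) :
    ∀ (d : ℕ) (c : SHU.ES (XL V) t d), al gg hgg t d c = al g' hg' t d (al g hg t d c) := by
  induction t, ht using Nat.le_induction with
  | base =>
    intro d c
    obtain ⟨z, rfl, _⟩ := B.PhE_surj hV (le_refl 1) c
    rw [al_one, al_one, al_one, B.alpL_PhE hV, B.alpL_PhE hV, B.alpL_PhE hW,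
      appZ_comp g hg g' hg' gg hgg he]
  | succ t ht ih =>
    intro d c
    rw [al_succ gg hgg ht, al_succ g hg ht, B.al_Compat hW hU g' hg' ht, ih]

end Pool.Agent.SHL
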