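import Pool.Agent.SH.S.Deg

/-!
LINK between block III-S / III-Q and the algebra of block III-U of MP_2d0b73_an:
mapping spaces into simplicial vector spaces, Moore cycles and boundaries, linear classes,
final statement.
-/

namespace Pool.Agent.SHL

open Pool.Agent.SHS

/-! ### Simplicial maps into a simplicial vector space -/

/-- The vector space of simplicial maps from `X` into the simplicial vector space `V`. -/
def HV (X : SS) (V : SV) : Submodule k (∀ n, X.X n → V.X n) where
  carrier := {f | ∀ (m n : ℕ) (a : Mor m n) (x : X.X n), f m (X.map a x) = V.map a (f n x)}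
  zero_mem' := fun m n a x => (map_zero (V.map a)).symm
  add_mem' := by
    intro f g hf hg m n a x
    show f m (X.map a x) + g m (X.map a x) = V.map a (f n x + g n x)
    rw [hf, hg, map_add]
  smul_mem' := by
    intro c f hf m n a x
    show c • f m (X.map a x) = V.map a (c • f n x)
    rw [hf, map_smul]

namespace HV

variable {X Y Z : SS} {V W U : SV}

theorem ext {f g : HV X V} (h : ∀ n x, f.1 n x = g.1 n x) : f = g := by
  apply Subtype.ext
  funext n x
  exact h n x

theorem nat (f : HV X V) {m n : ℕ} (a : Mor m n) (x : X.X n) :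
    f.1 m (X.map a x) = V.map a (f.1 n x) := f.2 m n a x

/-- the underlying simplicial map -/
def hom (f : HV X V) : SS.Hom X V.toSS := ⟨f.1, fun a x => f.2 _ _ a x⟩

/-- from simplicial maps -/
def of (f : SS.Hom X V.toSS) : HV X V := ⟨f.f, fun _ _ a x => f.nat a x⟩

theorem add_apply (f g : HV X V) (n : ℕ) (x : X.X n) : (f + g).1 n x = f.1 n x + g.1 n x := rfl
theorem zero_apply (n : ℕ) (x : X.X n) : (0 : HV X V).1 n x = 0 := rfl
theorem smul_apply (c : k) (f : HV X V) (n : ℕ) (x : X.X n) : (c • f).1 n x = c • f.1 n x := rfl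

theorem sum_apply {ι : Type*} (s : Finset ι) (f : ι → HV X V) (n : ℕ) (x : X.X n) :
    (∑ i ∈ s, f i).1 n x = ∑ i ∈ s, (f i).1 n x := by
  classical
  induction s using Finset.induction_on with
  | empty => rfl
  | insert a s ha ih => rw [Finset.sum_insert ha, Finset.sum_insert ha, add_apply, ih]

/-- precomposition with a simplicial map -/
def pre (φ : SS.Hom X Y) : HV Y V →ₗ[k] HV X V where
  toFun f := ⟨fun n x => f.1 n (φ.f n x), fun m n a x => by
    show f.1 m (φ.f m (X.map a x)) = V.map a (f.1 n (φ.f n x))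
    rw [φ.nat, nat]⟩
  map_add' _ _ := rfl
  map_smul' _ _ := rfl

theorem pre_apply (φ : SS.Hom X Y) (f : HV Y V) (n : ℕ) (x : X.X n) :
    (pre φ f).1 n x = f.1 n (φ.f n x) := rfl

/-- postcomposition with a linear simplicial map -/
def post (L : SV.Hom V W) : HV X V →ₗ[k] HV X W where
  toFun f := ⟨fun n x => L.f n (f.1 n x), fun m n a x => by
    show L.f m (f.1 m (X.map a x)) = W.map a (L.f n (f.1 n x))
    rw [nat, L.nat]⟩
  map_add' f g := by
    apply ext
    intro n x
    exact map_add (L.f n) _ _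
  map_smul' c f := by
    apply ext
    intro n x
    exact map_smul (L.f n) _ _

theorem post_apply (L : SV.Hom V W) (f : HV X V) (n : ℕ) (x : X.X n) :
    (post L f).1 n x = L.f n (f.1 n x) := rfl

/-- postcomposition with an arbitrary simplicial map -/
def app (g : SS.Hom V.toSS W.toSS) (f : HV X V) : HV X W :=
  ⟨fun n x => g.f n (f.1 n x), fun m n a x => by
    show g.f m (f.1 m (X.map a x)) = W.map a (g.f n (f.1 n x))
    rw [nat]
    exact g.nat a _⟩

theorem app_apply (g : SS.Hom V.toSS W.toSS) (f : HV X V) (n : ℕ) (x : X.X n) :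
    (app g f).1 n x = g.f n (f.1 n x) := rfl

end HV

/-! ### Mapping spaces -/

/-- `Δ^a × id`. -/
def dmap {m n : ℕ} (a : Mor m n) (Y : SS) :
    SS.Hom ((SS.simplex m).prod Y) ((SS.simplex n).prod Y) where
  f _ x := (a.comp x.1, x.2)
  nat _ _ := rfl

/-- The simplicial vector space `Map(Y,V)`: an `r`-simplex is a simplicial map `Δ^r × Y → V`. -/
abbrev MapS (Y : SS) (V : SV) : SV where
  X r := HV ((SS.simplex r).prod Y) V
  map a := HV.pre (dmap a Y)
  map_id _ := rfl
  map_comp _ _ _ := rfl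

/-- Moore cycles of dimension `t`: simplices all of whose faces are zero. -/
def ZM (U : SV) (t : ℕ) : Submodule k (U.X t) where
  carrier := {z | ∀ (r : ℕ) (a : Mor r t), ¬ Function.Surjective a → U.map a z = 0}
  zero_mem' := fun _ a _ => map_zero (U.map a)
  add_mem' := by
    intro x y hx hy r a ha
    rw [map_add, hx r a ha, hy r a ha, add_zero]
  smul_mem' := by
    intro c x hx r a ha
    rw [map_smul, hx r a ha, smul_zero]

/-- Moore boundaries: the `0`-th face of a `(t+1)`-simplex whose other faces are zero. -/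
def BM (U : SV) (t : ℕ) : Submodule k (U.X t) where
  carrier := {z | ∃ w : U.X (t + 1), U.map (cof 0) w = z ∧
    ∀ i : Fin (t + 2), i ≠ 0 → U.map (cof i) w = 0}
  zero_mem' := ⟨0, map_zero _, fun _ _ => map_zero _⟩
  add_mem' := by
    rintro x y ⟨w, h1, h2⟩ ⟨w', h1', h2'⟩
    exact ⟨w + w', by rw [map_add, h1, h1'], fun i hi => by rw [map_add, h2 i hi, h2' i hi, add_zero]⟩
  smul_mem' := by
    rintro c x ⟨w, h1, h2⟩
    exact ⟨c • w, by rw [map_smul, h1], fun i hi => by rw [map_smul, h2 i hi, smul_zero]⟩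

/-! ### Linear classes -/

/-- Classes of linear cocycles of degree `j`. -/
def LC (V : SV) (j : ℕ) : Submodule k (H V.toSS) where
  carrier := {a | ∃ (l : V.X j →ₗ[k] k) (h : V.toSS.cm.delta j (fun x => l x) = 0),
    clsN j (fun x => l x) h = a}
  zero_mem' := ⟨0, map_zero _, by
    unfold clsN
    rw [cls_eq_zero]
    refine ⟨0, ?_⟩
    rw [map_zero]
    exact (single_zero j).symm⟩
  add_mem' := by
    rintro a b ⟨l, h, rfl⟩ ⟨l', h', rfl⟩
    exact ⟨l + l', by
      have := map_add (V.toSS.cm.delta j) (fun x => l x) (fun x => l' x)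
      rw [h, h', add_zero] at this
      exact this, clsN_add _ _ h h'⟩
  smul_mem' := by
    rintro c a ⟨l, h, rfl⟩
    exact ⟨c • l, by
      have := map_smul (V.toSS.cm.delta j) c (fun x => l x)
      rw [h, smul_zero] at this
      exact this, clsN_smul c _ h⟩

/-! ### Cosimplicial simplicial vector spaces with pointed non linear operators -/

/-- A cosimplicial object in simplicial sets, all of whose terms are simplicial vector spaces and
all of whose operators preserve 0 (but need not be linear). -/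
structure CSV where
  V : ℕ → SV
  op : ∀ {a b : ℕ}, Mor a b → SS.Hom (V a).toSS (V b).toSS
  op_comp : ∀ {a b c : ℕ} (f : Mor a b) (g : Mor b c) (n : ℕ) (x : (V a).X n),
    (op (g.comp f)).f n x = (op g).f n ((op f).f n x)
  op_zero : ∀ {a b : ℕ} (f : Mor a b) (n : ℕ), (op f).f n 0 = 0
  lf : ∀ s, (V s).LF
  z0 : ∀ s (x : (V s).X 0), x = 0

/-- The alternating sum of the coface operators in cohomology. -/
noncomputable def CSV.dl (C : CSV) (s : ℕ) : H (C.V (s + 1)).toSS →ₗ[k] H (C.V s).toSS :=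
  ∑ i : Fin (s + 2), (H.map (C.op (cof i))).toLinearMap

/-- Exactness of the indecomposables in degree `j`. -/
def CSV.QE (C : CSV) (j : ℕ) : Prop :=
  (∀ a ∈ Hn (C.V 0).toSS j, ∃ b ∈ Hn (C.V 1).toSS j, a + C.dl 0 b ∈ Dec (C.V 0).toSS) ∧
  ∀ s, ∀ a ∈ Hn (C.V (s + 1)).toSS j, C.dl s a ∈ Dec (C.V s).toSS →
    ∃ b ∈ Hn (C.V (s + 2)).toSS j, a + C.dl (s + 1) b ∈ Dec (C.V (s + 1)).toSS

/-- Simplices of `Map_*(BB,V)`: those vanishing at the base point of `BB` (the simplices 0). -/
def PT (V : SV) (t : ℕ) : Submodule k ((MapS BB V).X t) where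
  carrier := {f | ∀ (r : ℕ) (a : Mor r t), f.1 r (a, 0) = 0}
  zero_mem' := fun _ _ => rfl
  add_mem' := by
    intro f g hf hg r a
    rw [HV.add_apply, hf, hg, add_zero]
  smul_mem' := by
    intro c f hf r a
    rw [HV.smul_apply, hf, smul_zero]

/-- Moore boundaries of `Map_*(BB,V)`. -/
def PB (V : SV) (t : ℕ) (z : (MapS BB V).X t) : Prop :=
  ∃ w ∈ PT V (t + 1), (MapS BB V).map (cof 0) w = z ∧
    ∀ i : Fin (t + 2), i ≠ 0 → (MapS BB V).map (cof i) w = 0

/-- The sum of all cofaces of a `t`-simplex of a mapping space. -/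
noncomputable def CSV.cf (C : CSV) {X : SS} (s : ℕ) (z : HV X (C.V s)) : HV X (C.V (s + 1)) :=
  ∑ i : Fin (s + 2), HV.app (C.op (cof i)) z

/-- The final statement: exactness of the homotopy groups of the cosimplicial space
`Map_*(BB,V)`. -/
def CSV.FINAL (C : CSV) : Prop := ∀ t, 1 ≤ t →
  (∀ z : (MapS BB (C.V 0)).X t, z ∈ ZM (MapS BB (C.V 0)) t → z ∈ PT (C.V 0) t →
    PB (C.V 1) t (C.cf 0 z) → PB (C.V 0) t z) ∧
  ∀ s, ∀ z : (MapS BB (C.V (s + 1))).X t, z ∈ ZM (MapS BB (C.V (s + 1))) t →
    z ∈ PT (C.V (s + 1)) t → PB (C.V (s + 2)) t (C.cf (s + 1) z) →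
    ∃ y : (MapS BB (C.V s)).X t, y ∈ ZM (MapS BB (C.V s)) t ∧ y ∈ PT (C.V s) t ∧
      PB (C.V (s + 1)) t (z + C.cf s y)

/-- What block LINK proves. -/
def LINK_Stmt : Prop := ∀ C : CSV, (∃ N, ∀ j ≥ N, C.QE j) → C.FINAL

end Pool.Agent.SHL
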