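import Pool.Agent.SH.L.Stmts
import Pool.Agent.SH.S.Tools

/-!
LINK: restriction of the first variable to the circle.
-/

namespace Pool.Agent.SHL

open Pool.Agent.SHS

namespace E2l

open MvPolynomial

/-- Induction: sums of products `X 0 ^ a * r(X 1, X 2, ...)`. -/
theorem span_ind {d : ℕ} (P : MvPolynomial (Fin (d + 1)) k → Prop)
    (hadd : ∀ p q, P p → P q → P (p + q))
    (hmon : ∀ (a : ℕ) (r : MvPolynomial (Fin d) k), P (X 0 ^ a * rename Fin.succ r))
    (p : MvPolynomial (Fin (d + 1)) k) : P p := by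
  have key : ∀ Q : Polynomial (MvPolynomial (Fin d) k), P ((finSuccEquiv k d).symm Q) := by
    intro Q
    induction Q using Polynomial.induction_on' with
    | add p q hp hq => rw [map_add]; exact hadd _ _ hp hq
    | monomial a r =>
      have h : (finSuccEquiv k d).symm (Polynomial.monomial a r) = X 0 ^ a * rename Fin.succ r := by
        rw [AlgEquiv.symm_apply_eq, map_mul, map_pow, finSuccEquiv_X_zero]
        have h2 : finSuccEquiv k d (rename Fin.succ r) = Polynomial.C r := SHU.fse_rename_succ d r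
        rw [h2, mul_comm, Polynomial.C_mul_X_pow_eq_monomial]
      rw [h]
      exact hmon a r
  have := key (finSuccEquiv k d p)
  rwa [AlgEquiv.symm_apply_apply] at this

theorem qB_zero (d : ℕ) : H.map (qB d) (evB (d + 1) (X 0)) = H.map (SS.fst S1 (BB.pow d)) ee := by
  unfold evB ee
  rw [aeval_X, ← H.map_comp, ← H.map_comp]
  rfl

theorem qB_succ (d : ℕ) (r : MvPolynomial (Fin d) k) :
    H.map (qB d) (evB (d + 1) (rename Fin.succ r)) = H.map (SS.snd S1 (BB.pow d)) (evB d r) := by
  rw [← evB_reidx, ← H.map_comp]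
  rfl

theorem co1_X_pow (d a : ℕ) (r : MvPolynomial (Fin d) k) :
    SHU.co1 d (X 0 ^ a * rename Fin.succ r) = if a = 1 then r else 0 := by
  have h2 : finSuccEquiv (ZMod 2) d (rename Fin.succ r) = Polynomial.C r := SHU.fse_rename_succ d r
  rw [SHU.co1_apply, map_mul, map_pow, h2, finSuccEquiv_X_zero, mul_comm,
    Polynomial.coeff_C_mul_X_pow]
  by_cases h : a = 1
  · rw [if_pos h, if_pos h.symm]
  · rw [if_neg h, if_neg (fun h' => h h'.symm)]

theorem lin_rename (d : ℕ) (r : MvPolynomial (Fin d) k) :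
    SHU.lin (SHU.Lzero d) (rename Fin.succ r) = r := by
  have h : (SHU.lin (SHU.Lzero d)).comp (rename Fin.succ) = AlgHom.id (ZMod 2) (SHU.Pl d) := by
    apply MvPolynomial.algHom_ext
    intro i
    rw [AlgHom.comp_apply, rename_X, SHU.lin_Lzero_succ]
    rfl
  exact DFunLike.congr_fun h r

end E2l

theorem E2 (hk : SK_Stmt) (he : EPS1_Stmt) : E2_Stmt := by
  intro d p
  have hee : ee * ee = 0 := hk.1
  induction p using E2l.span_ind with
  | hadd p q hp hq =>
    rw [map_add, map_add, hp, hq, map_add, map_add, map_add, map_add, map_add, map_add]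
    abel
  | hmon a r =>
    rw [map_mul, map_pow, map_mul, map_pow, E2l.qB_zero, E2l.qB_succ, E2l.co1_X_pow, mulE_apply,
      map_mul (SHU.lin (SHU.Lzero d)), map_pow (SHU.lin (SHU.Lzero d)), SHU.lin_Lzero_zero,
      E2l.lin_rename]
    have he' : eps 1 = ee := he
    rw [he']
    rcases a with _ | _ | a
    · simp
    · simp
    · have h0 : (H.map (SS.fst S1 (BB.pow d)) ee) ^ (a + 2) = 0 := by
        rw [pow_add, pow_two, ← map_mul, hee, map_zero, mul_zero]
      simp [h0]

end Pool.Agent.SHL
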