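import Pool.Agent.SH.L.Alpha

/-!
LINK: `al g t` computes the effect of `g` on Moore cycles of all dimensions `t ≥ 1`.
-/

namespace Pool.Agent.SHL

open Pool.Agent.SHS

variable {V W U : SV} {t d : ℕ}

theorem Ph_zero {Y : SS} (a : H V.toSS) (h : H.map (zmap ((Sph t).prod Y) V) a = 0) :
    Ph (0 : ZM (MapS Y V) t) a = 0 := by
  show mulEinv t Y (H.map (HV.hom (sph (0 : ZM (MapS Y V) t))) a) = 0
  rw [map_zero]
  show mulEinv t Y (H.map (zmap ((Sph t).prod Y) V) a) = 0
  rw [h, map_zero]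

theorem subs_Lzero_iota {X : ℕ → Type} [∀ j, AddCommGroup (X j)] [∀ j, Module (ZMod 2) (X j)]
    (c : SHU.ES X (t + 1) d) : SHU.subs (SHU.Lzero d) (SHU.iota t d c) = 0 := by
  apply SHU.ES_ext
  intro j x
  rw [SHU.subs_apply, SHU.iota_apply, map_mul, SHU.lin_Lzero_zero, zero_mul]
  rfl

theorem Base.al_PhE (B : Base) (hV : V.LF) (g : SS.Hom V.toSS W.toSS)
    (hg : ∀ n, g.f n 0 = 0) (ht : 1 ≤ t) : ∀ (d : ℕ) (z : ZM (MapS (BB.pow d) V) t),
    al g hg t d (PhE z) = PhE (appZ g hg z) := by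
  induction t, ht using Nat.le_induction with
  | base => exact fun d z => B.alpL_PhE hV g hg z
  | succ t ht ih =>
    intro d z
    have hY : (S1.prod (BB.pow d)).LF := (B.bbf d).2
    obtain ⟨z', hz', _⟩ := B.PhE_surj hV ht (SHU.iota t d (PhE z))
    -- the two Moore cycles over `S^1 × B^d`
    have key : ∀ (j : ℕ) (a : XL V j), Ph (preZ (qB d) z') a.1 = Ph (hh z) a.1 := by
      intro j a
      rw [B.phy t ht _ _ (B.bbf (d + 1)).1 hY (qB d) V z' a.1 (B.lc_mem a).1,
        B.phh t ht _ (B.bbf d).1 V z a.1 (B.lc_mem a).1, ← B.evB_PhE ht, hz', B.e2,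
        SHU.iota_apply, SHU.co1_X_rename, map_mul, SHU.lin_Lzero_zero, zero_mul, map_zero,
        map_zero, add_zero, B.evB_PhE (by omega)]
    have hb : (preZ (qB d) z').1 + (hh z).1 ∈ BM (MapS (S1.prod (BB.pow d)) V) t := by
      apply B.cv V hV t ht _ hY (preZ (qB d) z' + hh z)
      intro j a ha
      rw [B.phl t _ V _ _ j a ha, key j ⟨a, ha⟩, mod_two]
    have hb2 := app_congr ht g hg _ _ hb
    have key2 : ∀ (j : ℕ) (a : XL W j), Ph (appZ g hg (preZ (qB d) z')) a.1 =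
        Ph (appZ g hg (hh z)) a.1 := by
      intro j a
      have h1 := B.phb t ht _ W (appZ g hg (preZ (qB d) z') + appZ g hg (hh z)) hb2 a.1
        (B.lc_mem a).1
      rw [B.phl t _ W _ _ j a.1 a.2] at h1
      exact mod_two_eq h1
    symm
    apply B.PhE_ext (by omega)
    intro j a
    have e1 : Ph (appZ g hg (preZ (qB d) z')) a.1 =
        mulE 1 (BB.pow d) (evB d ((al g hg (t + 1) d (PhE z)).1 j a)) := by
      show Ph (preZ (qB d) (appZ g hg z')) a.1 = _
      rw [B.phy t ht _ _ (B.bbf (d + 1)).1 hY (qB d) W _ a.1 (B.lc_mem a).1, ← B.evB_PhE ht,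
        ← ih, hz', B.e2, al_succ g hg ht, SHU.DD_apply, ← SHU.subs_apply,
        ← (B.al_IsNT hV g hg ht).nat, subs_Lzero_iota, map_zero]
      show _ + H.map (SS.snd S1 (BB.pow d)) (evB d 0) = _
      rw [map_zero, map_zero, add_zero]
    have e2 : Ph (appZ g hg (hh z)) a.1 = mulE 1 (BB.pow d) (Ph (appZ g hg z) a.1) := by
      have h1 : appZ g hg (hh z) = hh (appZ g hg z) := by
        apply Subtype.ext
        apply HV.ext
        rintro n ⟨b, o, y⟩
        cases o with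
        | none => exact hg n
        | some e => rfl
      rw [h1, B.phh t ht _ (B.bbf d).1 W _ a.1 (B.lc_mem a).1]
    apply (B.skt 1 (le_refl 1) (BB.pow d) (B.bbf d).1).1
    rw [← e1, ← e2, key2]

/-! ### The differential of a cosimplicial object -/

/-- The sum of the cofaces on `ES`. -/
noncomputable def dlE (C : CSV) (s t d : ℕ) :
    SHU.ES (XL (C.V s)) t d →ₗ[ZMod 2] SHU.ES (XL (C.V (s + 1))) t d :=
  ∑ i : Fin (s + 2), al (C.op (cof i)) (C.op_zero (cof i)) t d

theorem dlE_apply (C : CSV) (s t d : ℕ) (c : SHU.ES (XL (C.V s)) t d) :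
    dlE C s t d c = ∑ i : Fin (s + 2), al (C.op (cof i)) (C.op_zero (cof i)) t d c := by
  rw [dlE, LinearMap.sum_apply]

theorem ES_sum_val {X : ℕ → Type} [∀ j, AddCommGroup (X j)] [∀ j, Module (ZMod 2) (X j)]
    {ι : Type} (s : Finset ι) (f : ι → SHU.ES X t d) (j : ℕ) (x : X j) :
    (∑ i ∈ s, f i).1 j x = ∑ i ∈ s, (f i).1 j x := by
  classical
  induction s using Finset.induction_on with
  | empty => rfl
  | insert a s ha ih =>
    rw [Finset.sum_insert ha, Finset.sum_insert ha, ← ih]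
    rfl

theorem Base.dlE_IsNT (B : Base) (C : CSV) (s t : ℕ) (ht : 1 ≤ t) :
    SHU.IsNT t (dlE C s t) where
  nat := by
    intro d' d L c
    apply SHU.ES_ext
    intro j x
    rw [SHU.subs_apply, dlE_apply, dlE_apply, ES_sum_val, ES_sum_val, map_sum]
    apply Finset.sum_congr rfl
    intro i _
    rw [(B.al_IsNT (C.lf s) _ _ ht).nat, SHU.subs_apply]
  cont := by
    intro d c N hc j hj
    apply LinearMap.ext
    intro x
    rw [dlE_apply, ES_sum_val]
    apply Finset.sum_eq_zero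
    intro i _
    rw [(B.al_IsNT (C.lf s) _ _ ht).cont d c N hc j hj]
    rfl

theorem Base.dlE_Compat (B : Base) (C : CSV) (s t : ℕ) (ht : 1 ≤ t) :
    SHU.Compat t (dlE C s t) (dlE C s (t + 1)) := by
  intro d c
  apply SHU.ES_ext
  intro j x
  rw [SHU.DD_apply, dlE_apply, dlE_apply, ES_sum_val, ES_sum_val, map_sum]
  apply Finset.sum_congr rfl
  intro i _
  rw [B.al_Compat (C.lf s) (C.lf (s + 1)) _ _ ht, SHU.DD_apply]

theorem Base.dlE_dlE (B : Base) (C : CSV) (s t : ℕ) (ht : 1 ≤ t) (d : ℕ)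
    (c : SHU.ES (XL (C.V s)) t d) : dlE C (s + 1) t d (dlE C s t d c) = 0 := by
  have h := sum_cof_cof (M := SHU.ES (XL (C.V (s + 2))) t d) (n := s)
    (fun th => al (C.op th) (C.op_zero th) t d c)
  rw [dlE_apply, dlE_apply]
  rw [← h]
  apply Finset.sum_congr rfl
  intro i _
  rw [map_sum]
  apply Finset.sum_congr rfl
  intro j _
  rw [B.al_comp (C.lf s) (C.lf (s + 1)) (C.lf (s + 2)) (C.op (cof j)) (C.op_zero _)
    (C.op (cof i)) (C.op_zero _) (C.op ((cof i).comp (cof j))) (C.op_zero _)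
    (fun n x => C.op_comp (cof j) (cof i) n x) ht]

/-- The sum of the cofaces of a Moore cycle. -/
noncomputable def cfZ (C : CSV) {Y : SS} (s : ℕ) {t : ℕ} (z : ZM (MapS Y (C.V s)) t) :
    ZM (MapS Y (C.V (s + 1))) t :=
  ∑ i : Fin (s + 2), appZ (C.op (cof i)) (C.op_zero (cof i)) z

theorem cfZ_val (C : CSV) {Y : SS} (s : ℕ) {t : ℕ} (z : ZM (MapS Y (C.V s)) t) :
    (cfZ C s z).1 = C.cf s z.1 := by
  unfold cfZ CSV.cf
  rw [Submodule.coe_sum]
  rfl

theorem Base.PhE_sum (B : Base) (ht : 1 ≤ t) {ι : Type} (s : Finset ι)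
    (f : ι → ZM (MapS (BB.pow d) V) t) : PhE (∑ i ∈ s, f i) = ∑ i ∈ s, PhE (f i) := by
  classical
  induction s using Finset.induction_on with
  | empty =>
    rw [Finset.sum_empty, Finset.sum_empty]
    apply B.PhE_zero ht
    exact Submodule.zero_mem _
  | insert a s ha ih => rw [Finset.sum_insert ha, Finset.sum_insert ha, B.PhE_add ht, ih]

theorem Base.dlE_PhE (B : Base) (C : CSV) (s t : ℕ) (ht : 1 ≤ t) (d : ℕ)
    (z : ZM (MapS (BB.pow d) (C.V s)) t) : dlE C s t d (PhE z) = PhE (cfZ C s z) := by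
  rw [dlE_apply]
  unfold cfZ
  rw [B.PhE_sum ht]
  apply Finset.sum_congr rfl
  intro i _
  exact B.al_PhE (C.lf s) _ _ ht d z

end Pool.Agent.SHL
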