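import Pool.Agent.SH.L.Ind

/-!
LINK: classes of degree `n + 1` of `V` modulo decomposables are natural transformations
`ES 1 → S^n` (the map `kap`).
-/

namespace Pool.Agent.SHL

open Pool.Agent.SHS

variable {V W : SV} {d n : ℕ}

theorem Base.hn_rc (B : Base) {a : H V.toSS} (ha : a ∈ Hn V.toSS (n + 1)) : a ∈ RC V :=
  (B.rch V).1 (n + 1) (by omega) ha

theorem Base.Ph_congr (B : Base) {Y : SS} (hY : Y.LF) {a : H V.toSS}
    (ha : a ∈ Hn V.toSS (n + 1)) (z z' : ZM (MapS Y V) 1)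
    (h : z.1 + z'.1 ∈ BM (MapS Y V) 1) : Ph z a = Ph z' a := by
  have h1 := B.pha 1 (le_refl 1) Y hY V z z' (n + 1) (by omega) a ha
  rw [B.phb 1 (le_refl 1) Y V (z + z') h a (B.hn_rc ha)] at h1
  exact mod_two_eq h1.symm

/-- The value of `kap`, as a function. -/
noncomputable def kapF (a : H V.toSS) (d : ℕ) (c : SHU.ES (XL V) 1 d) : SHU.Pl d :=
  evBinv d (Ph (lift 1 d c) a)

theorem Base.evB_kapF (B : Base) (hV : V.LF) {a : H V.toSS} (ha : a ∈ Hn V.toSS (n + 1))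
    (z : ZM (MapS (BB.pow d) V) 1) :
    evB d (kapF a d (PhE z)) = Ph z a ∧ (kapF a d (PhE z)).IsHomogeneous n := by
  have h1 : Ph (lift 1 d (PhE z)) a = Ph z a :=
    B.Ph_congr (B.bbf d).1 ha _ _ (B.BM_of_PhE hV (le_refl 1) _ _
      (B.lift_spec hV (le_refl 1) _).1)
  have h2 := ((B.ph1 1 (le_refl 1) _ (B.bbf d).1 V z).2 (n + 1) a ha (B.hn_rc ha)).2 (by omega)
  have h3 := B.evB_evBinv h2
  unfold kapF
  rw [h1]
  exact h3

theorem Base.kapF_add (B : Base) (hV : V.LF) {a : H V.toSS} (ha : a ∈ Hn V.toSS (n + 1))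
    (c c' : SHU.ES (XL V) 1 d) : kapF a d (c + c') = kapF a d c + kapF a d c' := by
  obtain ⟨z, rfl, _⟩ := B.PhE_surj hV (le_refl 1) c
  obtain ⟨z', rfl, _⟩ := B.PhE_surj hV (le_refl 1) c'
  rw [← B.PhE_add (le_refl 1)]
  apply B.evB_inj
  rw [map_add, (B.evB_kapF hV ha _).1, (B.evB_kapF hV ha _).1, (B.evB_kapF hV ha _).1,
    B.pha 1 (le_refl 1) _ (B.bbf d).1 V z z' (n + 1) (by omega) a ha]

open Classical in
/-- The natural transformation given by a class. -/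
noncomputable def kap (a : H V.toSS) (d : ℕ) : SHU.ES (XL V) 1 d →ₗ[ZMod 2] SHU.Pl d :=
  if h : ∀ c c', kapF a d (c + c') = kapF a d c + kapF a d c' then
    (AddMonoidHom.mk' (kapF a d) h).toZModLinearMap 2
  else 0

theorem Base.kap_apply (B : Base) (hV : V.LF) {a : H V.toSS} (ha : a ∈ Hn V.toSS (n + 1))
    (c : SHU.ES (XL V) 1 d) : kap a d c = kapF a d c := by
  unfold kap
  rw [dif_pos (B.kapF_add hV ha)]
  rfl

theorem Base.evB_kap (B : Base) (hV : V.LF) {a : H V.toSS} (ha : a ∈ Hn V.toSS (n + 1))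
    (z : ZM (MapS (BB.pow d) V) 1) :
    evB d (kap a d (PhE z)) = Ph z a ∧ (kap a d (PhE z)).IsHomogeneous n := by
  rw [B.kap_apply hV ha]
  exact B.evB_kapF hV ha z

theorem Base.kap_IsPN (B : Base) (hV : V.LF) {a : H V.toSS} (ha : a ∈ Hn V.toSS (n + 1)) :
    SHU.IsPN 1 n (kap (V := V) a) where
  nat := by
    intro d' d L c
    obtain ⟨z, rfl, _⟩ := B.PhE_surj hV (le_refl 1) c
    apply B.evB_inj
    rw [← B.PhE_pre (le_refl 1), (B.evB_kap hV ha _).1, ← B.e1, (B.evB_kap hV ha _).1]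
    exact B.phy 1 (le_refl 1) _ _ (B.bbf d').1 (B.bbf d).1 (BL L) V z a (B.hn_rc ha)
  cod := by
    intro d c
    obtain ⟨z, rfl, _⟩ := B.PhE_surj hV (le_refl 1) c
    exact (B.evB_kap hV ha z).2
  cont := by
    intro d c hc
    obtain ⟨z, rfl, hz⟩ := B.PhE_surj hV (le_refl 1) c
    apply B.evB_inj
    rw [(B.evB_kap hV ha z).1, map_zero]
    exact B.Ph_level z (hz (n + 1) hc (n + 1) (le_refl _)) ha (B.hn_rc ha)

theorem Base.kap_add (B : Base) (hV : V.LF) {a b : H V.toSS} (ha : a ∈ Hn V.toSS (n + 1))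
    (hb : b ∈ Hn V.toSS (n + 1)) (c : SHU.ES (XL V) 1 d) :
    kap (a + b) d c = kap a d c + kap b d c := by
  obtain ⟨z, rfl, _⟩ := B.PhE_surj hV (le_refl 1) c
  apply B.evB_inj
  rw [map_add, (B.evB_kap hV ha z).1, (B.evB_kap hV hb z).1,
    (B.evB_kap hV (Submodule.add_mem _ ha hb) z).1, map_add]

theorem Base.kap_zero (B : Base) (hV : V.LF) (c : SHU.ES (XL V) 1 d) :
    kap (0 : H V.toSS) d c = 0 := by
  obtain ⟨z, rfl, _⟩ := B.PhE_surj hV (le_refl 1) c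
  apply B.evB_inj
  rw [(B.evB_kap (n := 0) hV (Submodule.zero_mem _) z).1, map_zero, map_zero]

theorem Base.kap_smul (B : Base) (hV : V.LF) {a : H V.toSS} (ha : a ∈ Hn V.toSS (n + 1))
    (r : k) (c : SHU.ES (XL V) 1 d) : kap (r • a) d c = r • kap a d c := by
  obtain ⟨z, rfl, _⟩ := B.PhE_surj hV (le_refl 1) c
  apply B.evB_inj
  rw [map_smul, (B.evB_kap hV ha z).1, (B.evB_kap hV (Submodule.smul_mem _ r ha) z).1, map_smul]

theorem Base.kap_sum (B : Base) (hV : V.LF) {ι : Type*} (s : Finset ι) (f : ι → H V.toSS)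
    (hf : ∀ i ∈ s, f i ∈ Hn V.toSS (n + 1)) (c : SHU.ES (XL V) 1 d) :
    kap (∑ i ∈ s, f i) d c = ∑ i ∈ s, kap (f i) d c := by
  classical
  induction s using Finset.induction_on with
  | empty => rw [Finset.sum_empty, Finset.sum_empty, B.kap_zero hV]
  | insert a s ha ih =>
    rw [Finset.sum_insert ha, Finset.sum_insert ha,
      B.kap_add hV (hf a (Finset.mem_insert_self _ _))
        (Submodule.sum_mem _ fun i hi => hf i (Finset.mem_insert_of_mem hi)),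
      ih fun i hi => hf i (Finset.mem_insert_of_mem hi)]

theorem Base.kap_dec (B : Base) (hV : V.LF) {a : H V.toSS} (ha : a ∈ Hn V.toSS (n + 1))
    (hd : a ∈ Dec V.toSS) (c : SHU.ES (XL V) 1 d) : kap a d c = 0 := by
  obtain ⟨z, rfl, _⟩ := B.PhE_surj hV (le_refl 1) c
  apply B.evB_inj
  rw [(B.evB_kap hV ha z).1, map_zero]
  exact B.phd _ (B.bbf d).1 V z a hd

theorem Base.kap_alpL (B : Base) (hV : V.LF) (hW : W.LF) (g : SS.Hom V.toSS W.toSS)
    (hg : ∀ n, g.f n 0 = 0) {a : H W.toSS} (ha : a ∈ Hn W.toSS (n + 1))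
    (c : SHU.ES (XL V) 1 d) : kap a d (alpL g hg d c) = kap (H.map g a) d c := by
  obtain ⟨z, rfl, _⟩ := B.PhE_surj hV (le_refl 1) c
  apply B.evB_inj
  rw [B.alpL_PhE hV, (B.evB_kap hW ha _).1, (B.evB_kap hV (H.map_mem g ha) z).1]
  exact B.phv 1 _ V W g hg z a

theorem CSV.dl_apply (C : CSV) (s : ℕ) (a : H (C.V (s + 1)).toSS) :
    C.dl s a = ∑ i : Fin (s + 2), H.map (C.op (cof i)) a := by
  rw [CSV.dl, LinearMap.sum_apply]
  rfl

theorem CSV.dl_mem (C : CSV) (s : ℕ) {a : H (C.V (s + 1)).toSS}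
    (ha : a ∈ Hn (C.V (s + 1)).toSS n) : C.dl s a ∈ Hn (C.V s).toSS n := by
  rw [C.dl_apply]
  exact Submodule.sum_mem _ fun i _ => H.map_mem _ ha

theorem Base.kap_dlE (B : Base) (C : CSV) (s : ℕ) {a : H (C.V (s + 1)).toSS}
    (ha : a ∈ Hn (C.V (s + 1)).toSS (n + 1)) (c : SHU.ES (XL (C.V s)) 1 d) :
    kap a d (dlE C s 1 d c) = kap (C.dl s a) d c := by
  rw [C.dl_apply, B.kap_sum (C.lf s) _ _ fun i _ => H.map_mem _ ha, dlE_apply, map_sum]
  apply Finset.sum_congr rfl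
  intro i _
  exact B.kap_alpL (C.lf s) (C.lf (s + 1)) _ _ ha c

/-! ### Surjectivity -/

theorem wgt_cons (J : Multiset ℕ) : wgt (0 ::ₘ J) = wgt J + 1 := by
  unfold wgt
  rw [Multiset.map_cons, Multiset.sum_cons]
  simp only [pow_zero]
  exact add_comm _ _

/-- the operations `f` with `f (Un m) = msym m J`, applied to a linear class, are values of `kap` -/
theorem Base.kap_psi (B : Base) (hV : V.LF) {m : ℕ} (b : XL V (m + 1)) (J : Multiset ℕ)
    (hJ : Multiset.card J = m) {f : ∀ d, SHU.Pl d →ₗ[ZMod 2] SHU.Pl d}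
    (hf : SHU.IsNP m (wgt J) f) (hfu : f m (SHU.Un m) = msym m J)
    {μ : Multiset ℕ → H (EM (m + 1)).toSS} (hμ : MuFam (m + 1) μ)
    (A : SS.Hom V.toSS (EM (m + 1)).toSS) (hA : ∀ q, A.f q 0 = 0)
    (hb : H.map A (iota (m + 1)) = b.1) :
    H.map A (μ (0 ::ₘ J)) ∈ Hn V.toSS (wgt J + 1) ∧
      ∀ d (c : SHU.ES (XL V) 1 d), kap (H.map A (μ (0 ::ₘ J))) d c = f d (c.1 (m + 1) b) := by
  have hm : μ (0 ::ₘ J) ∈ Hn (EM (m + 1)).toSS (wgt J + 1) := by
    have := hμ.mem (0 ::ₘ J) (by rw [Multiset.card_cons, hJ])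
    rwa [wgt_cons] at this
  refine ⟨H.map_mem A hm, ?_⟩
  intro d c
  obtain ⟨z, rfl, _⟩ := B.PhE_surj hV (le_refl 1) c
  apply B.evB_inj
  rw [(B.evB_kap hV (H.map_mem A hm) z).1]
  have h1 := B.phv 1 _ V (EM (m + 1)) A hA z (μ (0 ::ₘ J))
  rw [← h1]
  apply B.val m μ hμ J hJ f hf hfu d (appZ A hA z) ((PhE z).1 (m + 1) b)
  · have := SHU.ES_hom (PhE z) (show 1 ≤ m + 1 by omega) b
    rwa [Nat.add_sub_cancel] at this
  · rw [B.evB_PhE (le_refl 1), B.phv 1 _ V (EM (m + 1)) A hA z, hb]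

theorem Base.kap_np (B : Base) (hV : V.LF) {m : ℕ} (b : XL V (m + 1))
    {f : ∀ d, SHU.Pl d →ₗ[ZMod 2] SHU.Pl d} (hf : SHU.IsNP m n f) :
    ∃ a ∈ Hn V.toSS (n + 1), ∀ d (c : SHU.ES (XL V) 1 d), kap a d c = f d (c.1 (m + 1) b) := by
  obtain ⟨μ, hμ⟩ := B.mu (m + 1) (by omega)
  obtain ⟨A, hA, hb⟩ := B.emr V (m + 1) (by omega) b.1 (B.lc_mem b).2
  have key : ∀ y ∈ Submodule.span (ZMod 2) {p | ∃ J : Multiset ℕ, Multiset.card J = m ∧
      wgt J = n ∧ p = msym m J}, ∃ f' : ∀ d, SHU.Pl d →ₗ[ZMod 2] SHU.Pl d, SHU.IsNP m n f' ∧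
      f' m (SHU.Un m) = y ∧ ∃ a ∈ Hn V.toSS (n + 1),
        ∀ d (c : SHU.ES (XL V) 1 d), kap a d c = f' d (c.1 (m + 1) b) := by
    intro y hy
    induction hy using Submodule.span_induction with
    | mem y hy =>
      obtain ⟨J, hJ, hw, rfl⟩ := hy
      subst hJ hw
      obtain ⟨f', hf', hu⟩ := B.psi J
      obtain ⟨h1, h2⟩ := B.kap_psi hV b J rfl hf' hu hμ A hA hb
      exact ⟨f', hf', hu, _, h1, h2⟩
    | zero =>
      refine ⟨fun d => 0, ⟨fun L x => by simp, fun d x => rfl,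
        fun d x => MvPolynomial.isHomogeneous_zero _ _ _⟩, rfl, 0, Submodule.zero_mem _, ?_⟩
      intro d c
      rw [B.kap_zero hV]
      rfl
    | add y y' _ _ h h' =>
      obtain ⟨f1, hf1, hu1, a1, ha1, hk1⟩ := h
      obtain ⟨f2, hf2, hu2, a2, ha2, hk2⟩ := h'
      refine ⟨fun d => f1 d + f2 d, ⟨?_, ?_, ?_⟩, ?_, a1 + a2, Submodule.add_mem _ ha1 ha2, ?_⟩
      · intro d' d L x
        rw [LinearMap.add_apply, LinearMap.add_apply, hf1.nat, hf2.nat, map_add]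
      · intro d x
        rw [LinearMap.add_apply, LinearMap.add_apply, hf1.dom, hf2.dom]
      · intro d x
        exact (hf1.cod d x).add (hf2.cod d x)
      · rw [LinearMap.add_apply, hu1, hu2]
      · intro d c
        rw [B.kap_add hV ha1 ha2, hk1, hk2]
        rfl
    | smul r y _ h =>
      obtain ⟨f1, hf1, hu1, a1, ha1, hk1⟩ := h
      refine ⟨fun d => r • f1 d, ⟨?_, ?_, ?_⟩, ?_, r • a1, Submodule.smul_mem _ r ha1, ?_⟩
      · intro d' d L x
        rw [LinearMap.smul_apply, LinearMap.smul_apply, hf1.nat, map_smul]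
      · intro d x
        rw [LinearMap.smul_apply, LinearMap.smul_apply, hf1.dom]
      · intro d x
        rw [LinearMap.smul_apply, MvPolynomial.smul_eq_C_mul]
        exact (hf1.cod d x).C_mul r
      · rw [LinearMap.smul_apply, hu1]
      · intro d c
        rw [B.kap_smul hV ha1, hk1]
        rfl
  obtain ⟨f', hf', hu, a, ha, hk⟩ := key _ (B.npj m n f hf)
  have he : f' = f := hf'.ext hf hu
  subst he
  exact ⟨a, ha, hk⟩

/-- every natural transformation of degree `n` is given by a class of degree `n + 1` -/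
theorem Base.kap_surj (B : Base) (hV : V.LF) {p : ∀ d, SHU.ES (XL V) 1 d →ₗ[ZMod 2] SHU.Pl d}
    (hp : SHU.IsPN 1 n p) : ∃ a ∈ Hn V.toSS (n + 1), ∀ d c, p d c = kap a d c := by
  classical
  haveI hf : ∀ j, Module.Finite (ZMod 2) (XL V j) := B.fin hV
  have h1 : ∀ (m : ℕ) (i : Fin (Module.finrank (ZMod 2) (XL V (m + 1)))),
      ∃ a ∈ Hn V.toSS (n + 1), ∀ d (c : SHU.ES (XL V) 1 d), kap a d c =
        p d (SHU.El 1 (m + 1) ((Module.finBasis (ZMod 2) (XL V (m + 1))).coord i) d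
          (c.1 (m + 1) (Module.finBasis (ZMod 2) (XL V (m + 1)) i))) := by
    intro m i
    exact B.kap_np hV _ (SHU.psi_IsNP (show m + 1 = m + 1 from rfl) hp
      ((Module.finBasis (ZMod 2) (XL V (m + 1))).coord i))
  choose a ha hk using h1
  refine ⟨∑ m ∈ Finset.range (n + 1), ∑ i, a m i, ?_, ?_⟩
  · exact Submodule.sum_mem _ fun m _ => Submodule.sum_mem _ fun i _ => ha m i
  · intro d c
    rw [hp.decomp d c, B.kap_sum hV _ _ fun m _ => Submodule.sum_mem _ fun i _ => ha m i]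
    apply Finset.sum_congr rfl
    intro m _
    rw [B.kap_sum hV _ _ fun i _ => ha m i]
    apply Finset.sum_congr rfl
    intro i _
    exact (hk m i d c).symm

end Pool.Agent.SHL
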