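import Pool.Agent.SH.L.Kap

/-!
LINK: `kap` is injective modulo decomposables.
-/

namespace Pool.Agent.SHL

open Pool.Agent.SHS

variable {V W : SV} {d n : ℕ}

/-- dual functionals of a linearly independent family -/
theorem exists_dual {M : Type*} [AddCommGroup M] [Module k M] {ι : Type*} {v : ι → M}
    (hv : LinearIndependent k v) (i0 : ι) :
    ∃ φ : M →ₗ[k] k, φ (v i0) = 1 ∧ ∀ i, i ≠ i0 → φ (v i) = 0 := by
  classical
  obtain ⟨φ, hφ⟩ := LinearMap.exists_extend ((Finsupp.lapply i0).comp hv.repr : _ →ₗ[k] k)
  have h : ∀ i, φ (v i) = if i = i0 then 1 else 0 := by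
    intro i
    have h1 := LinearMap.congr_fun hφ ⟨v i, Submodule.subset_span ⟨i, rfl⟩⟩
    rw [LinearMap.comp_apply, Submodule.subtype_apply] at h1
    rw [h1, LinearMap.comp_apply, hv.repr_eq_single i _ rfl, Finsupp.lapply_apply,
      Finsupp.single_apply]
  refine ⟨φ, ?_, ?_⟩
  · rw [h, if_pos rfl]
  · intro i hi
    rw [h, if_neg hi]

theorem card_le_wgt (J : Multiset ℕ) : Multiset.card J ≤ wgt J := by
  induction J using Multiset.induction_on with
  | empty => exact Nat.zero_le _
  | cons a J ih =>
    unfold wgt at ih ⊢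
    rw [Multiset.card_cons, Multiset.map_cons, Multiset.sum_cons]
    have : 1 ≤ 2 ^ a := Nat.one_le_two_pow
    omega

theorem eq_replicate {J : Multiset ℕ} (h : wgt J = Multiset.card J) :
    J = Multiset.replicate (Multiset.card J) 0 := by
  induction J using Multiset.induction_on with
  | empty => rfl
  | cons a J ih =>
    have h1 := card_le_wgt J
    have h2 : wgt (a ::ₘ J) = 2 ^ a + wgt J := by
      unfold wgt
      rw [Multiset.map_cons, Multiset.sum_cons]
    rw [h2, Multiset.card_cons] at h
    have h3 : 1 ≤ 2 ^ a := Nat.one_le_two_pow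
    have h4 : 2 ^ a = 1 := by omega
    have h5 : a = 0 := by
      rcases Nat.eq_zero_or_pos a with h5 | h5
      · exact h5
      · have := Nat.one_lt_two_pow (by omega : a ≠ 0)
        omega
    subst h5
    rw [Multiset.card_cons, Multiset.replicate_succ, ← ih (by omega)]

theorem iota_ne (μ : Multiset ℕ → H (EM n).toSS) (hμ : MuFam n μ) (hK : K1_Stmt) :
    iota n ≠ 0 := by
  obtain ⟨ρ, h1, _⟩ := hμ.res
  intro h
  rw [h, map_zero] at h1
  have h2 : (∏ j : Fin n, MvPolynomial.X j : MvPolynomial (Fin n) k) = 0 := by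
    apply (hK n).1
    rw [← h1, map_zero]
  have h3 : (∏ j : Fin n, MvPolynomial.X j : MvPolynomial (Fin n) k) ≠ 0 :=
    Finset.prod_ne_zero_iff.mpr fun j _ => MvPolynomial.X_ne_zero j
  exact h3 h2

/-- the fundamental class is the class with all exponents 0 -/
theorem mu_iota (hn : 1 ≤ n) (hSC : SCn n) (hK : K1_Stmt) {μ : Multiset ℕ → H (EM n).toSS}
    (hμ : MuFam n μ) : μ (Multiset.replicate n 0) = iota n := by
  classical
  have hb := hSC μ hμ
  have h1 := hb.span n (iota_mem n)
  have h2 : ((fun S : Finset {J : Multiset ℕ // Multiset.card J = n} => ∏ J ∈ S, μ J.1) ''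
      {S | ∑ J ∈ S, wgt J.1 = n}) ⊆ {μ (Multiset.replicate n 0)} := by
    rintro _ ⟨S, hS, rfl⟩
    have hS' : ∑ J ∈ S, wgt J.1 = n := hS
    have hne : S.Nonempty := by
      rw [Finset.nonempty_iff_ne_empty]
      rintro rfl
      rw [Finset.sum_empty] at hS'
      omega
    obtain ⟨J, hJ⟩ := hne
    rw [← Finset.insert_erase hJ, Finset.sum_insert (Finset.notMem_erase J S)] at hS'
    have h3 := card_le_wgt J.1
    rw [J.2] at h3
    have h4 : S.erase J = ∅ := by
      rw [Finset.eq_empty_iff_forall_notMem]
      intro J' hJ'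
      have h5 : wgt J'.1 ≤ ∑ J ∈ S.erase J, wgt J.1 :=
        Finset.single_le_sum (f := fun J : {J : Multiset ℕ // Multiset.card J = n} => wgt J.1)
          (fun _ _ => Nat.zero_le _) hJ'
      have h6 := card_le_wgt J'.1
      rw [J'.2] at h6
      omega
    rw [h4, Finset.sum_empty, add_zero] at hS'
    have h7 : S = {J} := by
      rw [← Finset.insert_erase hJ, h4]
      rfl
    have h8 : J.1 = Multiset.replicate n 0 := by
      have := eq_replicate (J := J.1) (by rw [hS', J.2])
      rwa [J.2] at this
    show ∏ J ∈ S, μ J.1 ∈ _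
    rw [h7, Finset.prod_singleton, h8]
    exact rfl
  have h3 := Submodule.span_mono h2 h1
  rw [Submodule.mem_span_singleton] at h3
  obtain ⟨c, hc⟩ := h3
  have hc2 : c = 0 ∨ c = 1 := by
    have : ∀ c : ZMod 2, c = 0 ∨ c = 1 := by decide
    exact this c
  rcases hc2 with rfl | rfl
  · rw [zero_smul] at hc
    exact absurd hc.symm (iota_ne μ hμ hK)
  · rw [one_smul] at hc
    exact hc

/-- In a polynomial algebra every class of positive degree is a combination of generators modulo
decomposables. -/
theorem poly_mod_dec {X : SS} {σ : Type} {w : σ → ℕ} {g : σ → H X} (h : PolyGen X w g)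
    {N : ℕ} (hN : 1 ≤ N) {a : H X} (ha : a ∈ Hn X N) :
    ∃ c : σ →₀ k, (∀ s ∈ c.support, w s = N) ∧ a + (c.sum fun s r => r • g s) ∈ Dec X := by
  classical
  have hdeg := h.deg
  have hg : ∀ s, g s ∈ Hn X (w s) := by
    intro s
    rw [hdeg]
    refine ⟨MvPolynomial.X s, ?_, ?_⟩
    · rw [SetLike.mem_coe, MvPolynomial.mem_weightedHomogeneousSubmodule]
      exact MvPolynomial.isWeightedHomogeneous_X k w s
    · rw [AlgHom.toLinearMap_apply, MvPolynomial.aeval_X]
  rw [hdeg] at ha
  obtain ⟨P, hP, rfl⟩ := ha
  rw [SetLike.mem_coe, MvPolynomial.mem_weightedHomogeneousSubmodule] at hP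
  rw [AlgHom.toLinearMap_apply]
  -- the property is additive
  have hadd : ∀ x y : H X,
      (∃ c : σ →₀ k, (∀ s ∈ c.support, w s = N) ∧ x + (c.sum fun s r => r • g s) ∈ Dec X) →
      (∃ c : σ →₀ k, (∀ s ∈ c.support, w s = N) ∧ y + (c.sum fun s r => r • g s) ∈ Dec X) →
      (∃ c : σ →₀ k, (∀ s ∈ c.support, w s = N) ∧
        (x + y) + (c.sum fun s r => r • g s) ∈ Dec X) := by
    rintro x y ⟨c, hc, hc'⟩ ⟨e, he, he'⟩
    refine ⟨c + e, ?_, ?_⟩
    · intro s hs
      have := Finsupp.support_add hs
      rw [Finset.mem_union] at this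
      rcases this with h1 | h1
      · exact hc s h1
      · exact he s h1
    · rw [Finsupp.sum_add_index' (fun s => zero_smul k (g s)) (fun s r r' => add_smul r r' (g s))]
      have := Submodule.add_mem _ hc' he'
      convert this using 1
      abel
  have hmon : ∀ e ∈ P.support, ∃ c : σ →₀ k, (∀ s ∈ c.support, w s = N) ∧
      MvPolynomial.aeval (R := k) g (MvPolynomial.monomial e (P.coeff e)) +
        (c.sum fun s r => r • g s) ∈ Dec X := by
    intro e he
    have hwe : Finsupp.weight w e = N := hP (MvPolynomial.mem_support_iff.mp he)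
    have hne : e ≠ 0 := by
      rintro rfl
      rw [map_zero] at hwe
      omega
    obtain ⟨s, hs⟩ := Finsupp.ne_iff.mp hne
    have hs' : 1 ≤ e s := Nat.one_le_iff_ne_zero.mpr (by simpa using hs)
    have hsplit : e = Finsupp.single s 1 + (e - Finsupp.single s 1) :=
      (add_tsub_cancel_of_le (Finsupp.single_le_iff.mpr hs')).symm
    set e' := e - Finsupp.single s 1 with he'
    have hw : w s + Finsupp.weight w e' = N := by
      rw [← hwe, hsplit, map_add, Finsupp.weight_single, one_smul]
    have hmem : ∀ (f : σ →₀ ℕ) (r : k), MvPolynomial.aeval (R := k) g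
        (MvPolynomial.monomial f r) ∈ Hn X (Finsupp.weight w f) := by
      intro f r
      rw [hdeg]
      exact ⟨MvPolynomial.monomial f r, by
        rw [SetLike.mem_coe, MvPolynomial.mem_weightedHomogeneousSubmodule]
        exact MvPolynomial.isWeightedHomogeneous_monomial w f r rfl, rfl⟩
    have hval : MvPolynomial.aeval (R := k) g (MvPolynomial.monomial e (P.coeff e)) =
        g s * MvPolynomial.aeval (R := k) g (MvPolynomial.monomial e' (P.coeff e)) := by
      rw [show MvPolynomial.monomial e (P.coeff e) =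
        MvPolynomial.X s * MvPolynomial.monomial e' (P.coeff e) by
          rw [MvPolynomial.X, MvPolynomial.monomial_mul, one_mul, ← hsplit]]
      rw [map_mul, MvPolynomial.aeval_X]
    by_cases h0 : e' = 0
    · refine ⟨Finsupp.single s (P.coeff e), ?_, ?_⟩
      · intro s' hs'
        have := Finsupp.support_single_subset hs'
        rw [Finset.mem_singleton] at this
        subst this
        rw [← hw, h0, map_zero, add_zero]
      · rw [Finsupp.sum_single_index (zero_smul k (g s)), hval, h0]
        have h1 : MvPolynomial.aeval (R := k) g (MvPolynomial.monomial 0 (P.coeff e)) =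
            algebraMap k (H X) (P.coeff e) := by
          rw [← MvPolynomial.C_apply, MvPolynomial.aeval_C]
        rw [h1, ← Algebra.commutes, ← Algebra.smul_def, mod_two]
        exact Submodule.zero_mem _
    · refine ⟨0, ?_, ?_⟩
      · intro s hs
        simp at hs
      · rw [Finsupp.sum_zero_index, add_zero, hval]
        have hpos : 0 < Finsupp.weight w e' := by
          obtain ⟨s1, hs1⟩ := Finsupp.ne_iff.mp h0
          have h1 : 1 ≤ e' s1 := Nat.one_le_iff_ne_zero.mpr (by simpa using hs1)
          have h2 := Finsupp.le_weight_of_ne_zero' w (s := s1) (f := e') (by simpa using hs1)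
          have h3 := h.pos s1
          omega
        obtain ⟨m1, hm1⟩ : ∃ m1, w s = m1 + 1 := ⟨w s - 1, by have := h.pos s; omega⟩
        obtain ⟨m2, hm2⟩ : ∃ m2, Finsupp.weight w e' = m2 + 1 :=
          ⟨Finsupp.weight w e' - 1, by omega⟩
        apply Submodule.subset_span
        refine ⟨m1, m2, g s, _, ?_, ?_, rfl⟩
        · rw [← hm1]; exact hg s
        · rw [← hm2]; exact hmem e' _
  have hfin : ∀ S : Finset (σ →₀ ℕ), S ⊆ P.support → ∃ c : σ →₀ k,
      (∀ s ∈ c.support, w s = N) ∧
      MvPolynomial.aeval (R := k) g (∑ e ∈ S, MvPolynomial.monomial e (P.coeff e)) +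
        (c.sum fun s r => r • g s) ∈ Dec X := by
    intro S
    induction S using Finset.induction_on with
    | empty =>
      intro _
      refine ⟨0, fun s hs => by simp at hs, ?_⟩
      rw [Finset.sum_empty, map_zero, Finsupp.sum_zero_index, add_zero]
      exact Submodule.zero_mem _
    | insert e S he ih =>
      intro hS
      rw [Finset.sum_insert he, map_add]
      exact hadd _ _ (hmon e (hS (Finset.mem_insert_self _ _)))
        (ih fun x hx => hS (Finset.mem_insert_of_mem hx))
  have := hfin P.support (Finset.Subset.refl _)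
  rwa [← P.as_sum] at this

end Pool.Agent.SHL
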