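import Pool.Agent.SH.L.Defs
import Pool.Agent.SH.S.StmtsV

/-!
LINK: spheres, the map `S^t × Y → V` defined by a Moore cycle of `Map(Y,V)`, the suspension
`mulE` and the slant product `Ph`.
-/

namespace Pool.Agent.SHL

open Pool.Agent.SHS

/-- The simplicial sphere of dimension `t`. -/
abbrev Sph (t : ℕ) : SS := (PS.sphere t).toSS

/-- The fundamental cochain of the sphere: 1 on the non degenerate simplex. -/
def epsC (t : ℕ) : (Sph t).X t → k
  | none => 0
  | some _ => 1

open Classical in
/-- The fundamental class of the sphere (`epsC` is a cocycle, see `EPS_Stmt`). -/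
noncomputable def eps (t : ℕ) : H (Sph t) :=
  if h : (Sph t).cm.delta t (epsC t) = 0 then clsN t (epsC t) h else 0

/-- The simplicial map `S^t × Y → V` defined by a Moore cycle. -/
def sphFun {Y : SS} {V : SV} {t : ℕ} (z : (MapS Y V).X t) (n : ℕ) :
    ((Sph t).prod Y).X n → V.X n
  | (none, _) => 0
  | (some a, y) => z.1 n (a.1, y)

theorem mem_ZM_val {Y : SS} {V : SV} {t : ℕ} {z : (MapS Y V).X t} (hz : z ∈ ZM (MapS Y V) t)
    {n : ℕ} (a : Mor n t) (ha : ¬ Function.Surjective a) (y : Y.X n) : z.1 n (a, y) = 0 := by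
  have h := hz n a ha
  have h2 := congrArg (fun F : HV ((SS.simplex n).prod Y) V => F.1 n (OrderHom.id, y)) h
  exact h2

theorem sphere_map_pos {t m n : ℕ} (a : Mor m n) (b : {b : Mor n t // Function.Surjective b})
    (h : Function.Surjective (b.1.comp a)) : (PS.sphere t).map a b = some ⟨b.1.comp a, h⟩ :=
  dif_pos h

theorem sphere_map_neg {t m n : ℕ} (a : Mor m n) (b : {b : Mor n t // Function.Surjective b})
    (h : ¬ Function.Surjective (b.1.comp a)) : (PS.sphere t).map a b = none :=
  dif_neg h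

theorem sphFun_nat {Y : SS} {V : SV} {t : ℕ} {z : (MapS Y V).X t} (hz : z ∈ ZM (MapS Y V) t)
    (m n : ℕ) (a : Mor m n) (x : ((Sph t).prod Y).X n) :
    sphFun z m (((Sph t).prod Y).map a x) = V.map a (sphFun z n x) := by
  obtain ⟨o, y⟩ := x
  cases o with
  | none => exact (map_zero (V.map a)).symm
  | some b =>
    show sphFun z m ((PS.sphere t).map a b, Y.map a y) = V.map a (z.1 n (b.1, y))
    rw [← HV.nat]
    by_cases h : Function.Surjective (b.1.comp a)
    · rw [sphere_map_pos a b h]
      rfl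
    · rw [sphere_map_neg a b h]
      exact (mem_ZM_val hz _ h _).symm

/-- The simplicial map `S^t × Y → V` defined by a Moore cycle, as a linear map. -/
def sph {Y : SS} {V : SV} {t : ℕ} : ZM (MapS Y V) t →ₗ[k] HV ((Sph t).prod Y) V where
  toFun z := ⟨sphFun z.1, fun m n a x => sphFun_nat z.2 m n a x⟩
  map_add' z w := by
    apply HV.ext
    rintro n ⟨o, y⟩
    cases o with
    | none => exact (add_zero (0 : V.X n)).symm
    | some b => rfl
  map_smul' c z := by
    apply HV.ext
    rintro n ⟨o, y⟩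
    cases o with
    | none => exact (smul_zero c).symm
    | some b => rfl

/-- `b ↦ eps × b`. -/
noncomputable def mulE (t : ℕ) (Y : SS) : H Y →ₗ[k] H ((Sph t).prod Y) :=
  (LinearMap.mulLeft k (H.map (SS.fst (Sph t) Y) (eps t))).comp
    (H.map (SS.snd (Sph t) Y)).toLinearMap

theorem mulE_apply (t : ℕ) (Y : SS) (b : H Y) :
    mulE t Y b = H.map (SS.fst (Sph t) Y) (eps t) * H.map (SS.snd (Sph t) Y) b := rfl

open Classical in
/-- A left inverse of `mulE`. -/
noncomputable def mulEinv (t : ℕ) (Y : SS) : H ((Sph t).prod Y) →ₗ[k] H Y :=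
  if h : Function.Injective (mulE t Y) then
    (LinearMap.exists_leftInverse_of_injective (mulE t Y) (LinearMap.ker_eq_bot.mpr h)).choose
  else 0

theorem mulEinv_mulE {t : ℕ} {Y : SS} (h : Function.Injective (mulE t Y)) (b : H Y) :
    mulEinv t Y (mulE t Y b) = b := by
  unfold mulEinv
  rw [dif_pos h]
  have := (LinearMap.exists_leftInverse_of_injective (mulE t Y)
    (LinearMap.ker_eq_bot.mpr h)).choose_spec
  exact LinearMap.congr_fun this b

/-- The slant product of classes of `V` with a Moore cycle of `Map(Y,V)`. -/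
noncomputable def Ph {Y : SS} {V : SV} {t : ℕ} (z : ZM (MapS Y V) t) : H V.toSS →ₗ[k] H Y :=
  (mulEinv t Y).comp (H.map (HV.hom (sph z))).toLinearMap

/-- The inclusion of the base point. -/
def bpt (t : ℕ) (Y : SS) : SS.Hom Y ((Sph t).prod Y) := ⟨fun _ y => (none, y), fun _ _ => rfl⟩

/-- The zero map. -/
def zmap (Y : SS) (V : SV) : SS.Hom Y V.toSS := HV.hom (0 : HV Y V)

/-- Composition of Moore cycles with a pointed simplicial map. -/
def appZ {Y : SS} {V W : SV} {t : ℕ} (g : SS.Hom V.toSS W.toSS) (hg : ∀ n, g.f n 0 = 0)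
    (z : ZM (MapS Y V) t) : ZM (MapS Y W) t :=
  ⟨HV.app g z.1, by
    intro r a ha
    have h := z.2 r a ha
    show HV.app g ((MapS Y V).map a z.1) = 0
    rw [h]
    apply HV.ext
    intro n x
    exact hg n⟩

/-- Composition of Moore cycles with a linear simplicial map. -/
def postZ {Y : SS} {V W : SV} {t : ℕ} (L : SV.Hom V W) : ZM (MapS Y V) t →ₗ[k] ZM (MapS Y W) t where
  toFun z := ⟨HV.post L z.1, by
    intro r a ha
    have h := z.2 r a ha
    show HV.post L ((MapS Y V).map a z.1) = 0
    rw [h, map_zero]⟩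
  map_add' z w := Subtype.ext (map_add (HV.post L) z.1 w.1)
  map_smul' c z := Subtype.ext (map_smul (HV.post L) c z.1)

/-- Precomposition of Moore cycles with a simplicial map. -/
def preZ {Y Y' : SS} {V : SV} {t : ℕ} (φ : SS.Hom Y' Y) :
    ZM (MapS Y V) t →ₗ[k] ZM (MapS Y' V) t where
  toFun z := ⟨⟨fun n x => z.1.1 n (x.1, φ.f n x.2), fun m n a x => by
      show z.1.1 m (x.1.comp a, φ.f m (Y'.map a x.2)) = V.map a (z.1.1 n (x.1, φ.f n x.2))
      rw [φ.nat, ← HV.nat]⟩, by
    intro r a ha
    apply HV.ext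
    rintro n ⟨b, y⟩
    have h := z.2 r a ha
    have h2 := congrArg (fun F : HV ((SS.simplex r).prod Y) V => F.1 n (b, φ.f n y)) h
    exact h2⟩
  map_add' z w := rfl
  map_smul' c z := rfl

/-- The `EM`-valued map given by a normalised cocycle `α` on `V`. -/
def NormC {X : SS} (n : ℕ) (α : X.X n → k) : Prop :=
  ∀ (m : ℕ) (s : Mor n m), ¬ Function.Injective s → ∀ x : X.X m, α (X.map s x) = 0

/-- Reduced classes: those restricting to 0 along the zero map from the point. -/
noncomputable def RC (V : SV) : Submodule k (H V.toSS) :=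
  LinearMap.ker (H.map (zmap (SS.simplex 0) V)).toLinearMap

/-! ### The comparison of `S^t × S^1` with `S^(t+1)` -/

/-- `[n] → [t]` and `[n] → [1]` give `[n] → [t+1]`: `v ↦ a v` if `a v < t`, and
`v ↦ t + e v` if `a v = t`. -/
def joinF {n t : ℕ} (a : Mor n t) (e : Mor n 1) : Mor n (t + 1) where
  toFun v := ⟨if (a v).1 < t then (a v).1 else t + (e v).1, by
    have := (e v).2
    split_ifs <;> omega⟩
  monotone' := by
    intro v w hvw
    have h1 : (a v).1 ≤ (a w).1 := a.monotone hvw
    have h2 : (e v).1 ≤ (e w).1 := e.monotone hvw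
    have h3 := (a v).2
    have h4 := (a w).2
    show (if (a v).1 < t then (a v).1 else t + (e v).1)
      ≤ (if (a w).1 < t then (a w).1 else t + (e w).1)
    split_ifs <;> omega

/-- `w ↦ w'`, a `t`-simplex of `Map(S^1 × Y, V)`: `w'(a, e, y) = w(joinF a e, y)`. -/
def hhFun {Y : SS} {V : SV} {t : ℕ} (z : (MapS Y V).X (t + 1)) (n : ℕ) :
    ((SS.simplex t).prod (S1.prod Y)).X n → V.X n
  | (_, none, _) => 0
  | (a, some e, y) => z.1 n (joinF a e.1, y)

theorem joinF_comp {m n t : ℕ} (c : Mor m n) (a : Mor n t) (e : Mor n 1) :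
    (joinF a e).comp c = joinF (a.comp c) (e.comp c) := rfl

theorem joinF_left {n t : ℕ} (a : Mor n t) (e : Mor n 1) (h : Function.Surjective (joinF a e)) :
    Function.Surjective a := by
  intro i
  obtain ⟨v, hv⟩ := h ⟨i.1, by omega⟩
  refine ⟨v, Fin.ext ?_⟩
  have h1 := congrArg Fin.val hv
  change (if (a v).1 < t then (a v).1 else t + (e v).1) = i.1 at h1
  have h2 := (a v).2
  have h3 := i.2
  split_ifs at h1 <;> omega

theorem joinF_right {n t : ℕ} (a : Mor n t) (e : Mor n 1) (h : Function.Surjective (joinF a e)) :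
    Function.Surjective e := by
  intro i
  obtain ⟨v, hv⟩ := h ⟨t + i.1, by omega⟩
  refine ⟨v, Fin.ext ?_⟩
  have h1 := congrArg Fin.val hv
  change (if (a v).1 < t then (a v).1 else t + (e v).1) = t + i.1 at h1
  split_ifs at h1 <;> omega

theorem hhFun_nat {Y : SS} {V : SV} {t : ℕ} {z : (MapS Y V).X (t + 1)}
    (hz : z ∈ ZM (MapS Y V) (t + 1))
    (m n : ℕ) (c : Mor m n) (x : ((SS.simplex t).prod (S1.prod Y)).X n) :
    hhFun z m (((SS.simplex t).prod (S1.prod Y)).map c x) = V.map c (hhFun z n x) := by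
  obtain ⟨a, o, y⟩ := x
  cases o with
  | none => exact (map_zero (V.map c)).symm
  | some e =>
    show hhFun z m (a.comp c, (PS.sphere 1).map c e, Y.map c y) = V.map c (z.1 n (joinF a e.1, y))
    rw [← HV.nat]
    by_cases h : Function.Surjective (e.1.comp c)
    · rw [sphere_map_pos c e h]
      rfl
    · rw [sphere_map_neg c e h]
      show (0 : V.X m) = z.1 m ((joinF a e.1).comp c, Y.map c y)
      rw [joinF_comp]
      exact (mem_ZM_val hz _ (fun hs => h (joinF_right _ _ hs)) _).symm

/-- From Moore cycles of dimension `t + 1` of `Map(Y,V)` to Moore cycles of dimension `t` of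
`Map(S^1 × Y, V)`. -/
def hh {Y : SS} {V : SV} {t : ℕ} (z : ZM (MapS Y V) (t + 1)) : ZM (MapS (S1.prod Y) V) t :=
  ⟨⟨hhFun z.1, fun m n c x => hhFun_nat z.2 m n c x⟩, by
    intro r a ha
    apply HV.ext
    rintro n ⟨b, o, y⟩
    cases o with
    | none => rfl
    | some e =>
      show z.1.1 n (joinF (a.comp b) e.1, y) = 0
      apply mem_ZM_val z.2
      intro hs
      apply ha
      intro i
      obtain ⟨v, hv⟩ := joinF_left _ _ hs i
      exact ⟨b v, hv⟩⟩

/-! ### Maps between powers of BB -/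

/-- The homomorphism `B(F_2^d) → B(F_2^d')` given by the matrix `L`. -/
def BL {d' d : ℕ} (L : Fin d' → Fin d → ZMod 2) : SS.Hom (BB.pow d) (BB.pow d') where
  f n x j := ∑ i, L j i • x i
  nat {m n} a x := by
    funext j
    show ∑ i, L j i • (SV.const k).bar.map a (x i) = (SV.const k).bar.map a (∑ i, L j i • x i)
    rw [map_sum]
    simp only [map_smul]

/-- `S^1 × B^d → B^(d+1)`. -/
def qB (d : ℕ) : SS.Hom (S1.prod (BB.pow d)) (BB.pow (d + 1)) where
  f n x := Fin.cons (s1.f n x.1) x.2
  nat {m n} a x := by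
    funext j
    refine Fin.cases ?_ (fun j => ?_) j
    · exact s1.nat a x.1
    · rfl

end Pool.Agent.SHL
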