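import Pool.Agent.SH.L.XFin
import Pool.Agent.SH.L.Defs

/-!
# MP_2d0b73_an, LINK: `XSC m : CSV`
-/

open CategoryTheory Opposite

noncomputable section

namespace Pool.Agent.SHL

open Pool.Agent.SHS (Mor cof cod Hn H)

/-- The cosimplicial object `s ↦ XS (m+1) s`. -/
abbrev XSC (m : ℕ) : CSV where
  V s := XS (m + 1) s
  op := XS.op (m + 1)
  op_comp f g n x := XS.op_comp (m + 1) f g n x
  op_zero f n := XS.op_zero (m + 1) f n
  lf s := XS_LF (m + 1) s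
  z0 s x := XS_zero (m + 1) s 0 (Nat.succ_pos m) x

theorem XSC_QE (hP : ∀ V : SHS.SV, V.LF → (∀ x : V.X 0, x = 0) → SHQ.PolyGen V.toSS)
    (hfin : SHQ.FIN_Stmt (ZMod 2)) (m j : ℕ) (hj : 2 * (m + 1) < j) : (XSC m).QE j := by
  have h := XC_bnd hfin m (fun s => hP (XS (m + 1) s) (XS_LF (m + 1) s)
    (fun x => XS_zero (m + 1) s 0 (Nat.succ_pos m) x)) j (by omega) (by omega) (by omega)
  refine ⟨fun a ha => ?_, fun s a ha hd => ?_⟩
  · obtain ⟨b, hb, hab⟩ := h.1 a ha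
    rw [SHS.mod_two_sub] at hab
    exact ⟨b, hb, hab⟩
  · obtain ⟨b, hb, hab⟩ := h.2 s a ha hd
    rw [SHS.mod_two_sub] at hab
    exact ⟨b, hb, hab⟩

end Pool.Agent.SHL
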