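import Pool.Agent.SH.L.XSphere
import Pool.Agent.SH.Q.Bridge

/-!
# MP_2d0b73_an, LINK: the contraction of `H^*(XS m •)` onto `H^*` of the sphere
-/

open CategoryTheory Opposite

noncomputable section

namespace Pool.Agent.SHL

open Pool.Agent.SH.TT (Dop bx Sph Bdy AugK aug brk augMap)
open Pool.Agent.SHS (Mor cof cod Hn H Coch Cocyc cls cls_eq_zero cls_surjective mem_Hn CochD Cobd)
open Pool.Agent.SHS.Coch

/-- Linear extension of a function on a pointed set to the reduced free vector space, with the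
value of the constant part. -/
def ext1 {A : Type} (b : A) (g : A → ZMod 2) (ξ : AugK A) : ZMod 2 :=
  Finsupp.linearCombination (ZMod 2) g (ξ : A →₀ ZMod 2) + g b

theorem ext1_brk {A : Type} (b : A) (g : A → ZMod 2) (x : A) : ext1 b g (brk b x) = g x := by
  unfold ext1 brk
  simp only [map_add, Finsupp.linearCombination_single, one_smul]
  have := SHS.k_two (g b)
  linear_combination this

theorem ext1_augMap {A B : Type} (b : A) (f : A → B) (g : B → ZMod 2) (ξ : AugK A) :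
    ext1 (f b) g (augMap f ξ) = ext1 b (g ∘ f) ξ := by
  unfold ext1
  rw [Pool.Agent.SH.TT.augMap_coe, Finsupp.linearCombination_mapDomain]
  rfl

theorem ext1_zero {A : Type} (b : A) (ξ : AugK A) : ext1 b (fun _ => 0) ξ = 0 := by
  unfold ext1
  rw [add_zero]
  simp [Finsupp.linearCombination_apply, Finsupp.sum]

theorem ext1_add {A : Type} (b : A) (g h : A → ZMod 2) (ξ : AugK A) :
    ext1 b (fun a => g a + h a) ξ = ext1 b g ξ + ext1 b h ξ := by
  unfold ext1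
  simp only [Finsupp.linearCombination_apply, Finsupp.sum, smul_add, Finset.sum_add_distrib]
  ring

theorem ext1_smul {A : Type} (b : A) (c : ZMod 2) (g : A → ZMod 2) (ξ : AugK A) :
    ext1 b (fun a => c * g a) ξ = c * ext1 b g ξ := by
  unfold ext1
  rw [mul_add, Finsupp.linearCombination_apply, Finsupp.linearCombination_apply, Finsupp.sum,
    Finsupp.sum, Finset.mul_sum]
  congr 1
  refine Finset.sum_congr rfl fun a _ => ?_
  simp only [smul_eq_mul]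
  ring

theorem ext1_sum {A : Type} (b : A) {ι : Type} (s : Finset ι) (g : ι → A → ZMod 2) (ξ : AugK A) :
    ext1 b (fun a => ∑ i ∈ s, g i a) ξ = ∑ i ∈ s, ext1 b (g i) ξ := by
  classical
  induction s using Finset.induction_on with
  | empty => simpa using ext1_zero b ξ
  | insert i s hi ih =>
    rw [Finset.sum_insert hi, ← ih, ← ext1_add]
    congr 1
    funext a
    rw [Finset.sum_insert hi]

/-- `Q` is the reduced free simplicial vector space on the pointed simplicial set `P`. -/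
structure RData (P Q : SHS.SS) where
  /-- the base point -/
  b : ∀ n, P.X n
  b_map : ∀ {m n : ℕ} (a : Mor m n), P.map a (b n) = b m
  /-- the identification -/
  co : ∀ n, Q.X n → AugK (P.X n)
  co_map : ∀ {m n : ℕ} (a : Mor m n) (ξ : Q.X n), co m (Q.map a ξ) = augMap (P.map a) (co n ξ)

section RD
variable {P Q P' Q' : SHS.SS} (D : RData P Q) (D' : RData P' Q')

theorem RData.ext_map (f : Coch P) {m n : ℕ} (a : Mor m n) (ξ : Q.X n) :
    ext1 (D.b m) (f m) (D.co m (Q.map a ξ)) = ext1 (D.b n) (fun x => f m (P.map a x)) (D.co n ξ) := by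
  rw [D.co_map, ← D.b_map a, ext1_augMap]
  rfl

/-- The extension of cochains. -/
def RData.hC : Coch P →ₗ[SHS.k] Coch Q where
  toFun f := ⟨fun n ξ => ext1 (D.b n) (f n) (D.co n ξ)⟩
  map_add' f g := by
    ext n ξ
    exact ext1_add (D.b n) (f n) (g n) (D.co n ξ)
  map_smul' c f := by
    ext n ξ
    exact ext1_smul (D.b n) c (f n) (D.co n ξ)

theorem RData.hC_apply (f : Coch P) (n : ℕ) (ξ : Q.X n) :
    D.hC f n ξ = ext1 (D.b n) (f n) (D.co n ξ) := rfl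

theorem RData.dlt_hC (f : Coch P) : dlt (D.hC f) = D.hC (dlt f) := by
  ext n ξ
  cases n with
  | zero =>
    rw [dlt_zero, D.hC_apply]
    exact (ext1_zero (D.b 0) (D.co 0 ξ)).symm
  | succ n =>
    rw [dlt_succ, D.hC_apply]
    have h : (dlt f (n + 1) : P.X (n + 1) → ZMod 2) =
        fun x => ∑ i : Fin (n + 2), f n (P.map (cof i) x) := by
      funext x
      exact dlt_succ f n x
    rw [h]
    refine Eq.trans ?_ (ext1_sum (D.b (n + 1)) Finset.univ
      (fun (i : Fin (n + 2)) x => f n (P.map (cof i) x)) (D.co (n + 1) ξ)).symm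
    refine Finset.sum_congr rfl fun i _ => ?_
    rw [D.hC_apply, D.ext_map]

/-- The extension of cocycles. -/
def RData.hZ : Cocyc P →ₗ[SHS.k] Cocyc Q where
  toFun f := ⟨D.hC f.1, by
    show dlt (D.hC f.1) = 0
    rw [D.dlt_hC, show dlt f.1 = 0 from f.2, map_zero]⟩
  map_add' f g := Subtype.ext (map_add D.hC f.1 g.1)
  map_smul' c f := Subtype.ext (map_smul D.hC c f.1)

/-- The contraction in cohomology. -/
noncomputable def RData.hH : H P →ₗ[SHS.k] H Q :=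
  Submodule.liftQ ((Cobd P).restrictScalars SHS.k) ((cls (X := Q)).toLinearMap ∘ₗ D.hZ) (by
    rintro a ⟨g, hg⟩
    show cls (D.hZ a) = 0
    rw [cls_eq_zero]
    exact ⟨D.hC g, by
      rw [D.dlt_hC, hg]
      rfl⟩)

theorem RData.hH_cls (f : Cocyc P) : D.hH (cls f) = cls (D.hZ f) := rfl

theorem RData.hH_mem {n : ℕ} {a : H P} (ha : a ∈ Hn P n) : D.hH a ∈ Hn Q n := by
  obtain ⟨f, hf, rfl⟩ := mem_Hn.mp ha
  refine mem_Hn.mpr ⟨D.hZ f, ?_, rfl⟩
  intro m hm ξ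
  show ext1 (D.b m) (f.1 m) (D.co m ξ) = 0
  have h : (f.1 m : P.X m → ZMod 2) = fun _ => 0 := by
    funext x
    exact hf m hm x
  rw [h, ext1_zero]

theorem RData.map_hH_unit (φ : SHS.SS.Hom P Q) (h : ∀ n x, D.co n (φ.f n x) = brk (D.b n) x)
    (a : H P) : H.map φ (D.hH a) = a := by
  obtain ⟨f, rfl⟩ := cls_surjective a
  rw [D.hH_cls, SHS.H.map_cls]
  congr 1
  apply Subtype.ext
  ext n x
  show ext1 (D.b n) (f.1 n) (D.co n (φ.f n x)) = f.1 n x
  rw [h, ext1_brk]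

theorem RData.map_hH (ψ : SHS.SS.Hom P P') (φ : SHS.SS.Hom Q Q')
    (hb : ∀ n, ψ.f n (D.b n) = D'.b n)
    (h : ∀ n ξ, D'.co n (φ.f n ξ) = augMap (ψ.f n) (D.co n ξ)) (a : H P') :
    H.map φ (D'.hH a) = D.hH (H.map ψ a) := by
  obtain ⟨f, rfl⟩ := cls_surjective a
  rw [D'.hH_cls, SHS.H.map_cls, SHS.H.map_cls, D.hH_cls]
  congr 1
  apply Subtype.ext
  ext n ξ
  show ext1 (D'.b n) (f.1 n) (D'.co n (φ.f n ξ)) =
    ext1 (D.b n) (fun x => f.1 n (ψ.f n x)) (D.co n ξ)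
  rw [h, ← hb, ext1_augMap]
  rfl

end RD

/-- The sphere and the bottom stage. -/
def RD0 (m : ℕ) : RData (SphSS m) (XS m 0).toSS where
  b n := (none : ((Sph m).obj (bx n)).X)
  b_map _ := rfl
  co _ ξ := ξ
  co_map _ _ := rfl

/-- Successive stages. -/
def RD1 (m s : ℕ) : RData (XS m s).toSS (XS m (s + 1)).toSS where
  b _ := 0
  b_map _ := map_zero _
  co _ ξ := ξ
  co_map _ _ := rfl

theorem augMap_brk {A B : Type} (f : A → B) (p a : A) : augMap f (brk p a) = brk (f p) (f a) := by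
  apply Subtype.ext
  show Finsupp.mapDomain f (Finsupp.single a 1 + Finsupp.single p 1) =
    (Finsupp.single (f a) 1 + Finsupp.single (f p) 1 : B →₀ ZMod 2)
  rw [Finsupp.mapDomain_add, Finsupp.mapDomain_single, Finsupp.mapDomain_single]

/-- The cosimplicial simplicial set `s ↦ XS m s`. -/
abbrev XC (m : ℕ) : SHQ.CSS where
  Z s := (XS m s).toSS
  map := XS.op m
  map_id n x := XS.op_id m _ n x
  map_comp f g n x := XS.op_comp m f g n x

theorem XC_unit (m s : ℕ) (a : H (XS m s).toSS) :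
    H.map (XS.op m (cof (0 : Fin (s + 2)))) ((RD1 m s).hH a) = a :=
  (RD1 m s).map_hH_unit (XS.op m (cof (0 : Fin (s + 2)))) (fun n x => XS.op_cof_zero m s n x) a

theorem XC_step (m s : ℕ) (i : Fin (s + 2)) (a : H (XS m (s + 1)).toSS) :
    H.map (XS.op m (cof i.succ)) ((RD1 m (s + 1)).hH a) =
      (RD1 m s).hH (H.map (XS.op m (cof i)) a) :=
  (RD1 m s).map_hH (RD1 m (s + 1)) (XS.op m (cof i)) (XS.op m (cof i.succ))
    (fun n => XS.op_zero m _ n) (fun n ξ => XS.op_cof_succ m s n i ξ) a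

theorem XC_step0 (m : ℕ) (a : H (XS m 0).toSS) :
    H.map (XS.op m (cof (1 : Fin 2))) ((RD1 m 0).hH a) = (RD0 m).hH (H.map (XS.eta m) a) := by
  refine (RD0 m).map_hH (RD1 m 0) (XS.eta m) (XS.op m (cof (1 : Fin 2))) (fun n => ?_)
    (fun n ξ => XS.op_cof_one m n ξ) a
  exact SH.TT.brk_self _

theorem XC_eta (m : ℕ) (a : H (SphSS m)) : H.map (XS.eta m) ((RD0 m).hH a) = a :=
  (RD0 m).map_hH_unit _ (fun _ _ => rfl) a

theorem XC_aug (m : ℕ) (b : H (XS m 1).toSS) :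
    H.map (XS.eta m) (H.map (XS.op m (cof (0 : Fin 2))) b) =
      H.map (XS.eta m) (H.map (XS.op m (cof (1 : Fin 2))) b) := by
  rw [← SHS.H.map_comp, ← SHS.H.map_comp]
  apply SHQ.Br.Hmap_congr
  intro n x
  show (XS.op m (cof 0)).f n ((XS.eta m).f n x) = (XS.op m (cof 1)).f n ((XS.eta m).f n x)
  rw [XS.op_cof_zero, XS.op_cof_one]
  have h : (XS.eta m).f n (none : ((Sph m).obj (bx n)).X) = bse m 1 n := SH.TT.brk_self _
  rw [← h]
  exact (augMap_brk ((XS.eta m).f n) _ x).symm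

theorem XC_ex (m : ℕ) : SHQ.ExPos (XC m) := by
  intro j _ s a ha hd
  refine ⟨(RD1 m (s + 1)).hH a, (RD1 m (s + 1)).hH_mem ha, ?_⟩
  rw [SHQ.del_apply, Fin.sum_univ_succ]
  have h0 : H.map ((XC m).map (cof (0 : Fin (s + 1 + 2)))) ((RD1 m (s + 1)).hH a) = a :=
    XC_unit m (s + 1) a
  have h1 : ∀ i : Fin (s + 2), H.map ((XC m).map (cof i.succ)) ((RD1 m (s + 1)).hH a) =
      (RD1 m s).hH (H.map ((XC m).map (cof i)) a) := fun i => XC_step m s i a
  rw [h0, Finset.sum_congr rfl (fun i _ => h1 i), ← map_sum]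
  have h2 : ∑ i : Fin (s + 2), H.map ((XC m).map (cof i)) a = 0 := by
    rw [← SHQ.del_apply]
    exact hd
  rw [h2, map_zero, add_zero]

theorem XC_del0 (m : ℕ) (a : H (XS m 0).toSS) :
    SHQ.del (XC m) 0 ((RD1 m 0).hH a) = a + (RD0 m).hH (H.map (XS.eta m) a) := by
  rw [SHQ.del_apply, Fin.sum_univ_two]
  exact congrArg₂ (· + ·) (XC_unit m 0 a) (XC_step0 m a)

theorem XC_A (m j : ℕ) (hj : 1 ≤ j) (hjm : j ≠ m) (a : H ((XC m).Z 0)) (ha : a ∈ Hn ((XC m).Z 0) j) :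
    ∃ b ∈ Hn ((XC m).Z 1) j, SHQ.del (XC m) 0 b = a := by
  refine ⟨(RD1 m 0).hH a, (RD1 m 0).hH_mem ha, ?_⟩
  rw [XC_del0]
  obtain ⟨i, rfl⟩ : ∃ i, j = i + 1 := ⟨j - 1, by omega⟩
  rw [Hn_sph_ne m i hjm (H.map (XS.eta m) a) (SHS.H.map_mem _ ha), map_zero, add_zero]

/-- The fundamental class of the bottom stage. -/
def XC.x (m : ℕ) : H ((XC (m + 1)).Z 0) := (RD0 (m + 1)).hH (iotaH m)

theorem XC.x_mem (m : ℕ) : XC.x m ∈ Hn ((XC (m + 1)).Z 0) (m + 1) :=
  (RD0 (m + 1)).hH_mem (iotaH_mem m)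

theorem XC_B (m : ℕ) (a : H ((XC (m + 1)).Z 0)) (ha : a ∈ Hn ((XC (m + 1)).Z 0) (m + 1)) :
    ∃ (c : ZMod 2), ∃ b ∈ Hn ((XC (m + 1)).Z 1) (m + 1),
      a - c • XC.x m = SHQ.del (XC (m + 1)) 0 b := by
  obtain ⟨c, hc⟩ := Hn_sph_eq m (H.map (XS.eta (m + 1)) a) (SHS.H.map_mem _ ha)
  refine ⟨c, (RD1 (m + 1) 0).hH a, (RD1 (m + 1) 0).hH_mem ha, ?_⟩
  rw [XC_del0, hc, map_smul]
  exact SHS.mod_two_sub _ _

theorem XC_B' (m : ℕ) (b : H ((XC (m + 1)).Z 1)) : SHQ.del (XC (m + 1)) 0 b ≠ XC.x m := by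
  intro h
  have h1 := congrArg (H.map (XS.eta (m + 1))) h
  have h2 : H.map (XS.eta (m + 1)) (XC.x m) = iotaH m := XC_eta (m + 1) (iotaH m)
  rw [h2, SHQ.del_apply, Fin.sum_univ_two, map_add] at h1
  have h3 := XC_aug (m + 1) b
  have h4 : H.map (XS.eta (m + 1)) (H.map ((XC (m + 1)).map (cof (0 : Fin 2))) b) =
      H.map (XS.eta (m + 1)) (H.map ((XC (m + 1)).map (cof (1 : Fin 2))) b) := h3
  rw [h4, SHS.mod_two] at h1
  exact iotaH_ne m h1.symm

/-- Exactness of the indecomposables of `H^*(XS m s)` outside of two degrees. -/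
theorem XC_bnd (hfin : SHQ.FIN_Stmt (ZMod 2)) (m : ℕ)
    (hP : ∀ s, SHQ.PolyGen ((XC (m + 1)).Z s)) (j : ℕ) (hj : 1 ≤ j) (hjm : j ≠ m + 1)
    (hj2 : j ≠ 2 * (m + 1)) :
    (∀ a ∈ Hn ((XC (m + 1)).Z 0) j, ∃ b ∈ Hn ((XC (m + 1)).Z 1) j,
      a - SHQ.del (XC (m + 1)) 0 b ∈ SHS.Dec ((XC (m + 1)).Z 0)) ∧
    ∀ (s : ℕ), ∀ a ∈ Hn ((XC (m + 1)).Z (s + 1)) j,
      SHQ.del (XC (m + 1)) s a ∈ SHS.Dec ((XC (m + 1)).Z s) →
      ∃ b ∈ Hn ((XC (m + 1)).Z (s + 2)) j,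
        a - SHQ.del (XC (m + 1)) (s + 1) b ∈ SHS.Dec ((XC (m + 1)).Z (s + 1)) :=
  SHQ.q_bnd hfin (XC (m + 1)) hP (m + 1) (by omega) (XC.x m) (XC.x_mem m) (XC_ex (m + 1))
    (fun j hj hjm a ha => XC_A (m + 1) j hj hjm a ha) (fun a ha => XC_B m a ha)
    (fun b _ => XC_B' m b) j hj hjm hj2

end Pool.Agent.SHL
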