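import Pool.Agent.SH.L.XContr
import Pool.Agent.SH.TTFin

/-!
# MP_2d0b73_an, LINK: `XS m s` is levelwise finite and zero in degrees `< m`
-/

open CategoryTheory Opposite

noncomputable section

namespace Pool.Agent.SHL

open Pool.Agent.SH.TT (Dop bx Sph Bdy AugK aug RM it)

theorem XS_LF (m s : ℕ) : (XS m s).LF := fun n => SH.TT.tt_fin m s (bx n)

theorem AugK_sub {A : Type} (h : ∀ a b : A, a = b) (ξ : AugK A) : ξ = 0 := by
  apply Subtype.ext
  show ξ.1 = 0
  by_contra hne
  obtain ⟨a, ha⟩ := Finsupp.ne_iff.mp hne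
  have h1 : ξ.1 = Finsupp.single a (ξ.1 a) := by
    ext b
    rw [h b a]
    simp
  have h2 : (aug A) ξ.1 = 0 := LinearMap.mem_ker.1 ξ.2
  rw [h1] at h2
  simp only [aug, Finsupp.linearCombination_single, smul_eq_mul, mul_one] at h2
  exact ha h2

theorem PS'_sub (m n : ℕ) (h : n < m) : ∀ (s : ℕ) (a b : (PS' m s n).X), a = b
  | 0, a, b => (Sph_lt m n h a).trans (Sph_lt m n h b).symm
  | s + 1, a, b => by
    have h1 := PS'_sub m n h s
    exact (AugK_sub h1 a).trans (AugK_sub h1 b).symm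

/-- The levels below `m` vanish. -/
theorem XS_zero (m s n : ℕ) (h : n < m) (x : (XS m s).X n) : x = 0 :=
  AugK_sub (PS'_sub m n h s) x

end Pool.Agent.SHL
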