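import Pool.Agent.SH.DefsX
import Pool.Agent.SH.S.Deg

/-!
# MP_2d0b73_an, LINK: the cosimplicial space `XD m` in the language of block III-S

`XS m s : SHS.SV` has the levels of `(XD m).V s`; `XS.op θ` are all cosimplicial operators.
-/

open CategoryTheory Opposite

noncomputable section

namespace Pool.Agent.SHL

open Pool.Agent.SH.TT (Dop bx Sph RM it Fm reso XV XD AugK LinP UP brk lext augMap tm et mu iob scc prd emp)
open Pool.Agent.SHS (Mor)

/-- A morphism of the simplex category from a monotone map. -/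
def toS {a b : ℕ} (f : Mor a b) : SimplexCategory.mk a ⟶ SimplexCategory.mk b :=
  SimplexCategory.Hom.mk f

/-- A monotone map as a morphism of the opposite simplex category. -/
def toD {a b : ℕ} (f : Mor a b) : bx b ⟶ bx a := (toS f).op

/-- A morphism of the opposite simplex category as a monotone map. -/
def ofD {a b : ℕ} (f : bx b ⟶ bx a) : Mor a b := f.unop.toOrderHom

theorem ofD_toD {a b : ℕ} (f : Mor a b) : ofD (toD f) = f := rfl

theorem toD_ofD {a b : ℕ} (f : bx b ⟶ bx a) : toD (ofD f) = f := by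
  apply Quiver.Hom.unop_inj
  apply SimplexCategory.Hom.ext
  rfl

theorem toD_id (a : ℕ) : toD (OrderHom.id : Mor a a) = 𝟙 (bx a) := by
  apply Quiver.Hom.unop_inj
  apply SimplexCategory.Hom.ext
  rfl

theorem toD_comp {a b c : ℕ} (f : Mor a b) (g : Mor b c) : toD (g.comp f) = toD g ≫ toD f := by
  apply Quiver.Hom.unop_inj
  apply SimplexCategory.Hom.ext
  rfl

theorem ofD_comp {a b c : ℕ} (f : bx b ⟶ bx a) (g : bx c ⟶ bx b) :
    ofD (g ≫ f) = (ofD g).comp (ofD f) := rfl

/-- A simplicial vector space in the language of block III-S. -/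
def svS (V : SH.TT.SV) : SHS.SV where
  X n := V.obj (bx n)
  map f := (V.map (toD f)).hom
  map_id x := by
    rw [toD_id]
    exact congrFun (congrArg (fun g => (ModuleCat.Hom.hom g : _ → _)) (V.map_id _)) x
  map_comp f g x := by
    rw [toD_comp]
    exact congrFun (congrArg (fun g => (ModuleCat.Hom.hom g : _ → _)) (V.map_comp _ _)) x

/-- The levels. -/
abbrev XS (m s : ℕ) : SHS.SV := svS (XV m s)

/-- The cosimplicial operators. -/
def XS.op (m : ℕ) {a b : ℕ} (f : Mor a b) : SHS.SS.Hom (XS m a).toSS (XS m b).toSS where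
  f n x := (((reso RM).map (toS f)).app ((Sph m).obj (bx n))).toFun x
  nat g x := by
    have h := ((reso RM).map (toS f)).naturality ((Sph m).map (toD g))
    exact congrFun (congrArg Pointed.Hom.toFun h) x

theorem toS_id (a : ℕ) : toS (OrderHom.id : Mor a a) = 𝟙 (SimplexCategory.mk a) := rfl

theorem toS_comp {a b c : ℕ} (f : Mor a b) (g : Mor b c) : toS (g.comp f) = toS f ≫ toS g := rfl

theorem XS.op_id (m a n : ℕ) (x : (XS m a).X n) :
    (XS.op m (OrderHom.id : Mor a a)).f n x = x := by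
  show (((reso RM).map (toS OrderHom.id)).app ((Sph m).obj (bx n))).toFun x = x
  rw [toS_id, (reso RM).map_id]
  rfl

theorem XS.op_comp (m : ℕ) {a b c : ℕ} (f : Mor a b) (g : Mor b c) (n : ℕ) (x : (XS m a).X n) :
    (XS.op m (g.comp f)).f n x = (XS.op m g).f n ((XS.op m f).f n x) := by
  show (((reso RM).map (toS (g.comp f))).app ((Sph m).obj (bx n))).toFun x = _
  rw [toS_comp, (reso RM).map_comp]
  rfl

theorem XS.op_zero (m : ℕ) {a b : ℕ} (f : Mor a b) (n : ℕ) : (XS.op m f).f n 0 = 0 :=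
  (((reso RM).map (toS f)).app ((Sph m).obj (bx n))).map_point

/-- The iterates, one step down: `R^s S`, a set. -/
abbrev PS' (m s n : ℕ) : Pointed := (it RM s).obj ((Sph m).obj (bx n))

theorem XS.op_eq (m : ℕ) {a b : ℕ} (f : Mor a b) (n : ℕ) (x : (XS m a).X n) :
    (XS.op m f).f n x = (Fm RM ((Sph m).obj (bx n)) (b + 1) (a + 1) f).toFun x := rfl

/-- Operators preserving `0` are linear: the linear map. -/
def XS.lin (m : ℕ) {a b : ℕ} (f : Mor a b) (n : ℕ) :
    (XS m a).X n →ₗ[SHS.k] (XS m b).X n :=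
  (SH.TT.adjP.counit.app (LinP.obj (PS' m b n))).hom.comp
    (LinP.map (Fm RM ((Sph m).obj (bx n)) (b + 1) a (scc f))).hom

theorem XS.op_lin (m : ℕ) {a b : ℕ} (f : Mor a b) (h : f 0 = 0) (n : ℕ) (x : (XS m a).X n) :
    (XS.op m f).f n x = XS.lin m f n x := by
  rw [XS.op_eq, Pool.Agent.SH.TT.Fm_of_eq RM ((Sph m).obj (bx n)) b a f h]
  rfl

theorem XS.op_add (m : ℕ) {a b : ℕ} (f : Mor a b) (h : f 0 = 0) (n : ℕ) (x y : (XS m a).X n) :
    (XS.op m f).f n (x + y) = (XS.op m f).f n x + (XS.op m f).f n y := by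
  rw [XS.op_lin m f h, XS.op_lin m f h, XS.op_lin m f h, map_add]

/-- Operators preserving `0` as linear simplicial maps. -/
def XS.opL (m : ℕ) {a b : ℕ} (f : Mor a b) (h : f 0 = 0) : SHS.SV.Hom (XS m a) (XS m b) where
  f n := XS.lin m f n
  nat g x := by
    have h1 := (XS.op m f).nat g x
    rw [XS.op_lin m f h, XS.op_lin m f h] at h1
    exact h1

theorem XS.opL_toSS (m : ℕ) {a b : ℕ} (f : Mor a b) (h : f 0 = 0) :
    (XS.opL m f h).toSS = XS.op m f := by
  unfold SHS.SV.Hom.toSS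
  have : (fun n x => (XS.opL m f h).f n x) = (XS.op m f).f := by
    funext n x
    exact (XS.op_lin m f h n x).symm
  cases h2 : XS.op m f
  rw [h2] at this
  simp only at this ⊢
  congr

/-! ### Cofaces and the unit -/

open Pool.Agent.SHS (cof)

/-- The base simplex. -/
abbrev bse (m s n : ℕ) : (PS' m s n).X := (PS' m s n).point

theorem prd_cof_zero (a : ℕ) (h : (cof (0 : Fin (a + 2)) : Mor a (a + 1)) 0 ≠ 0) :
    prd (cof (0 : Fin (a + 2)) : Mor a (a + 1)) h = OrderHom.id := by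
  apply OrderHom.ext
  funext i
  apply Fin.succ_injective
  have h2 : (cof (0 : Fin (a + 2)) : Mor a (a + 1)) i ≠ 0 := by
    show Fin.succAbove (0 : Fin (a + 2)) i ≠ 0
    simp
  have h1 : (prd (cof (0 : Fin (a + 2)) : Mor a (a + 1)) h i).succ =
      (cof (0 : Fin (a + 2)) : Mor a (a + 1)) i := Fin.succ_pred _ h2
  rw [h1]
  show Fin.succAbove (0 : Fin (a + 2)) i = i.succ
  simp

theorem XS.op_cof_zero (m s n : ℕ) (x : (XS m s).X n) :
    (XS.op m (cof (0 : Fin (s + 2)))).f n x = brk (bse m (s + 1) n) x := by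
  have h0 : (cof (0 : Fin (s + 2)) : Mor s (s + 1)) 0 ≠ 0 := by
    show (Fin.succAbove (0 : Fin (s + 2)) 0) ≠ 0
    simp
  rw [XS.op_eq, Pool.Agent.SH.TT.Fm_of_ne RM ((Sph m).obj (bx n)) (s + 1) s _ h0,
    prd_cof_zero, Pool.Agent.SH.TT.Fm_id]
  rfl

theorem Fm_rm {P : Pointed} (b a : ℕ) (θ : Fin (a + 1) →o Fin (b + 2)) (θ' : Fin a →o Fin (b + 1))
    (h0 : θ 0 = 0) (h : ∀ i, θ i.succ = (θ' i).succ) :
    Fm RM P (b + 2) (a + 1) θ = tm RM (Fm RM P (b + 1) a θ') := by
  rw [Pool.Agent.SH.TT.Fm_of_eq RM P (b + 1) a θ h0]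
  have h2 : Fm RM P (b + 2) a (scc θ) = Fm RM P (b + 1) a θ' ≫ et RM P (b + 1) :=
    Pool.Agent.SH.TT.Fm_succ RM P (b + 1) a (scc θ) θ' h
  rw [h2, Pool.Agent.SH.TT.tm_comp, Category.assoc, Pool.Agent.SH.TT.tet_mu, Category.comp_id]

theorem XS.op_cof_succ (m s n : ℕ) (i : Fin (s + 2)) (x : (XS m (s + 1)).X n) :
    (XS.op m (cof i.succ)).f n x = augMap ((XS.op m (cof i)).f n) x := by
  have h0 : (cof i.succ : Mor (s + 1) (s + 2)) 0 = 0 := by
    show Fin.succAbove i.succ 0 = 0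
    simp
  have h1 : ∀ j, (cof i.succ : Mor (s + 1) (s + 2)) j.succ = ((cof i : Mor s (s + 1)) j).succ := by
    intro j
    show Fin.succAbove i.succ j.succ = (Fin.succAbove i j).succ
    simp
  rw [XS.op_eq, Fm_rm (s + 1) (s + 1) _ (cof i) h0 h1]
  rfl

/-! ### The sphere -/

/-- The sphere as a simplicial set of block III-S. -/
def SphSS (m : ℕ) : SHS.SS where
  X n := ((Sph m).obj (bx n)).X
  map f := ((Sph m).map (toD f)).toFun
  map_id x := by
    rw [toD_id]
    exact congrFun (congrArg Pointed.Hom.toFun ((Sph m).map_id _)) x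
  map_comp f g x := by
    rw [toD_comp]
    exact congrFun (congrArg Pointed.Hom.toFun ((Sph m).map_comp _ _)) x

/-- The coaugmentation. -/
def XS.eta (m : ℕ) : SHS.SS.Hom (SphSS m) (XS m 0).toSS where
  f n x := brk (none : ((Sph m).obj (bx n)).X) x
  nat g x := by
    have h := RM.η.naturality ((Sph m).map (toD g))
    exact congrFun (congrArg Pointed.Hom.toFun h) x

theorem XS.op_cof_one (m n : ℕ) (x : (XS m 0).X n) :
    (XS.op m (cof (1 : Fin 2))).f n x = augMap ((XS.eta m).f n) x := by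
  have h0 : (cof (1 : Fin 2) : Mor 0 1) 0 = 0 := rfl
  rw [XS.op_eq, Fm_rm 0 0 _ (emp 1) h0 (fun i => i.elim0)]
  have h3 : Fm RM ((Sph m).obj (bx n)) 1 0 (emp 1) = et RM ((Sph m).obj (bx n)) 0 := by
    rw [Pool.Agent.SH.TT.Fm_zero]
    have : Fm RM ((Sph m).obj (bx n)) 0 0 (emp 0) = 𝟙 _ := by
      unfold Fm
      rfl
    rw [this, Category.id_comp]
  rw [h3]
  rfl

end Pool.Agent.SHL
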