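import Pool.Agent.SH.L.XS
import Pool.Agent.SH.S.Norm

/-!
# MP_2d0b73_an, LINK: cohomology of the sphere `SphSS m`
-/

open CategoryTheory Opposite

noncomputable section

namespace Pool.Agent.SHL

open Pool.Agent.SH.TT (Dop bx Sph Bdy)
open Pool.Agent.SHS (Mor cof cod Hn H clsN clsN_mem clsN_eq_zero clsN_add clsN_smul exists_clsN)

/-- Every simplex of positive degree `≠ m` of the sphere is degenerate; in degree `m` only the
fundamental simplex is not. -/
theorem Sph_deg (m j : ℕ) (x : (SphSS m).X (j + 1)) :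
    (∃ (i : Fin (j + 1)) (y : (SphSS m).X j), (SphSS m).map (cod i) y = x) ∨
      ∃ (g : bx m ⟶ bx (j + 1)) (hg : ¬ Bdy g), Function.Injective g.unop.toOrderHom ∧
        x = some ⟨g, hg⟩ := by
  cases x with
  | none => exact Or.inl ⟨0, none, rfl⟩
  | some t =>
    by_cases hi : Function.Injective t.1.unop.toOrderHom
    · exact Or.inr ⟨t.1, t.2, hi, rfl⟩
    · left
      obtain ⟨i, θ, hθ⟩ := SimplexCategory.eq_σ_comp_of_not_injective t.1.unop hi
      have e : t.1 = θ.op ≫ toD (cod i) := by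
        apply Quiver.Hom.unop_inj
        exact hθ
      have h1 : ¬ Bdy (θ.op : bx m ⟶ bx j) := by
        intro hb
        apply t.2
        intro hs
        apply hb
        intro y
        obtain ⟨z, hz⟩ := hs y
        rw [e] at hz
        exact ⟨cod i z, hz⟩
      refine ⟨i, some ⟨θ.op, h1⟩, ?_⟩
      have h2 : ¬ Bdy (θ.op ≫ toD (cod i) : bx m ⟶ bx (j + 1)) := by
        rw [← e]
        exact t.2
      refine (dif_pos h2).trans ?_
      exact congrArg some (Subtype.ext e.symm)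

theorem Sph_id (m j : ℕ) (g : bx m ⟶ bx j) (hg : ¬ Bdy g)
    (hi : Function.Injective g.unop.toOrderHom) : j = m := by
  have hb : Function.Bijective g.unop.toOrderHom := ⟨hi, by
    by_contra h
    exact hg h⟩
  have := Fintype.card_of_bijective hb
  simp only [Fintype.card_fin] at this
  have h2 : (unop (bx j)).len = j := rfl
  have h3 : (unop (bx m)).len = m := rfl
  omega

theorem delta_sph (X : SHS.SS) (j : ℕ) (φ : X.X j → SHS.k) (x : X.X (j + 1)) :
    X.cm.delta j φ x = ∑ i : Fin (j + 2), φ (X.map (cof i) x) := by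
  rw [SHS.CM.delta_apply, Finset.sum_apply]
  rfl

/-- A cocycle of degree `j + 1` is cohomologous to one which vanishes on degenerate simplices. -/
theorem norm_cocycle (X : SHS.SS) (j : ℕ) (φ : X.X (j + 1) → SHS.k) (h : X.cm.delta (j + 1) φ = 0) :
    ∃ v : X.X j → SHS.k, ∀ (i : Fin (j + 1)) (y : X.X j),
      φ (X.map (cod i) y) + X.cm.delta j v (X.map (cod i) y) = 0 := by
  obtain ⟨v, hv⟩ := SHS.NORM X.cm j φ (fun i => by rw [h, map_zero])
  exact ⟨v, fun i y => congrFun (hv i) y⟩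

theorem Hn_sph_ne (m j : ℕ) (h : j + 1 ≠ m) (a : H (SphSS m)) (ha : a ∈ Hn (SphSS m) (j + 1)) :
    a = 0 := by
  obtain ⟨φ, hφ, rfl⟩ := exists_clsN ha
  rw [clsN_eq_zero]
  obtain ⟨v, hv⟩ := norm_cocycle (SphSS m) j φ hφ
  refine ⟨v, ?_⟩
  funext x
  rcases Sph_deg m j x with ⟨i, y, rfl⟩ | ⟨g, hg, hi, rfl⟩
  · exact (SHS.mod_two_eq (hv i y)).symm
  · exact absurd (Sph_id m (j + 1) g hg hi) h

/-- The coboundary of a normalised cochain is normalised. -/
theorem norm_delta (M : SHS.CM) (n : ℕ) (x : M.X (n + 1))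
    (h : ∀ i ≤ n, M.map (SHS.Norm.cd n i) x = 0) (j : ℕ) (hj : j ≤ n + 1) :
    M.map (SHS.Norm.cd (n + 1) j) (M.delta (n + 1) x) = 0 := by
  rw [SHS.Norm.delta_eq, map_sum]
  obtain ⟨r, hr⟩ : ∃ r, n + 1 + 2 = j + 2 + r := ⟨n + 1 - j, by omega⟩
  rw [hr, SHS.Norm.sum_mid]
  · refine Finset.sum_eq_zero fun i hi => ?_
    have hi' := Finset.mem_range.1 hi
    rw [show j + 2 + i = (j + 1 + i) + 1 by omega, SHS.Norm.m_gt M (by omega) (by omega),
      h j (by omega), map_zero]
  · rw [SHS.Norm.m_eq M hj, SHS.Norm.m_eq' M hj]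
  · intro i hi
    rw [SHS.Norm.m_lt M hi hj, h (j - 1) (by omega), map_zero]

/-- The fundamental simplex. -/
def idS (m : ℕ) : (SphSS m).X m := some ⟨𝟙 (bx m), fun h => h (fun y => ⟨y, rfl⟩)⟩

open scoped Classical in
/-- The fundamental cochain of the sphere. -/
def iotaS (m : ℕ) : (SphSS m).X m → SHS.k := fun x => if x = idS m then 1 else 0

theorem Sph_lt (m j : ℕ) (h : j < m) (x : (SphSS m).X j) : x = none := by
  cases x with
  | none => rfl
  | some t =>
    exfalso
    apply t.2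
    intro hs
    have := Fintype.card_le_of_surjective _ hs
    simp only [Fintype.card_fin] at this
    have h2 : (unop (bx j)).len = j := rfl
    have h3 : (unop (bx m)).len = m := rfl
    omega

theorem iotaS_deg (m : ℕ) (g : Mor (m + 1) m) (y : (SphSS (m + 1)).X m) :
    iotaS (m + 1) ((SphSS (m + 1)).map g y) = 0 := by
  rw [Sph_lt (m + 1) m (Nat.lt_succ_self m) y]
  have h : ((SphSS (m + 1)).map g none) ≠ idS (m + 1) := by
    intro h
    cases h
  exact if_neg h

theorem iotaS_cocycle (m : ℕ) : (SphSS (m + 1)).cm.delta (m + 1) (iotaS (m + 1)) = 0 := by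
  funext x
  rcases Sph_deg (m + 1) (m + 1) x with ⟨i, y, rfl⟩ | ⟨g, hg, hi, rfl⟩
  · have h := norm_delta (SphSS (m + 1)).cm m (iotaS (m + 1))
      (fun i _ => funext fun y => iotaS_deg m _ y) i.1 (by omega)
    have h2 := congrFun h y
    rw [← SHS.Norm.cod_eq] at h2
    exact h2
  · exact absurd (Sph_id (m + 1) (m + 1 + 1) g hg hi) (by omega)

/-- The fundamental class. -/
def iotaH (m : ℕ) : H (SphSS (m + 1)) := clsN (m + 1) (iotaS (m + 1)) (iotaS_cocycle m)

theorem iotaH_mem (m : ℕ) : iotaH m ∈ Hn (SphSS (m + 1)) (m + 1) := clsN_mem _ _ _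

theorem iotaH_ne (m : ℕ) : iotaH m ≠ 0 := by
  intro h
  have h1 := (clsN_eq_zero _ (iotaS_cocycle m)).1 h
  obtain ⟨v, hv⟩ := h1
  have h3 : ∀ (x : (SphSS (m + 1)).X (m + 1)) (i : Fin (m + 2)),
      (SphSS (m + 1)).map (cof i) x = none := fun x i => Sph_lt (m + 1) m (Nat.lt_succ_self m) _
  have e0 : ∀ x : (SphSS (m + 1)).X (m + 1),
      ∑ i : Fin (m + 2), v ((SphSS (m + 1)).map (cof i) x) = iotaS (m + 1) x := by
    intro x
    rw [← hv]
    exact (delta_sph _ _ _ _).symm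
  simp only [h3] at e0
  have e1 := e0 (idS (m + 1))
  have e2 := e0 (none : ((Sph (m + 1)).obj (bx (m + 1))).X)
  rw [e1] at e2
  have h4 : iotaS (m + 1) (idS (m + 1)) = 1 := if_pos rfl
  have h5 : iotaS (m + 1) (none : (SphSS (m + 1)).X (m + 1)) = 0 := if_neg (by
    intro h
    cases h)
  rw [h4, h5] at e2
  exact one_ne_zero e2

theorem Hn_sph_eq (m : ℕ) (a : H (SphSS (m + 1))) (ha : a ∈ Hn (SphSS (m + 1)) (m + 1)) :
    ∃ c : SHS.k, a = c • iotaH m := by
  obtain ⟨φ, hφ, rfl⟩ := exists_clsN ha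
  obtain ⟨v, hv⟩ := norm_cocycle (SphSS (m + 1)) m φ hφ
  refine ⟨φ (idS (m + 1)) + (SphSS (m + 1)).cm.delta m v (idS (m + 1)), ?_⟩
  set c := φ (idS (m + 1)) + (SphSS (m + 1)).cm.delta m v (idS (m + 1)) with hc
  unfold iotaH
  rw [← clsN_smul, ← sub_eq_zero, SHS.mod_two_sub, ← clsN_add, clsN_eq_zero]
  refine ⟨v, ?_⟩
  funext x
  show (SphSS (m + 1)).cm.delta m v x = φ x + c * iotaS (m + 1) x
  rcases Sph_deg (m + 1) m x with ⟨i, y, rfl⟩ | ⟨g, hg, hi, rfl⟩
  · rw [iotaS_deg, mul_zero, add_zero]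
    exact (SHS.mod_two_eq (hv i y)).symm
  · have hid : (some ⟨g, hg⟩ : (SphSS (m + 1)).X (m + 1)) = idS (m + 1) := by
      refine congrArg some (Subtype.ext ?_)
      show g = 𝟙 _
      apply Quiver.Hom.unop_inj
      have hb : Function.Surjective g.unop.toOrderHom := by
        by_contra h
        exact hg h
      have : Epi g.unop := SimplexCategory.epi_iff_surjective.2 hb
      exact SimplexCategory.eq_id_of_epi g.unop
    rw [hid]
    have h4 : iotaS (m + 1) (idS (m + 1)) = 1 := if_pos rfl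
    rw [h4, mul_one, hc]
    have := SHS.k_two (φ (idS (m + 1)))
    linear_combination (-1 : SHS.k) * this

end Pool.Agent.SHL
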